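import Pool.Agent.Lib.H71W.Defs

/-!
# Project H71W, C1A (M): the unitization has real rank zero
-/

open scoped Pointwise

namespace Pool.H71W

/-- **C1a (M): the unitization.** Proof. Write `x = inl λ + inr a` (`Unitization.inl_fst_add_inr_snd_eq`), `a` self-adjoint, `λ` real
(`star λ = λ`). Take `b'` for `a` and `b = inl λ + inr b'`. `‖x - b‖ = ‖inr (a - b')‖ = ‖a - b'‖` (`Unitization.norm_inr`);
`spectrum ℂ b = λ + spectrum ℂ (inr b')` (`spectrum.add_singleton_eq`-type lemma `spectrum.singleton_add_eq`,
`Unitization.algebraMap_eq_inl`), `quasispectrum ℂ b' = spectrum ℂ (inr b')` (`Unitization.quasispectrum_eq_spectrum_inr`). -/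
theorem c1_unitization {A : Type} [NonUnitalCStarAlgebra A] (h : RR0 A) : RRU (Unitization ℂ A) := by
  intro x hx ε hε
  have ha : IsSelfAdjoint x.snd := by
    have h1 := congrArg (fun y : Unitization ℂ A => y.snd) hx.star_eq
    simp only [Unitization.snd_star] at h1
    exact h1
  have hl : star x.fst = x.fst := by
    have h1 := congrArg (fun y : Unitization ℂ A => y.fst) hx.star_eq
    simp only [Unitization.fst_star] at h1
    exact h1
  obtain ⟨b, hb1, hb2, hb3⟩ := h x.snd ha ε hε
  refine ⟨Unitization.inl x.fst + (b : Unitization ℂ A), ?_, ?_, ?_⟩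
  · rw [IsSelfAdjoint, star_add, ← Unitization.inl_star, hl, ← Unitization.inr_star, hb1.star_eq]
  · have h1 : (Unitization.inl x.fst : Unitization ℂ A) = algebraMap ℂ (Unitization ℂ A) x.fst := rfl
    rw [h1, ← spectrum.singleton_add_eq, ← Unitization.quasispectrum_eq_spectrum_inr]
    exact (Set.finite_singleton _).add hb2
  · have h2 : x - (Unitization.inl x.fst + (b : Unitization ℂ A)) = ((x.snd - b : A) : Unitization ℂ A) := by
      apply Unitization.ext
      · rw [sub_eq_add_neg, sub_eq_add_neg, Unitization.fst_add, Unitization.fst_neg, Unitization.fst_add,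
          Unitization.fst_inl, Unitization.fst_inr, Unitization.fst_inr]
        simp
      · rw [sub_eq_add_neg, sub_eq_add_neg, Unitization.snd_add, Unitization.snd_neg, Unitization.snd_add,
          Unitization.snd_inl, Unitization.snd_inr, Unitization.snd_inr]
        simp
    rw [h2, Unitization.norm_inr]
    exact hb3

end Pool.H71W
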