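import Pool.Agent.Lib.H71W.Defs

/-!
# Project H71W, C1B (M): spectral cut of a self-adjoint element with finite spectrum
-/

namespace Pool.H71W

/-- **C1b (M): spectral cut.** Let `b` be self-adjoint with finite spectrum. There are a projection `e` and an element `S'` with
`S S' = S' S = 1`, `‖S'‖ ≤ 2` for `S = b e + (1 - b)(1 - e)`, and `‖2 e - 1‖ ≤ 1`. Proof. `e = cfc f b`, `f t = 1` if `1/2 ≤ t` and `0` otherwise
(real functional calculus; every function is continuous on the finite set `spectrum ℝ b`: `Set.Finite.continuousOn`);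
`S = cfc g b`, `g t = t` if `1/2 ≤ t`, `1 - t` otherwise, so `1/2 ≤ g`; `S' = cfc (1 / g) b`; `norm_cfc_le`, `cfc_mul`, `cfc_add`, `cfc_sub`. -/
theorem c1_cut {R : Type} [CStarAlgebra R] (b : R) (hb : IsSelfAdjoint b) (hf : (spectrum ℂ b).Finite) :
    ∃ e S' : R, e * e = e ∧ star e = e ∧ ‖2 * e - 1‖ ≤ 1 ∧ ‖S'‖ ≤ 2 ∧ (b * e + (1 - b) * (1 - e)) * S' = 1 ∧
      S' * (b * e + (1 - b) * (1 - e)) = 1 := by
  have hfR : (spectrum ℝ b).Finite := by
    rw [← spectrum.preimage_algebraMap ℂ (a := b)]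
    exact hf.preimage (FaithfulSMul.algebraMap_injective ℝ ℂ).injOn
  have hc : ∀ φ : ℝ → ℝ, ContinuousOn φ (spectrum ℝ b) := fun φ => hfR.continuousOn φ
  obtain ⟨f, hfd⟩ : ∃ f : ℝ → ℝ, ∀ t, f t = if 1 / 2 ≤ t then 1 else 0 := ⟨_, fun _ => rfl⟩
  obtain ⟨g, hg⟩ : ∃ g : ℝ → ℝ, ∀ t, g t = t * f t + (1 - t) * (1 - f t) := ⟨_, fun _ => rfl⟩
  have hff : ∀ t, f t * f t = f t := by
    intro t; rw [hfd]; split_ifs <;> simp
  have hg2 : ∀ t, 1 / 2 ≤ g t := by
    intro t; rw [hg, hfd]; split_ifs with h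
    · linarith
    · rw [not_le] at h; linarith
  have hid : cfc (fun x : ℝ => x) b = b := cfc_id' ℝ b hb
  have hone : cfc (fun _ : ℝ => (1 : ℝ)) b = 1 := cfc_const_one ℝ b
  have h1 : cfc (fun t : ℝ => 1 - f t) b = 1 - cfc f b := by
    rw [cfc_sub (fun _ : ℝ => (1 : ℝ)) f b (hc _) (hc _), hone]
  have h2 : cfc (fun t : ℝ => 1 - t) b = 1 - b := by
    rw [cfc_sub (fun _ : ℝ => (1 : ℝ)) (fun x : ℝ => x) b (hc _) (hc _), hone, hid]
  have hS : cfc g b = b * cfc f b + (1 - b) * (1 - cfc f b) := by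
    have h3 : cfc (fun t : ℝ => t * f t) b = b * cfc f b := by
      rw [cfc_mul (fun t : ℝ => t) f b (hc _) (hc _), hid]
    have h4 : cfc (fun t : ℝ => (1 - t) * (1 - f t)) b = (1 - b) * (1 - cfc f b) := by
      rw [cfc_mul (fun t : ℝ => 1 - t) (fun t : ℝ => 1 - f t) b (hc _) (hc _), h2, h1]
    rw [← h3, ← h4, ← cfc_add b (fun t : ℝ => t * f t) (fun t : ℝ => (1 - t) * (1 - f t)) (hc _) (hc _)]
    exact cfc_congr fun t _ => hg t
  refine ⟨cfc f b, cfc (fun t => (g t)⁻¹) b, ?_, ?_, ?_, ?_, ?_, ?_⟩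
  · rw [← cfc_mul f f b (hc _) (hc _)]
    exact cfc_congr fun t _ => hff t
  · exact (cfc_predicate f b : IsSelfAdjoint (cfc f b)).star_eq
  · have h5 : (2 : R) * cfc f b - 1 = cfc (fun t => f t - (1 - f t)) b := by
      rw [cfc_sub f (fun t : ℝ => 1 - f t) b (hc _) (hc _), h1, two_mul]
      abel
    rw [h5]
    refine norm_cfc_le zero_le_one fun t _ => ?_
    rw [hfd]; split_ifs <;> simp
  · refine norm_cfc_le zero_le_two fun t _ => ?_
    have h6 := hg2 t
    rw [norm_inv, Real.norm_of_nonneg (by linarith)]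
    rw [inv_le_comm₀ (by linarith) (by norm_num)]
    linarith
  · rw [← hS, ← cfc_mul g _ b (hc _) (hc _), ← hone]
    refine cfc_congr fun t _ => ?_
    have h6 := hg2 t
    exact mul_inv_cancel₀ (by linarith)
  · rw [← hS, ← cfc_mul _ g b (hc _) (hc _), ← hone]
    refine cfc_congr fun t _ => ?_
    have h6 := hg2 t
    exact inv_mul_cancel₀ (by linarith)

end Pool.H71W
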