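import Pool.Agent.Lib.H71W.C1B

/-!
# Project H71W, C1C (S/M): real rank zero gives exchange for self-adjoint elements
-/

namespace Pool.H71W

/-- **C1c (S/M): exchange.** Proof. `b` with `‖x - b‖ < 1/2`, `c1_cut`. `T = x e + (1 - x)(1 - e)`, `T - S = (x - b)(2 e - 1)`, so
`‖S' (T - S)‖ < 1` and `T = S (1 + S' (T - S))` is invertible (`isUnit_one_add_of_norm_lt_one` or `Units.oneSub`). `T e = x e`,
`T (1 - e) = (1 - x)(1 - e)`. `g = T e T⁻¹ = x (e T⁻¹)`, `1 - g = T (1 - e) T⁻¹ = (1 - x) ((1 - e) T⁻¹)`. -/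
theorem c1_exch {R : Type} [CStarAlgebra R] (h : RRU R) (x : R) (hx : IsSelfAdjoint x) :
    ∃ g r s : R, g * g = g ∧ g = x * r ∧ 1 - g = (1 - x) * s := by
  obtain ⟨b, hb, hf, hxb⟩ := h x hx (1 / 2) (by norm_num)
  obtain ⟨e, S', he, -, hn, hS'n, hSS, hSS'⟩ := c1_cut b hb hf
  obtain ⟨S, hS⟩ : ∃ S : R, S = b * e + (1 - b) * (1 - e) := ⟨_, rfl⟩
  obtain ⟨T, hT⟩ : ∃ T : R, T = x * e + (1 - x) * (1 - e) := ⟨_, rfl⟩
  rw [← hS] at hSS hSS'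
  have hTS : T - S = (x - b) * (2 * e - 1) := by
    rw [hT, hS]; noncomm_ring
  have hlt : ‖S' * (T - S)‖ < 1 := by
    have h1 : ‖S' * (T - S)‖ ≤ ‖S'‖ * (‖x - b‖ * ‖2 * e - 1‖) := by
      rw [hTS]
      exact (norm_mul_le _ _).trans (mul_le_mul_of_nonneg_left (norm_mul_le _ _) (norm_nonneg _))
    have h2 : ‖S'‖ * (‖x - b‖ * ‖2 * e - 1‖) ≤ 2 * (‖x - b‖ * 1) := by
      apply mul_le_mul hS'n (mul_le_mul_of_nonneg_left hn (norm_nonneg _)) (by positivity) (by norm_num)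
    linarith
  have hu : IsUnit T := by
    have h1 : T = S * (1 - -(S' * (T - S))) := by
      rw [sub_neg_eq_add, mul_add, mul_one, ← mul_assoc, hSS, one_mul]; abel
    have hSu : IsUnit S := ⟨⟨S, S', hSS, hSS'⟩, rfl⟩
    have h2 : IsUnit (1 - -(S' * (T - S))) := isUnit_one_sub_of_norm_lt_one (by rw [norm_neg]; exact hlt)
    rw [h1]
    exact hSu.mul h2
  obtain ⟨u, hu⟩ := hu
  have hTe : T * e = x * e := by
    rw [hT]
    have h1 : (x * e + (1 - x) * (1 - e)) * e = x * (e * e) + (1 - x) * (e - e * e) := by noncomm_ring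
    rw [h1, he]; simp
  have hTe' : T * (1 - e) = (1 - x) * (1 - e) := by
    rw [hT]
    have h1 : (x * e + (1 - x) * (1 - e)) * (1 - e) = x * (e - e * e) + (1 - x) * (1 - e - (e - e * e)) := by
      noncomm_ring
    rw [h1, he]; simp
  have hui : (↑u⁻¹ : R) * T = 1 := by rw [← hu]; exact u.inv_mul
  have hui' : T * (↑u⁻¹ : R) = 1 := by rw [← hu]; exact u.mul_inv
  refine ⟨T * e * ↑u⁻¹, e * ↑u⁻¹, (1 - e) * ↑u⁻¹, ?_, ?_, ?_⟩
  · calc T * e * ↑u⁻¹ * (T * e * ↑u⁻¹) = T * e * (↑u⁻¹ * T) * e * ↑u⁻¹ := by noncomm_ring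
      _ = T * (e * e) * ↑u⁻¹ := by rw [hui]; noncomm_ring
      _ = T * e * ↑u⁻¹ := by rw [he]
  · rw [hTe, mul_assoc]
  · rw [← mul_assoc, ← hTe']
    calc 1 - T * e * ↑u⁻¹ = T * ↑u⁻¹ - T * e * ↑u⁻¹ := by rw [hui']
      _ = T * (1 - e) * ↑u⁻¹ := by noncomm_ring

end Pool.H71W
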