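import Pool.Agent.Lib.H71W.C1C

/-!
# Project H71W, C1D (S): corners (only ring identities)
-/

namespace Pool.H71W

/-- **C1d (S): corners** (only ring identities). Proof. `g, r0, s0` from `c1_exch`. `p g = p x r0 = g`. `e = g p`, `e e = g (p g) p = e`;
`e = x r0 p = x (p r0 p)`; `f = p - e = p (1 - g) p = (p - x) s0 p = (p - x)(p s0 p)`; `r = (p r0 p) e`, `s = (p s0 p) f`. -/
theorem c1_corner {R : Type} [CStarAlgebra R] (h : RRU R) (p x : R) (hp : p * p = p) (hx : IsSelfAdjoint x)
    (hpx : p * x = x) (hxp : x * p = x) : ∃ e f r s : R, e + f = p ∧ e * e = e ∧ f * f = f ∧ e * f = 0 ∧ f * e = 0 ∧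
      x * r = e ∧ (p - x) * s = f ∧ p * r = r ∧ r * e = r ∧ p * s = s ∧ s * f = s := by
  obtain ⟨g, r0, s0, hg, hgx, hgs⟩ := c1_exch h x hx
  have hpg : p * g = g := by rw [hgx, ← mul_assoc, hpx]
  have hee : (g * p) * (g * p) = g * p := by
    calc (g * p) * (g * p) = g * (p * g) * p := by noncomm_ring
      _ = g * p := by rw [hpg, hg]
  have hep : g * p * p = g * p := by rw [mul_assoc, hp]
  have hpe : p * (g * p) = g * p := by rw [← mul_assoc, hpg]
  have hff : (p - g * p) * (p - g * p) = p - g * p := by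
    calc (p - g * p) * (p - g * p) = p * p - p * (g * p) - (g * p * p) + (g * p) * (g * p) := by noncomm_ring
      _ = p - g * p := by rw [hp, hpe, hep, hee]; noncomm_ring
  have hxr : x * (p * r0 * p) = g * p := by
    calc x * (p * r0 * p) = (x * p) * r0 * p := by noncomm_ring
      _ = g * p := by rw [hxp, ← hgx]
  have hxs : (p - x) * (p * s0 * p) = p - g * p := by
    calc (p - x) * (p * s0 * p) = (p * p - x * p) * s0 * p := by noncomm_ring
      _ = (p - p * x) * s0 * p := by rw [hp, hxp, hpx]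
      _ = p * ((1 - x) * s0) * p := by noncomm_ring
      _ = p * (1 - g) * p := by rw [hgs]
      _ = p * p - (p * g) * p := by noncomm_ring
      _ = p - g * p := by rw [hp, hpg]
  refine ⟨g * p, p - g * p, (p * r0 * p) * (g * p), (p * s0 * p) * (p - g * p), ?_, hee, hff, ?_, ?_, ?_, ?_, ?_, ?_,
    ?_, ?_⟩
  · abel
  · rw [mul_sub, hep, hee, sub_self]
  · rw [sub_mul, hpe, hee, sub_self]
  · rw [← mul_assoc, hxr, hee]
  · rw [← mul_assoc, hxs, hff]
  · calc p * (p * r0 * p * (g * p)) = (p * p) * r0 * p * (g * p) := by noncomm_ring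
      _ = p * r0 * p * (g * p) := by rw [hp]
  · rw [mul_assoc, hee]
  · calc p * (p * s0 * p * (p - g * p)) = (p * p) * s0 * p * (p - g * p) := by noncomm_ring
      _ = p * s0 * p * (p - g * p) := by rw [hp]
  · rw [mul_assoc, hff]

end Pool.H71W
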