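import Pool.Agent.Lib.H71W.Defs

/-!
# Project H71W, C2A (M): algebraic subequivalence, polar decomposition in one unital C*-algebra
-/

namespace Pool.H71W

/-- **C2a (M).** Proof. Replace `y` by `y p` and `x` by `p x` (still `x y = p`). `h = y* y + (1 - p)` is positive and
`c ≤ h` for `c = min 1 (‖x‖ ^ (-2)) > 0`: `p = (x y)* (x y) ≤ ‖x‖² y* y`; so `h` is invertible (alternative without order: if `h` were not
invertible ...; or `h' = p x x* p + (1 - p)` with explicit inverse relations; any proof). `s = CFC.sqrt h`, `s² = h`, `s` invertible,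
`p` commutes with `h` (`p y* y = y* y = y* y p`) hence with `s`. `v = y s⁻¹`: `v* v = s⁻¹ y* y s⁻¹ = s⁻¹ h p s⁻¹ = p`. -/
theorem c2_sub {B : Type} [CStarAlgebra B] (p x y : B) (hp : p * p = p) (hps : star p = p) (hxy : x * y = p) :
    ∃ u : B, star (y * p * u) * (y * p * u) = p ∧ u * p = p * u ∧ ∃ u' : B, u * u' = 1 ∧ u' * u = 1 := by
  let _ := CStarAlgebra.spectralOrder B
  let _ := CStarAlgebra.spectralOrderedRing B
  set z : B := y * p with hz
  have hzp : z * p = z := by rw [hz, mul_assoc, hp]
  have hsz : p * star z = star z := by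
    have h1 := congrArg star hzp
    rw [star_mul, hps] at h1
    exact h1
  have hxz : p * x * z = p := by
    rw [hz, mul_assoc p x, ← mul_assoc x y, hxy, hp, hp]
  set w : B := p * x with hw
  set a : B := star z * z with ha
  have hap : a * p = a := by rw [ha, mul_assoc, hzp]
  have hpa : p * a = a := by rw [ha, ← mul_assoc, hsz]
  have ha0 : 0 ≤ a := star_mul_self_nonneg z
  have hq : star (1 - p) = 1 - p := by rw [star_sub, star_one, hps]
  have hqq : (1 - p) * (1 - p) = 1 - p := by
    rw [sub_mul, mul_sub, mul_sub, one_mul, mul_one, one_mul, hp]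
    simp
  have hq0 : 0 ≤ 1 - p := by
    have h1 : star (1 - p) * (1 - p) = 1 - p := by rw [hq, hqq]
    rw [← h1]
    exact star_mul_self_nonneg _
  set h : B := a + (1 - p) with hh
  have hh0 : 0 ≤ h := add_nonneg ha0 hq0
  have hpz : p ≤ ‖star w * w‖ • a := by
    have h1 : star z * (star w * w) * z ≤ ‖star w * w‖ • (star z * z) :=
      CStarAlgebra.star_left_conjugate_le_norm_smul (IsSelfAdjoint.star_mul_self w)
    have h2 : star z * (star w * w) * z = p := by
      have h3 : star z * (star w * w) * z = star (w * z) * (w * z) := by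
        rw [star_mul w z]
        simp only [mul_assoc]
      rw [h3, hxz, hps, hp]
    rw [h2] at h1
    exact h1
  set c : ℝ := ‖star w * w‖ + 1 with hc
  have hc0 : 0 ≤ ‖star w * w‖ := norm_nonneg _
  have hone : (1 : B) ≤ c • h := by
    have h1 : c • h = ‖star w * w‖ • a + (1 - p) + (a + ‖star w * w‖ • (1 - p)) := by
      rw [hh, hc, smul_add, add_smul, add_smul, one_smul, one_smul]
      abel
    have h2 : (1 : B) = p + (1 - p) := by abel
    have h3 : p + (1 - p) ≤ ‖star w * w‖ • a + (1 - p) := add_le_add_left hpz _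
    have h4 : 0 ≤ a + ‖star w * w‖ • (1 - p) := add_nonneg ha0 (smul_nonneg hc0 hq0)
    rw [h1]
    calc (1 : B) = p + (1 - p) := h2
      _ ≤ ‖star w * w‖ • a + (1 - p) := h3
      _ ≤ ‖star w * w‖ • a + (1 - p) + (a + ‖star w * w‖ • (1 - p)) := le_add_of_nonneg_right h4
  have hcpos : (0 : ℝ) < c := by rw [hc]; linarith
  have hunit1 : IsUnit (c • h) := by
    refine CStarAlgebra.isUnit_of_le (1 : B) hone ?_
    exact isStrictlyPositive_one
  have hunit : IsUnit h := by
    have h1 : h = c⁻¹ • (c • h) := by rw [smul_smul, inv_mul_cancel₀ hcpos.ne', one_smul]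
    rw [h1]
    obtain ⟨v, hv⟩ := hunit1
    rw [← hv]
    exact ⟨⟨c⁻¹ • (v : B), c • ((v⁻¹ : Bˣ) : B), by
      rw [smul_mul_smul_comm, inv_mul_cancel₀ hcpos.ne', one_smul, Units.mul_inv], by
      rw [smul_mul_smul_comm, mul_inv_cancel₀ hcpos.ne', one_smul, Units.inv_mul]⟩, rfl⟩
  set t : B := CFC.sqrt h with ht
  have htt : t * t = h := CFC.sqrt_mul_sqrt_self h hh0
  have ht0 : 0 ≤ t := CFC.sqrt_nonneg h
  have hts : star t = t := (IsSelfAdjoint.of_nonneg ht0).star_eq
  have hut : IsUnit t := (CFC.isUnit_sqrt_iff h hh0).2 hunit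
  have hcom : Commute h p := by
    change (a + (1 - p)) * p = p * (a + (1 - p))
    rw [add_mul, mul_add, hap, hpa, sub_mul, mul_sub, one_mul, mul_one]
  have hct : Commute t p := by
    rw [ht, CFC.sqrt_eq_cfc]
    exact hcom.cfc_nnreal _
  have hhp : h * p = a := by
    rw [hh, add_mul, hap, sub_mul, one_mul, hp]
    simp
  obtain ⟨v, hv⟩ := hut
  have hvi : (v : B) * ((v⁻¹ : Bˣ) : B) = 1 := Units.mul_inv v
  have hiv : ((v⁻¹ : Bˣ) : B) * (v : B) = 1 := Units.inv_mul v
  set u : B := ((v⁻¹ : Bˣ) : B) with hu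
  rw [hv] at hvi hiv
  have hsu : star u = u := by
    have h1 : star u * t = 1 := by
      have h2 := congrArg star hvi
      rw [star_mul, hts, star_one] at h2
      exact h2
    calc star u = star u * (t * u) := by rw [hvi, mul_one]
      _ = (star u * t) * u := by rw [mul_assoc]
      _ = u := by rw [h1, one_mul]
  have hup : u * p = p * u := by
    calc u * p = u * p * (t * u) := by rw [hvi, mul_one]
      _ = u * (p * t) * u := by simp only [mul_assoc]
      _ = u * (t * p) * u := by rw [← hct.eq]
      _ = (u * t) * p * u := by simp only [mul_assoc]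
      _ = p * u := by rw [hiv, one_mul]
  refine ⟨u, ?_, hup, t, hiv, hvi⟩
  rw [star_mul, hsu]
  calc u * star z * (z * u) = u * a * u := by rw [ha]; simp only [mul_assoc]
    _ = u * (t * t * p) * u := by rw [htt, hhp]
    _ = (u * t) * (t * p) * u := by simp only [mul_assoc]
    _ = (t * p) * u := by rw [hiv, one_mul]
    _ = (p * t) * u := by rw [hct.eq]
    _ = p := by rw [mul_assoc, hvi, mul_one]

end Pool.H71W
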