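import Pool.Agent.Lib.H71W.C2A

/-!
# Project H71W, C2B (S/M): algebraic equivalence of projections
-/

namespace Pool.H71W

/-- **C2b (S/M).** Proof. Replace `x` by `p x q`, `y` by `q y p`. `v = y u` (`c2_sub`), `q v = v`; `E = v v*` is a projection, `q E = E`.
`E y = v v* v u' = v u' = y` (`v = y p u`, `v v* v = v p = v`), so `E q = E y x = y x = q`, `q = q* = q E = E`. -/
theorem c2_ae {B : Type} [CStarAlgebra B] (p q x y : B) (hp : p * p = p) (hps : star p = p) (hq : q * q = q)
    (hqs : star q = q) (hxy : x * y = p) (hyx : y * x = q) : ∃ v : B, star v * v = p ∧ v * star v = q := by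
  obtain ⟨x1, hx1⟩ : ∃ x1, x1 = p * x * q := ⟨_, rfl⟩
  obtain ⟨y1, hy1⟩ : ∃ y1, y1 = q * y * p := ⟨_, rfl⟩
  have h1 : x1 * y1 = p := by
    rw [hx1, hy1]
    calc p * x * q * (q * y * p) = p * (x * ((q * q) * y)) * p := by simp only [mul_assoc]
      _ = p * (x * ((y * x) * y)) * p := by rw [hq, hyx]
      _ = p * ((x * y) * (x * y)) * p := by simp only [mul_assoc]
      _ = p := by rw [hxy, hp, hp, hp]
  have h2 : y1 * x1 = q := by
    rw [hx1, hy1]
    calc q * y * p * (p * x * q) = q * (y * ((p * p) * x)) * q := by simp only [mul_assoc]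
      _ = q * (y * ((x * y) * x)) * q := by rw [hp, hxy]
      _ = q * ((y * x) * (y * x)) * q := by simp only [mul_assoc]
      _ = q := by rw [hyx, hq, hq, hq]
  have h3 : y1 * p = y1 := by rw [hy1, mul_assoc, hp]
  have h4 : q * y1 = y1 := by rw [hy1, ← mul_assoc, ← mul_assoc, hq]
  obtain ⟨u, hu1, hu2, u', hu3, -⟩ := c2_sub p x1 y1 hp hps h1
  rw [h3] at hu1
  obtain ⟨v, hv⟩ : ∃ v, v = y1 * u := ⟨_, rfl⟩
  rw [← hv] at hu1
  have hvp : v * p = v := by rw [hv, mul_assoc, hu2, ← mul_assoc, h3]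
  have hqv : q * v = v := by rw [hv, ← mul_assoc, h4]
  have hyv : v * u' = y1 := by rw [hv, mul_assoc, hu3, mul_one]
  have h5 : v * star v * y1 = y1 := by
    rw [← hyv]
    calc v * star v * (v * u') = v * (star v * v) * u' := by simp only [mul_assoc]
      _ = v * u' := by rw [hu1, hvp]
  have h6 : v * star v * q = q := by
    rw [← h2, ← mul_assoc, h5]
  have h7 : q * (v * star v) = q := by
    have h8 := congrArg star h6
    rw [star_mul, star_mul, star_star, hqs] at h8
    exact h8
  refine ⟨v, hu1, ?_⟩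
  rw [← mul_assoc, hqv] at h7
  exact h7

end Pool.H71W
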