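import Pool.Agent.Lib.H71W.Defs

/-!
# Project H71W, C2C (M): range projection of an idempotent (Kaplansky)
-/

namespace Pool.H71W

theorem c2c_unit {B : Type} [CStarAlgebra B] (z : B) : IsUnit (1 + z * star z) := by
  have h1 : ∀ x ∈ spectrum ℝ (star (star z) * star z), 0 ≤ x := spectrum_star_mul_self_nonneg
  have h2 : (-1 : ℝ) ∉ spectrum ℝ (star (star z) * star z) := fun h => by
    have := h1 _ h
    linarith
  rw [spectrum.notMem_iff, star_star, map_neg, map_one] at h2
  have h3 : 1 + z * star z = -(-1 - z * star z) := by abel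
  rw [h3]
  exact h2.neg

/-- **C2c (M): range projection of an idempotent** (Kaplansky). Proof. `h = 1 + (g - g*)(g* - g)` is invertible (`1 +` positive), self-adjoint,
commutes with `g` and `g*`: `h g = g g* g = g h`. `P = g g* h⁻¹`. `P g = g g* g h⁻¹ = g`, `g P = P`, `P` self-adjoint (`h` commutes with
`g g*`), `P P = g P P`.. `= g g* h⁻¹ g g* h⁻¹ = g g* g g* h⁻² = g g* h⁻¹`. -/
theorem c2_range {B : Type} [CStarAlgebra B] (g : B) (hg : g * g = g) :
    ∃ P : B, P * P = P ∧ star P = P ∧ P * g = g ∧ g * P = P := by
  obtain ⟨a, ha⟩ : ∃ a : B, a = star g := ⟨_, rfl⟩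
  have haa : a * a = a := by rw [ha, ← star_mul, hg]
  have hsa : star a = g := by rw [ha, star_star]
  obtain ⟨u, hu⟩ := c2c_unit (g - a)
  have hsz : star (g - a) = a - g := by rw [star_sub, hsa, ← ha]
  rw [hsz] at hu
  obtain ⟨h, hh⟩ : ∃ h : B, h = 1 + g * a - g - a + a * g := ⟨_, rfl⟩
  have huh : (u : B) = h := by
    rw [hu, hh]
    calc 1 + (g - a) * (a - g) = 1 + g * a - g * g - a * a + a * g := by noncomm_ring
      _ = 1 + g * a - g - a + a * g := by rw [hg, haa]
  have h1 : h * g = g * a * g := by
    rw [hh]
    calc (1 + g * a - g - a + a * g) * g = g + g * a * g - g * g - a * g + a * (g * g) := by noncomm_ring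
      _ = g * a * g := by rw [hg]; noncomm_ring
  have h2 : g * h = g * a * g := by
    rw [hh]
    calc g * (1 + g * a - g - a + a * g) = g + (g * g) * a - g * g - g * a + g * a * g := by noncomm_ring
      _ = g * a * g := by rw [hg]; noncomm_ring
  have h3 : h * a = a * g * a := by
    rw [hh]
    calc (1 + g * a - g - a + a * g) * a = a + g * (a * a) - g * a - a * a + a * g * a := by noncomm_ring
      _ = a * g * a := by rw [haa]; noncomm_ring
  have h4 : a * h = a * g * a := by
    rw [hh]
    calc a * (1 + g * a - g - a + a * g) = a + a * g * a - a * g - a * a + (a * a) * g := by noncomm_ring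
      _ = a * g * a := by rw [haa]; noncomm_ring
  have hsh : star h = h := by
    rw [hh]
    simp only [star_add, star_sub, star_mul, star_one, hsa, ← ha]
    abel
  obtain ⟨v, hv⟩ : ∃ v : B, v = ↑u⁻¹ := ⟨_, rfl⟩
  have hvh : v * h = 1 := by rw [hv, ← huh]; exact u.inv_mul
  have hhv : h * v = 1 := by rw [hv, ← huh]; exact u.mul_inv
  have hsv : star v = v := by
    have h5 : star v * h = 1 := by
      have := congrArg star hhv
      rw [star_mul, hsh, star_one] at this
      exact this
    calc star v = star v * (h * v) := by rw [hhv, mul_one]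
      _ = (star v * h) * v := by rw [mul_assoc]
      _ = v := by rw [h5, one_mul]
  have hvg : v * g = g * v := by
    calc v * g = v * g * (h * v) := by rw [hhv, mul_one]
      _ = v * (g * h) * v := by noncomm_ring
      _ = v * (h * g) * v := by rw [h2, h1]
      _ = (v * h) * g * v := by noncomm_ring
      _ = g * v := by rw [hvh, one_mul]
  have hva : v * a = a * v := by
    calc v * a = v * a * (h * v) := by rw [hhv, mul_one]
      _ = v * (a * h) * v := by noncomm_ring
      _ = v * (h * a) * v := by rw [h4, h3]
      _ = (v * h) * a * v := by noncomm_ring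
      _ = a * v := by rw [hvh, one_mul]
  have hPg : g * a * v * g = g := by
    calc g * a * v * g = g * a * (v * g) := by noncomm_ring
      _ = (g * a * g) * v := by rw [hvg]; noncomm_ring
      _ = g * (h * v) := by rw [← h2]; noncomm_ring
      _ = g := by rw [hhv, mul_one]
  refine ⟨g * a * v, ?_, ?_, hPg, ?_⟩
  · calc g * a * v * (g * a * v) = (g * a * v * g) * a * v := by noncomm_ring
      _ = g * a * v := by rw [hPg]
  · rw [star_mul, star_mul, hsv, hsa, ← ha, ← mul_assoc, hvg, mul_assoc, hva, mul_assoc]
  · calc g * (g * a * v) = (g * g) * a * v := by noncomm_ring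
      _ = g * a * v := by rw [hg]

end Pool.H71W
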