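import Pool.Agent.Lib.H71W.Defs

/-!
# Project H71W, V1 (M): Murray-von Neumann equivalence of projections in matrix algebras

Only algebra of matrices over a (non-unital) star ring. Rectangular matrices: `Matrix.mul_assoc`, `Matrix.conjTranspose_mul`,
`Matrix.conjTranspose_conjTranspose`, `Matrix.fromBlocks_multiply`, `Matrix.fromBlocks_conjTranspose`.
-/

open scoped Matrix

namespace Pool.H71W

section

variable {R : Type} [NonUnitalRing R] [StarRing R] {ι κ μ : Type} [Fintype ι] [Fintype κ] [Fintype μ]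

/-- **A nice partial isometry.** Proof. If `v* v = p`, `v v* = q` take `v p`: `(v p)* (v p) = p v* v p = p`, `(v p)(v p)* = v p v* = v v* v v* = q`,
`q (v p) = v v* v p = v p`. -/
theorem v1_nice {p : Matrix ι ι R} {q : Matrix κ κ R} (hp : IsPr p) (hq : IsPr q) (h : Equi p q) :
    ∃ v : Matrix κ ι R, vᴴ * v = p ∧ v * vᴴ = q ∧ v * p = v ∧ q * v = v := by
  obtain ⟨v, h1, h2⟩ := h
  have hc : (v * p)ᴴ = p * vᴴ := by rw [Matrix.conjTranspose_mul, hp.2]
  refine ⟨v * p, ?_, ?_, ?_, ?_⟩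
  · rw [hc]
    calc p * vᴴ * (v * p) = p * ((vᴴ * v) * p) := by simp only [Matrix.mul_assoc]
      _ = p := by rw [h1, hp.1, hp.1]
  · rw [hc]
    calc v * p * (p * vᴴ) = v * ((p * p) * vᴴ) := by simp only [Matrix.mul_assoc]
      _ = v * ((vᴴ * v) * vᴴ) := by rw [hp.1, h1]
      _ = (v * vᴴ) * (v * vᴴ) := by simp only [Matrix.mul_assoc]
      _ = q := by rw [h2, hq.1]
  · rw [Matrix.mul_assoc, hp.1]
  · calc q * (v * p) = (v * vᴴ) * (v * p) := by rw [h2]
      _ = v * ((vᴴ * v) * p) := by simp only [Matrix.mul_assoc]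
      _ = v * p := by rw [h1, hp.1]

theorem Equi.refl {p : Matrix ι ι R} (hp : IsPr p) : Equi p p := by
  exact ⟨p, by rw [hp.2, hp.1], by rw [hp.2, hp.1]⟩

theorem Equi.symm {p : Matrix ι ι R} {q : Matrix κ κ R} (h : Equi p q) : Equi q p := by
  obtain ⟨v, h1, h2⟩ := h
  exact ⟨vᴴ, by rw [Matrix.conjTranspose_conjTranspose, h2], by rw [Matrix.conjTranspose_conjTranspose, h1]⟩

theorem Equi.trans {p : Matrix ι ι R} {q : Matrix κ κ R} {r : Matrix μ μ R} (hp : IsPr p) (hq : IsPr q) (hr : IsPr r)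
    (h : Equi p q) (h' : Equi q r) : Equi p r := by
  obtain ⟨v, a1, a2, a3, a4⟩ := v1_nice hp hq h
  obtain ⟨w, b1, b2, b3, b4⟩ := v1_nice hq hr h'
  refine ⟨w * v, ?_, ?_⟩
  · rw [Matrix.conjTranspose_mul]
    calc vᴴ * wᴴ * (w * v) = vᴴ * ((wᴴ * w) * v) := by simp only [Matrix.mul_assoc]
      _ = p := by rw [b1, a4, a1]
  · rw [Matrix.conjTranspose_mul]
    calc w * v * (vᴴ * wᴴ) = w * ((v * vᴴ) * wᴴ) := by simp only [Matrix.mul_assoc]
      _ = (w * q) * wᴴ := by rw [a2, Matrix.mul_assoc]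
      _ = r := by rw [b3, b2]

/-- Reindexing. -/
theorem Equi.reindex {p : Matrix ι ι R} (hp : IsPr p) (e : ι ≃ κ) : Equi p (p.submatrix e.symm e.symm) := by
  have hc : (p.submatrix e.symm id)ᴴ = p.submatrix id e.symm := by
    rw [Matrix.conjTranspose_submatrix, hp.2]
  refine ⟨p.submatrix e.symm id, ?_, ?_⟩
  · rw [hc, Matrix.submatrix_mul_equiv p p id e.symm id, hp.1, Matrix.submatrix_id_id]
  · rw [hc, ← Matrix.submatrix_mul p p e.symm id e.symm Function.bijective_id, hp.1]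

theorem IsPr.zero : IsPr (0 : Matrix ι ι R) := by
  exact ⟨Matrix.zero_mul _, Matrix.conjTranspose_zero⟩

theorem IsPr.blocks {p : Matrix ι ι R} {q : Matrix κ κ R} (hp : IsPr p) (hq : IsPr q) :
    IsPr (Matrix.fromBlocks p 0 0 q) := by
  refine ⟨?_, ?_⟩
  · rw [Matrix.fromBlocks_multiply, hp.1, hq.1]
    simp only [Matrix.mul_zero, Matrix.zero_mul, add_zero, zero_add]
  · rw [Matrix.fromBlocks_conjTranspose, hp.2, hq.2, Matrix.conjTranspose_zero, Matrix.conjTranspose_zero]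

/-- The row of two matrices. -/
theorem v1_row (a : Matrix μ ι R) (b : Matrix μ κ R) :
    (Matrix.fromCols a b)ᴴ * Matrix.fromCols a b = Matrix.fromBlocks (aᴴ * a) (aᴴ * b) (bᴴ * a) (bᴴ * b) ∧
      Matrix.fromCols a b * (Matrix.fromCols a b)ᴴ = a * aᴴ + b * bᴴ := by
  constructor
  · ext i j
    rcases i with i | i <;> rcases j with j | j <;>
      simp [Matrix.mul_apply, Matrix.fromCols, Matrix.fromBlocks]
  · ext i j
    simp [Matrix.mul_apply, Matrix.fromCols, Fintype.sum_sum_type]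

theorem Equi.blocks {ι' κ' : Type} [Fintype ι'] [Fintype κ'] {p : Matrix ι ι R} {q : Matrix κ κ R} {p' : Matrix ι' ι' R}
    {q' : Matrix κ' κ' R} (h : Equi p q) (h' : Equi p' q') :
    Equi (Matrix.fromBlocks p 0 0 p') (Matrix.fromBlocks q 0 0 q') := by
  obtain ⟨v, h1, h2⟩ := h
  obtain ⟨w, k1, k2⟩ := h'
  refine ⟨Matrix.fromBlocks v 0 0 w, ?_, ?_⟩
  · rw [Matrix.fromBlocks_conjTranspose, Matrix.fromBlocks_multiply, h1, k1]
    simp only [Matrix.conjTranspose_zero, Matrix.mul_zero, Matrix.zero_mul, add_zero, zero_add]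
  · rw [Matrix.fromBlocks_conjTranspose, Matrix.fromBlocks_multiply, h2, k2]
    simp only [Matrix.conjTranspose_zero, Matrix.mul_zero, Matrix.zero_mul, add_zero, zero_add]

/-- `[a, b]* [a, b] = diag(p, q)` for the row `[a, b]`, `a* a = p`, `b* b = q`, `a* b = 0`; `[a, b][a, b]* = a a* + b b*`. Here with `a = p`,
`b = q` orthogonal projections: `diag(p, q) ~ p + q`. -/
theorem Equi.orth {p q : Matrix ι ι R} (hp : IsPr p) (hq : IsPr q) (h : p * q = 0) :
    Equi (Matrix.fromBlocks p 0 0 q) (p + q) := by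
  have h' : q * p = 0 := by
    have h1 : (p * q)ᴴ = 0 := by rw [h, Matrix.conjTranspose_zero]
    rwa [Matrix.conjTranspose_mul, hp.2, hq.2] at h1
  have h2 := v1_row p q
  rw [hp.2, hq.2, hp.1, hq.1, h, h'] at h2
  exact ⟨_, h2.1, h2.2⟩

theorem IsPr.add {p q : Matrix ι ι R} (hp : IsPr p) (hq : IsPr q) (h : p * q = 0) : IsPr (p + q) := by
  have h' : q * p = 0 := by
    have h1 : (p * q)ᴴ = 0 := by rw [h, Matrix.conjTranspose_zero]
    rwa [Matrix.conjTranspose_mul, hp.2, hq.2] at h1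
  refine ⟨?_, ?_⟩
  · rw [Matrix.add_mul, Matrix.mul_add, Matrix.mul_add, hp.1, hq.1, h, h', add_zero, zero_add]
  · rw [Matrix.conjTranspose_add, hp.2, hq.2]

theorem Equi.zero {p : Matrix ι ι R} (hp : IsPr p) : Equi (Matrix.fromBlocks p 0 0 (0 : Matrix κ κ R)) p := by
  have h2 := v1_row p (0 : Matrix ι κ R)
  rw [hp.2, hp.1, Matrix.mul_zero, Matrix.mul_zero, Matrix.conjTranspose_zero, Matrix.zero_mul, Matrix.mul_zero,
    add_zero] at h2
  exact ⟨_, h2.1, h2.2⟩

theorem Equi.comm {p : Matrix ι ι R} {q : Matrix κ κ R} (hp : IsPr p) (hq : IsPr q) :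
    Equi (Matrix.fromBlocks p 0 0 q) (Matrix.fromBlocks q 0 0 p) := by
  refine ⟨Matrix.fromBlocks 0 q p 0, ?_, ?_⟩
  · rw [Matrix.fromBlocks_conjTranspose, Matrix.fromBlocks_multiply, hp.2, hq.2, hp.1, hq.1]
    simp only [Matrix.conjTranspose_zero, Matrix.mul_zero, Matrix.zero_mul, add_zero, zero_add]
  · rw [Matrix.fromBlocks_conjTranspose, Matrix.fromBlocks_multiply, hp.2, hq.2, hp.1, hq.1]
    simp only [Matrix.conjTranspose_zero, Matrix.mul_zero, Matrix.zero_mul, add_zero, zero_add]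

theorem Equi.assoc {p : Matrix ι ι R} {q : Matrix κ κ R} {r : Matrix μ μ R} (hp : IsPr p) (hq : IsPr q) (hr : IsPr r) :
    Equi (Matrix.fromBlocks (Matrix.fromBlocks p 0 0 q) 0 0 r) (Matrix.fromBlocks p 0 0 (Matrix.fromBlocks q 0 0 r)) := by
  have h := Equi.reindex ((hp.blocks hq).blocks hr) (Equiv.sumAssoc ι κ μ)
  have e : (Matrix.fromBlocks (Matrix.fromBlocks p 0 0 q) 0 0 r).submatrix (Equiv.sumAssoc ι κ μ).symm
      (Equiv.sumAssoc ι κ μ).symm = Matrix.fromBlocks p 0 0 (Matrix.fromBlocks q 0 0 r) := by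
    ext i j
    rcases i with i | i | i <;> rcases j with j | j | j <;> rfl
  rwa [e] at h

end

end Pool.H71W
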