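import Pool.Agent.Lib.H71W.C2B
import Pool.Agent.Lib.H71W.C2C
import Pool.Agent.Lib.H71W.V1

/-!
# Project H71W, C3 (M): the statements of C2 for rectangular matrices over a unital C*-algebra

`CStarMatrix κ κ R` is a C*-algebra (`CStarMatrix.instCStarAlgebra`; it needs an order on `R`: `letI := CStarAlgebra.spectralOrder R`,
`haveI := CStarAlgebra.spectralOrderedRing R`), `CStarMatrix.ofMatrix` is the identity map. Rectangular matrices `x : ι × κ`, `y : κ × ι` become
the square ones `fromBlocks 0 x 0 0`, `fromBlocks 0 0 y 0` over `ι ⊕ κ`.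
-/

open scoped Matrix

namespace Pool.H71W

variable {R : Type} [CStarAlgebra R] {ι κ : Type} [Fintype ι] [Fintype κ]

/-- Square matrices. -/
theorem c3_sq {p q : Matrix ι ι R} (hp : IsPr p) (hq : IsPr q) (x y : Matrix ι ι R)
    (hxy : x * y = p) (hyx : y * x = q) : Equi p q := by
  classical
  let _ := CStarAlgebra.spectralOrder R
  have _ := CStarAlgebra.spectralOrderedRing R
  exact c2_ae (B := CStarMatrix ι ι R) p q x y hp.1 hp.2 hq.1 hq.2 hxy hyx

theorem c3_sqsub {p : Matrix ι ι R} (hp : IsPr p) (x y : Matrix ι ι R) (hxy : x * y = p) :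
    ∃ u : Matrix ι ι R, (y * p * u)ᴴ * (y * p * u) = p := by
  classical
  let _ := CStarAlgebra.spectralOrder R
  have _ := CStarAlgebra.spectralOrderedRing R
  obtain ⟨u, hu, -⟩ := c2_sub (B := CStarMatrix ι ι R) p x y hp.1 hp.2 hxy
  exact ⟨u, hu⟩

theorem c3_ae {p : Matrix ι ι R} {q : Matrix κ κ R} (hp : IsPr p) (hq : IsPr q) (x : Matrix ι κ R) (y : Matrix κ ι R)
    (hxy : x * y = p) (hyx : y * x = q) : Equi p q := by
  have hP : IsPr (Matrix.fromBlocks p 0 0 (0 : Matrix κ κ R)) := hp.blocks IsPr.zero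
  have hQ : IsPr (Matrix.fromBlocks (0 : Matrix ι ι R) 0 0 q) := IsPr.zero.blocks hq
  have hQ' : IsPr (Matrix.fromBlocks q 0 0 (0 : Matrix ι ι R)) := hq.blocks IsPr.zero
  have h1 : Equi (Matrix.fromBlocks p 0 0 (0 : Matrix κ κ R)) (Matrix.fromBlocks (0 : Matrix ι ι R) 0 0 q) := by
    refine c3_sq hP hQ (Matrix.fromBlocks 0 x 0 0) (Matrix.fromBlocks 0 0 y 0) ?_ ?_
    · rw [Matrix.fromBlocks_multiply]
      simp only [Matrix.mul_zero, Matrix.zero_mul, add_zero, zero_add, hxy]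
    · rw [Matrix.fromBlocks_multiply]
      simp only [Matrix.mul_zero, Matrix.zero_mul, add_zero, zero_add, hyx]
  have h2 : Equi p (Matrix.fromBlocks p 0 0 (0 : Matrix κ κ R)) := (Equi.zero hp).symm
  have h3 : Equi (Matrix.fromBlocks (0 : Matrix ι ι R) 0 0 q) (Matrix.fromBlocks q 0 0 (0 : Matrix ι ι R)) :=
    Equi.comm IsPr.zero hq
  have h4 : Equi (Matrix.fromBlocks q 0 0 (0 : Matrix ι ι R)) q := Equi.zero hq
  exact ((h2.trans hp hP hQ h1).trans hp hQ hQ' h3).trans hp hQ' hq h4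

/-- `c2_sub`: `v = y p u`, `q v = v`. -/
theorem c3_sub {p : Matrix ι ι R} {q : Matrix κ κ R} (hp : IsPr p) (x : Matrix ι κ R) (y : Matrix κ ι R)
    (hxy : x * y = p) (hy : q * y = y) : SubEqui p q := by
  have hP : IsPr (Matrix.fromBlocks p 0 0 (0 : Matrix κ κ R)) := hp.blocks IsPr.zero
  obtain ⟨u, hu⟩ := c3_sqsub hP (Matrix.fromBlocks 0 x 0 0) (Matrix.fromBlocks 0 0 y 0) (by
    rw [Matrix.fromBlocks_multiply]
    simp only [Matrix.mul_zero, Matrix.zero_mul, add_zero, zero_add, hxy])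
  refine ⟨y * p * u.toBlocks₁₁, ?_, ?_⟩
  · rw [← Matrix.fromBlocks_toBlocks u, Matrix.fromBlocks_multiply, Matrix.fromBlocks_multiply,
      Matrix.fromBlocks_conjTranspose, Matrix.fromBlocks_multiply] at hu
    simp only [Matrix.mul_zero, Matrix.zero_mul, add_zero, zero_add, Matrix.conjTranspose_zero] at hu
    exact (Matrix.fromBlocks_inj.1 hu).1
  · rw [← Matrix.mul_assoc, ← Matrix.mul_assoc, hy]

theorem c3_range (g : Matrix ι ι R) (hg : g * g = g) : ∃ P : Matrix ι ι R, IsPr P ∧ P * g = g ∧ g * P = P := by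
  classical
  let _ := CStarAlgebra.spectralOrder R
  have _ := CStarAlgebra.spectralOrderedRing R
  obtain ⟨P, h1, h2, h3, h4⟩ := c2_range (B := CStarMatrix ι ι R) g hg
  exact ⟨P, ⟨h1, h2⟩, h3, h4⟩

end Pool.H71W
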