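import Pool.Agent.Lib.H71W.V1M

/-!
# Project H71W, V2 (M): the order of `V R`
-/

open scoped Matrix

namespace Pool.H71W

variable {R : Type} [NonUnitalRing R] [StarRing R]

/-- `v v*` is a projection if `v* v` is one and `v = v v* v`. -/
theorem v2_pr {ι κ : Type} [Fintype ι] [Fintype κ] {p : Matrix ι ι R} (hp : IsPr p) {v : Matrix κ ι R} (h : vᴴ * v = p)
    (h' : v * p = v) : IsPr (v * vᴴ) := by
  refine ⟨?_, ?_⟩
  · calc v * vᴴ * (v * vᴴ) = v * (vᴴ * v) * vᴴ := by simp only [Matrix.mul_assoc]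
      _ = v * vᴴ := by rw [h, h']
  · rw [Matrix.conjTranspose_mul, Matrix.conjTranspose_conjTranspose]

/-- **Order.** Proof. If `P ⊕ Z ~ Q` through a nice `w : Q.ι × (P.ι ⊕ Z.ι)` (`v1_nice`) put `v = w.submatrix id Sum.inl`, the first block
column (`w* w = diag(P, Z)` gives `v* v = P`; `q w = w` gives `q v = v`). Conversely if `v* v = P`, `q v = v`, replace `v` by `v P`
(`q v P = v P`); `z = q - v v*` is a projection, `v v* z = 0`, so `Q = v v* + z ~ P ⊕ z` (`Equi.orth`, `Equi.trans`; `P ~ v v*`). -/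
theorem cl_le {P Q : Proj R} : Le (cl P) (cl Q) ↔ SubEqui P.p Q.p := by
  constructor
  · rintro ⟨z, hz⟩
    obtain ⟨Z, rfl⟩ := cl_surj z
    rw [← cl_add, cl_eq] at hz
    obtain ⟨w, h1, h2, h3, h4⟩ := v1_nice (P.pr.blocks Z.pr) Q.pr hz
    refine ⟨w.submatrix id Sum.inl, ?_, ?_⟩
    · rw [Matrix.conjTranspose_submatrix, ← Matrix.submatrix_mul wᴴ w Sum.inl id Sum.inl Function.bijective_id, h1]
      ext i j
      rfl
    · have h5 : Q.p * w.submatrix id Sum.inl = (Q.p * w).submatrix id (Sum.inl : P.ι → P.ι ⊕ Z.ι) := by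
        rw [Matrix.submatrix_mul Q.p w id id Sum.inl Function.bijective_id, Matrix.submatrix_id_id]
      rw [h5, h4]
  · rintro ⟨v, h1, h2⟩
    have hc : (v * P.p)ᴴ = P.p * vᴴ := by rw [Matrix.conjTranspose_mul, P.pr.2]
    obtain ⟨u, hu⟩ : ∃ u, u = v * P.p := ⟨_, rfl⟩
    have u1 : uᴴ * u = P.p := by
      rw [hu, hc]
      calc P.p * vᴴ * (v * P.p) = P.p * ((vᴴ * v) * P.p) := by simp only [Matrix.mul_assoc]
        _ = P.p := by rw [h1, P.pr.1, P.pr.1]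
    have u2 : u * P.p = u := by rw [hu, Matrix.mul_assoc, P.pr.1]
    have u3 : Q.p * u = u := by rw [hu, ← Matrix.mul_assoc, h2]
    have he : IsPr (u * uᴴ) := v2_pr P.pr u1 u2
    have e1 : Q.p * (u * uᴴ) = u * uᴴ := by rw [← Matrix.mul_assoc, u3]
    have e2 : (u * uᴴ) * Q.p = u * uᴴ := by
      have h3 := congrArg Matrix.conjTranspose e1
      rwa [Matrix.conjTranspose_mul, he.2, Q.pr.2] at h3
    have hz : IsPr (Q.p - u * uᴴ) := by
      refine ⟨?_, ?_⟩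
      · rw [Matrix.sub_mul, Matrix.mul_sub, Matrix.mul_sub, Q.pr.1, e1, e2, he.1, sub_self, sub_zero]
      · rw [Matrix.conjTranspose_sub, Q.pr.2, he.2]
    have ho : (u * uᴴ) * (Q.p - u * uᴴ) = 0 := by rw [Matrix.mul_sub, e2, he.1, sub_self]
    have hs : u * uᴴ + (Q.p - u * uᴴ) = Q.p := by abel
    have k1 : Equi (Matrix.fromBlocks P.p 0 0 (Q.p - u * uᴴ)) (Matrix.fromBlocks (u * uᴴ) 0 0 (Q.p - u * uᴴ)) :=
      Equi.blocks ⟨u, u1, rfl⟩ (Equi.refl hz)
    have k2 := Equi.orth he hz ho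
    rw [hs] at k2
    refine ⟨cl ⟨Q.ι, Q.p - u * uᴴ, hz⟩, ?_⟩
    rw [← cl_add, cl_eq]
    exact k1.trans (P.pr.blocks hz) (he.blocks hz) Q.pr k2

end Pool.H71W
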