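import Pool.Agent.Lib.H71W.C1D
import Pool.Agent.Lib.H71W.C3
import Pool.Agent.Lib.H71W.V2

/-!
# Project H71W, C4A (M): exchange inside a matrix algebra
-/

open scoped Matrix

namespace Pool.H71W

variable {R : Type} [CStarAlgebra R]

/-- Products of `1 × 1` matrices. -/
theorem c4A_mul (a b : R) : (Matrix.of fun _ _ => a : Matrix Unit Unit R) * (Matrix.of fun _ _ => b) =
    Matrix.of fun _ _ => a * b := by
  ext i j
  simp [Matrix.mul_apply]

/-- Every `1 × 1` matrix is given by its entry. -/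
theorem c4A_eta {S : Type} (x : Matrix Unit Unit S) : x = Matrix.of fun _ _ => x () () := by
  ext i j
  rfl

/-- `c1_corner` for `1 × 1` matrices. -/
theorem c4A_corner (hR : RRU R) {e x : Matrix Unit Unit R} (he : IsPr e) (hx : xᴴ = x) (h1 : e * x = x) (h2 : x * e = x) :
    ∃ e1 f1 r s : Matrix Unit Unit R, e1 + f1 = e ∧ e1 * e1 = e1 ∧ f1 * f1 = f1 ∧ e1 * f1 = 0 ∧ f1 * e1 = 0 ∧
      x * r = e1 ∧ (e - x) * s = f1 ∧ e * r = r ∧ r * e1 = r ∧ e * s = s ∧ s * f1 = s := by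
  have hm : ∀ a b : Matrix Unit Unit R, (a * b) () () = a () () * b () () := by
    intro a b
    simp [Matrix.mul_apply]
  have g1 : e () () * e () () = e () () := by rw [← hm, he.1]
  have g2 : IsSelfAdjoint (x () ()) := by
    have h3 : (xᴴ) () () = x () () := by rw [hx]
    rw [Matrix.conjTranspose_apply] at h3
    exact h3
  have g3 : e () () * x () () = x () () := by rw [← hm, h1]
  have g4 : x () () * e () () = x () () := by rw [← hm, h2]
  obtain ⟨e1, f1, r, s, a1, a2, a3, a4, a5, a6, a7, a8, a9, a10, a11⟩ := c1_corner hR (e () ()) (x () ()) g1 g2 g3 g4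
  have hx' : x = Matrix.of fun _ _ => x () () := c4A_eta x
  have he' : e = Matrix.of fun _ _ => e () () := c4A_eta e
  have hex : e - x = Matrix.of fun _ _ => e () () - x () () := c4A_eta (e - x)
  refine ⟨Matrix.of fun _ _ => e1, Matrix.of fun _ _ => f1, Matrix.of fun _ _ => r, Matrix.of fun _ _ => s,
    ?_, ?_, ?_, ?_, ?_, ?_, ?_, ?_, ?_, ?_, ?_⟩
  · rw [he', ← a1]
    rfl
  · rw [c4A_mul, a2]
  · rw [c4A_mul, a3]
  · rw [c4A_mul, a4]
    rfl
  · rw [c4A_mul, a5]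
    rfl
  · rw [hx', c4A_mul, a6]
  · rw [hex, c4A_mul, a7]
  · rw [he', c4A_mul, a8]
  · rw [c4A_mul, a9]
  · rw [he', c4A_mul, a10]
  · rw [c4A_mul, a11]

/-- **C4a (M): exchange inside a matrix algebra.** `p' ~ e` for a `1 × 1` projection `e`, `p' ≤ q1 + q2` (orthogonal projections in `M_κ(R)`). There
are idempotents `G1`, `G2` with `q1 G1 = G1`, `q2 G2 = G2`, orthogonal (`G1 G2 = G2 G1 = 0`), and for `G = G1 + G2`: `p' G = p'`, `G p' = G`.
Proof. `w : Unit × κ` with `w* w = p'`, `w w* = e` (nice: `w p' = w`, `e w = w`). `x = w q1 w*` is self-adjoint, `e x = x = x e`,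
`e - x = w q2 w*`. `c1_corner` (`1 × 1` matrices are elements of `R`) gives `e1 + f1 = e`, `x r = e1`, `(e - x) s = f1`, ... Put
`G1 = q1 w* r w`, `G2 = q2 w* s w`. With `E = w* e1 w`, `F = w* f1 w` (idempotents, `E + F = p'`, `E F = F E = 0`): `w G1 = w q1 w* r w = x r w = e1 w`,
`w G2 = f1 w`, so `p' G1 = w* w G1 = E`, `p' G2 = F`, `G1 E = G1` (`r e1 = r`), `G2 F = G2`, `G1 F = 0 = G2 E`, `G1 p' = G1`;
`G1 G1 = G1 p' G1 = G1 E = G1`, `G1 G2 = G1 p' G2 = G1 F = 0`. -/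
theorem c4_exch (hR : RRU R) {κ : Type} [Fintype κ] {e : Matrix Unit Unit R} (he : IsPr e) {p' q1 q2 : Matrix κ κ R}
    (hp' : IsPr p') (h1 : IsPr q1) (h2 : IsPr q2) (h12 : q1 * q2 = 0) (hle : (q1 + q2) * p' = p') (hep : Equi p' e) :
    ∃ G1 G2 : Matrix κ κ R, G1 * G1 = G1 ∧ G2 * G2 = G2 ∧ G1 * G2 = 0 ∧ G2 * G1 = 0 ∧ q1 * G1 = G1 ∧ q2 * G2 = G2 ∧
      p' * (G1 + G2) = p' ∧ (G1 + G2) * p' = G1 + G2 := by
  obtain ⟨w, w1, w2, w3, w4⟩ := v1_nice hp' he hep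
  have w5 : p' * wᴴ = wᴴ := by
    have h := congrArg Matrix.conjTranspose w3
    rwa [Matrix.conjTranspose_mul, hp'.2] at h
  have w6 : wᴴ * e = wᴴ := by
    have h := congrArg Matrix.conjTranspose w4
    rwa [Matrix.conjTranspose_mul, he.2] at h
  have hq : (q1 + q2) * wᴴ = wᴴ := by
    rw [← w5, ← Matrix.mul_assoc, hle]
  obtain ⟨x, hx⟩ : ∃ x : Matrix Unit Unit R, x = w * q1 * wᴴ := ⟨_, rfl⟩
  have x1 : xᴴ = x := by
    rw [hx, Matrix.conjTranspose_mul, Matrix.conjTranspose_mul, Matrix.conjTranspose_conjTranspose, h1.2,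
      Matrix.mul_assoc]
  have x2 : e * x = x := by
    rw [hx, ← Matrix.mul_assoc, ← Matrix.mul_assoc, w4]
  have x3 : x * e = x := by
    rw [hx, Matrix.mul_assoc, w6]
  have x4 : e - x = w * q2 * wᴴ := by
    have h : x + w * q2 * wᴴ = e := by
      rw [hx, ← Matrix.add_mul, ← Matrix.mul_add, Matrix.mul_assoc, hq, w2]
    rw [← h, add_sub_cancel_left]
  obtain ⟨e1, f1, r, s, a1, a2, a3, a4, a5, a6, a7, a8, a9, a10, a11⟩ := c4A_corner hR he x1 x2 x3
  obtain ⟨G1, hG1⟩ : ∃ G : Matrix κ κ R, G = q1 * wᴴ * r * w := ⟨_, rfl⟩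
  obtain ⟨G2, hG2⟩ : ∃ G : Matrix κ κ R, G = q2 * wᴴ * s * w := ⟨_, rfl⟩
  have b1 : w * G1 = e1 * w := by
    rw [hG1, ← a6, hx]
    simp only [Matrix.mul_assoc]
  have b2 : w * G2 = f1 * w := by
    rw [hG2, ← a7, x4]
    simp only [Matrix.mul_assoc]
  have g1m : ∀ Y : Matrix κ κ R, G1 * Y = q1 * wᴴ * r * (w * Y) := by
    intro Y
    rw [hG1]
    simp only [Matrix.mul_assoc]
  have g2m : ∀ Y : Matrix κ κ R, G2 * Y = q2 * wᴴ * s * (w * Y) := by
    intro Y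
    rw [hG2]
    simp only [Matrix.mul_assoc]
  have r1 : r * f1 = 0 := by rw [← a9, Matrix.mul_assoc, a4, Matrix.mul_zero]
  have s1 : s * e1 = 0 := by rw [← a11, Matrix.mul_assoc, a5, Matrix.mul_zero]
  refine ⟨G1, G2, ?_, ?_, ?_, ?_, ?_, ?_, ?_, ?_⟩
  · calc G1 * G1 = q1 * wᴴ * r * (w * G1) := g1m G1
      _ = q1 * wᴴ * (r * e1) * w := by
          rw [b1]
          simp only [Matrix.mul_assoc]
      _ = G1 := by rw [a9, hG1]
  · calc G2 * G2 = q2 * wᴴ * s * (w * G2) := g2m G2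
      _ = q2 * wᴴ * (s * f1) * w := by
          rw [b2]
          simp only [Matrix.mul_assoc]
      _ = G2 := by rw [a11, hG2]
  · calc G1 * G2 = q1 * wᴴ * r * (w * G2) := g1m G2
      _ = q1 * wᴴ * (r * f1) * w := by
          rw [b2]
          simp only [Matrix.mul_assoc]
      _ = 0 := by rw [r1, Matrix.mul_zero, Matrix.zero_mul]
  · calc G2 * G1 = q2 * wᴴ * s * (w * G1) := g2m G1
      _ = q2 * wᴴ * (s * e1) * w := by
          rw [b1]
          simp only [Matrix.mul_assoc]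
      _ = 0 := by rw [s1, Matrix.mul_zero, Matrix.zero_mul]
  · rw [hG1]
    calc q1 * (q1 * wᴴ * r * w) = (q1 * q1) * wᴴ * r * w := by simp only [Matrix.mul_assoc]
      _ = q1 * wᴴ * r * w := by rw [h1.1]
  · rw [hG2]
    calc q2 * (q2 * wᴴ * s * w) = (q2 * q2) * wᴴ * s * w := by simp only [Matrix.mul_assoc]
      _ = q2 * wᴴ * s * w := by rw [h2.1]
  · calc p' * (G1 + G2) = wᴴ * (w * G1 + w * G2) := by rw [← w1, Matrix.mul_assoc, Matrix.mul_add]
      _ = wᴴ * ((e1 + f1) * w) := by rw [b1, b2, Matrix.add_mul]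
      _ = p' := by rw [a1, w4, w1]
  · rw [Matrix.add_mul, hG1, hG2, Matrix.mul_assoc _ w p', Matrix.mul_assoc _ w p', w3]

end Pool.H71W
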