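import Pool.Agent.Lib.H71W.C3
import Pool.Agent.Lib.H71W.V2

/-!
# Project H71W, C4B (M): from idempotents to projections
-/

open scoped Matrix

namespace Pool.H71W

variable {R : Type} [CStarAlgebra R]

/-- **C4b (M): from idempotents to projections.** `E1 = G1 q1`, `E2 = G2 q2` are idempotents with `q1 E1 q1 = E1`; `P1`, `P2` their range projections
(`c3_range`; `q1 P1 = q1 E1 P1 = P1`, so `P1 q1 = P1` by `*`). With `P = P1 + P2`, `E = E1 + E2`, `G = G1 + G2`: `G E = E`, `E G = G`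
(`q1 G2 = q1 q2 G2 = 0`), `E P = P`, `P E = E` (`E1 P2 = G1 q1 q2 P2 = 0`), so `G P = P`, `P G = G`. Then `p' ~ P` by `c3_ae` with
`x = p' P`, `y = G` (`x y = p' P G = p' G = p'`, `y x = G p' P = G P = P`), and `Q - p' ~ Q - P` (`Q = q1 + q2`) by `c3_ae` with `x = Q - G`,
`y = (Q - P)(Q - p')`: `(Q - G)(Q - P) = Q - G`, `(Q - G)(Q - p') = Q - p'`, `(Q - p')(Q - G) = Q - G`, `(Q - P)(Q - G) = Q - P`
(`Q G = G`, `G Q = G` as `G = G p'`). -/
theorem c4_proj {κ : Type} [Fintype κ] {p' q1 q2 G1 G2 : Matrix κ κ R}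
    (hp' : IsPr p') (h1 : IsPr q1) (h2 : IsPr q2) (h12 : q1 * q2 = 0) (hle : (q1 + q2) * p' = p')
    (g1 : G1 * G1 = G1) (g2 : G2 * G2 = G2) (g12 : G1 * G2 = 0) (g21 : G2 * G1 = 0) (k1 : q1 * G1 = G1) (k2 : q2 * G2 = G2)
    (k3 : p' * (G1 + G2) = p') (k4 : (G1 + G2) * p' = G1 + G2) :
    ∃ P1 P2 : Matrix κ κ R, IsPr P1 ∧ IsPr P2 ∧ q1 * P1 = P1 ∧ q2 * P2 = P2 ∧ Equi p' (P1 + P2) ∧
      Equi (q1 + q2 - p') (q1 + q2 - (P1 + P2)) := by
  have star_eq : ∀ {a b : Matrix κ κ R}, IsPr a → IsPr b → a * b = b → b * a = b := by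
    intro a b ha hb h
    have h3 := congrArg Matrix.conjTranspose h
    rwa [Matrix.conjTranspose_mul, ha.2, hb.2] at h3
  have star_zero : ∀ {a b : Matrix κ κ R}, IsPr a → IsPr b → a * b = 0 → b * a = 0 := by
    intro a b ha hb h
    have h3 := congrArg Matrix.conjTranspose h
    rwa [Matrix.conjTranspose_mul, ha.2, hb.2, Matrix.conjTranspose_zero] at h3
  have sub_pr : ∀ {a b : Matrix κ κ R}, IsPr a → IsPr b → a * b = b → IsPr (a - b) := by
    intro a b ha hb h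
    refine ⟨?_, ?_⟩
    · rw [Matrix.sub_mul, Matrix.mul_sub, Matrix.mul_sub, ha.1, h, star_eq ha hb h, hb.1, sub_self, sub_zero]
    · rw [Matrix.conjTranspose_sub, ha.2, hb.2]
  have h21 : q2 * q1 = 0 := star_zero h1 h2 h12
  have e1 : (G1 * q1) * (G1 * q1) = G1 * q1 := by
    calc (G1 * q1) * (G1 * q1) = G1 * (q1 * G1) * q1 := by simp only [Matrix.mul_assoc]
      _ = G1 * q1 := by rw [k1, g1]
  have e2 : (G2 * q2) * (G2 * q2) = G2 * q2 := by
    calc (G2 * q2) * (G2 * q2) = G2 * (q2 * G2) * q2 := by simp only [Matrix.mul_assoc]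
      _ = G2 * q2 := by rw [k2, g2]
  obtain ⟨P1, hP1, a1, a2⟩ := c3_range (G1 * q1) e1
  obtain ⟨P2, hP2, b1, b2⟩ := c3_range (G2 * q2) e2
  have c1 : q1 * P1 = P1 := by
    calc q1 * P1 = q1 * (G1 * q1 * P1) := by rw [a2]
      _ = (q1 * G1) * q1 * P1 := by simp only [Matrix.mul_assoc]
      _ = P1 := by rw [k1, a2]
  have c2 : q2 * P2 = P2 := by
    calc q2 * P2 = q2 * (G2 * q2 * P2) := by rw [b2]
      _ = (q2 * G2) * q2 * P2 := by simp only [Matrix.mul_assoc]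
      _ = P2 := by rw [k2, b2]
  have c1' : P1 * q1 = P1 := star_eq h1 hP1 c1
  have c2' : P2 * q2 = P2 := star_eq h2 hP2 c2
  have d12 : P1 * P2 = 0 := by
    calc P1 * P2 = (P1 * q1) * (q2 * P2) := by rw [c1', c2]
      _ = P1 * (q1 * q2) * P2 := by simp only [Matrix.mul_assoc]
      _ = 0 := by rw [h12, Matrix.mul_zero, Matrix.zero_mul]
  have m12 : q1 * G2 = 0 := by rw [← k2, ← Matrix.mul_assoc, h12, Matrix.zero_mul]
  have m21 : q2 * G1 = 0 := by rw [← k1, ← Matrix.mul_assoc, h21, Matrix.zero_mul]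
  have n12 : q1 * P2 = 0 := by rw [← c2, ← Matrix.mul_assoc, h12, Matrix.zero_mul]
  have n21 : q2 * P1 = 0 := by rw [← c1, ← Matrix.mul_assoc, h21, Matrix.zero_mul]
  have hP : IsPr (P1 + P2) := hP1.add hP2 d12
  have hQ : IsPr (q1 + q2) := h1.add h2 h12
  have GP1 : (G1 + G2) * P1 = P1 := by
    calc (G1 + G2) * P1 = (G1 + G2) * (G1 * q1 * P1) := by rw [a2]
      _ = ((G1 + G2) * G1) * q1 * P1 := by simp only [Matrix.mul_assoc]
      _ = P1 := by rw [Matrix.add_mul, g1, g21, add_zero, a2]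
  have GP2 : (G1 + G2) * P2 = P2 := by
    calc (G1 + G2) * P2 = (G1 + G2) * (G2 * q2 * P2) := by rw [b2]
      _ = ((G1 + G2) * G2) * q2 * P2 := by simp only [Matrix.mul_assoc]
      _ = P2 := by rw [Matrix.add_mul, g2, g12, zero_add, b2]
  have GP : (G1 + G2) * (P1 + P2) = P1 + P2 := by rw [Matrix.mul_add, GP1, GP2]
  have P1G1 : P1 * G1 = G1 := by
    calc P1 * G1 = P1 * (G1 * (q1 * G1)) := by rw [k1, g1]
      _ = (P1 * (G1 * q1)) * G1 := by simp only [Matrix.mul_assoc]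
      _ = G1 := by rw [a1, Matrix.mul_assoc, k1, g1]
  have P2G2 : P2 * G2 = G2 := by
    calc P2 * G2 = P2 * (G2 * (q2 * G2)) := by rw [k2, g2]
      _ = (P2 * (G2 * q2)) * G2 := by simp only [Matrix.mul_assoc]
      _ = G2 := by rw [b1, Matrix.mul_assoc, k2, g2]
  have P1G2 : P1 * G2 = 0 := by rw [← c1', Matrix.mul_assoc, m12, Matrix.mul_zero]
  have P2G1 : P2 * G1 = 0 := by rw [← c2', Matrix.mul_assoc, m21, Matrix.mul_zero]
  have PG : (P1 + P2) * (G1 + G2) = G1 + G2 := by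
    rw [Matrix.add_mul, Matrix.mul_add, Matrix.mul_add, P1G1, P1G2, P2G1, P2G2, add_zero, zero_add]
  have QG : (q1 + q2) * (G1 + G2) = G1 + G2 := by
    rw [Matrix.add_mul, Matrix.mul_add, Matrix.mul_add, k1, m12, m21, k2, add_zero, zero_add]
  have QP : (q1 + q2) * (P1 + P2) = P1 + P2 := by
    rw [Matrix.add_mul, Matrix.mul_add, Matrix.mul_add, c1, n12, n21, c2, add_zero, zero_add]
  obtain ⟨P, eP⟩ : ∃ P, P = P1 + P2 := ⟨_, rfl⟩
  obtain ⟨G, eG⟩ : ∃ G, G = G1 + G2 := ⟨_, rfl⟩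
  obtain ⟨Q, eQ⟩ : ∃ Q, Q = q1 + q2 := ⟨_, rfl⟩
  rw [← eP] at hP GP PG QP
  rw [← eG] at k3 k4 GP PG QG
  rw [← eQ] at hQ hle QG QP
  have pQ : p' * Q = p' := star_eq hQ hp' hle
  have PQ : P * Q = P := star_eq hQ hP QP
  have GQ : G * Q = G := by rw [← k4, Matrix.mul_assoc, pQ]
  refine ⟨P1, P2, hP1, hP2, c1, c2, ?_, ?_⟩
  · rw [← eP]
    refine c3_ae hp' hP (p' * P) G ?_ ?_
    · rw [Matrix.mul_assoc, PG, k3]
    · rw [← Matrix.mul_assoc, k4, GP]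
  · rw [← eP, ← eQ]
    have t1 : (Q - G) * (Q - P) = Q - G := by
      rw [Matrix.sub_mul, Matrix.mul_sub, Matrix.mul_sub, hQ.1, QP, GQ, GP]
      abel
    have t2 : (Q - G) * (Q - p') = Q - p' := by
      rw [Matrix.sub_mul, Matrix.mul_sub, Matrix.mul_sub, hQ.1, hle, GQ, k4]
      abel
    have t3 : (Q - p') * (Q - G) = Q - G := by
      rw [Matrix.sub_mul, Matrix.mul_sub, Matrix.mul_sub, hQ.1, QG, pQ, k3]
      abel
    have t4 : (Q - P) * (Q - G) = Q - P := by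
      rw [Matrix.sub_mul, Matrix.mul_sub, Matrix.mul_sub, hQ.1, QG, PQ, PG]
      abel
    refine c3_ae (sub_pr hQ hp' hle) (sub_pr hQ hP QP) (Q - G) ((Q - P) * (Q - p')) ?_ ?_
    · rw [← Matrix.mul_assoc, t1, t2]
    · rw [Matrix.mul_assoc, t3, t4]

end Pool.H71W
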