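import Pool.Agent.Lib.H71W.V2

/-!
# Project H71W, V2B (M): decompositions and orthogonal sums in `V R`
-/

open scoped Matrix

namespace Pool.H71W

variable {R : Type} [NonUnitalRing R] [StarRing R]

theorem v2b_zero {ι : Type} [Fintype ι] (q : Matrix ι ι R) (hq : IsPr q) (h : q = 0) : cl ⟨ι, q, hq⟩ = (0 : V R) := by
  subst h
  exact cl_zero

section

variable {ι κ μ : Type} [Fintype ι] [Fintype κ] [Fintype μ]

theorem v2b_ll {v : Matrix μ (ι ⊕ κ) R} {A : Matrix ι ι R} {B : Matrix κ κ R} (h : vᴴ * v = Matrix.fromBlocks A 0 0 B) :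
    (v.submatrix id Sum.inl)ᴴ * v.submatrix id Sum.inl = A := by
  ext i j
  have e := congrFun (congrFun h (Sum.inl i)) (Sum.inl j)
  rw [Matrix.fromBlocks_apply₁₁] at e
  rw [← e]
  rfl

theorem v2b_lr {v : Matrix μ (ι ⊕ κ) R} {A : Matrix ι ι R} {B : Matrix κ κ R} (h : vᴴ * v = Matrix.fromBlocks A 0 0 B) :
    (v.submatrix id Sum.inl)ᴴ * v.submatrix id Sum.inr = 0 := by
  ext i j
  have e := congrFun (congrFun h (Sum.inl i)) (Sum.inr j)
  rw [Matrix.fromBlocks_apply₁₂] at e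
  rw [← e]
  rfl

theorem v2b_rr {v : Matrix μ (ι ⊕ κ) R} {A : Matrix ι ι R} {B : Matrix κ κ R} (h : vᴴ * v = Matrix.fromBlocks A 0 0 B) :
    (v.submatrix id Sum.inr)ᴴ * v.submatrix id Sum.inr = B := by
  ext i j
  have e := congrFun (congrFun h (Sum.inr i)) (Sum.inr j)
  rw [Matrix.fromBlocks_apply₂₂] at e
  rw [← e]
  rfl

theorem v2b_l {v : Matrix μ (ι ⊕ κ) R} {A : Matrix ι ι R} {B : Matrix κ κ R} (h : v * Matrix.fromBlocks A 0 0 B = v) :
    v.submatrix id Sum.inl * A = v.submatrix id Sum.inl := by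
  ext i j
  have e := congrFun (congrFun h i) (Sum.inl j)
  rw [Matrix.mul_apply, Fintype.sum_sum_type] at e
  simp only [Matrix.fromBlocks_apply₁₁, Matrix.fromBlocks_apply₂₁, Matrix.zero_apply, mul_zero, Finset.sum_const_zero,
    add_zero] at e
  rw [Matrix.mul_apply]
  exact e

theorem v2b_r {v : Matrix μ (ι ⊕ κ) R} {A : Matrix ι ι R} {B : Matrix κ κ R} (h : v * Matrix.fromBlocks A 0 0 B = v) :
    v.submatrix id Sum.inr * B = v.submatrix id Sum.inr := by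
  ext i j
  have e := congrFun (congrFun h i) (Sum.inr j)
  rw [Matrix.mul_apply, Fintype.sum_sum_type] at e
  simp only [Matrix.fromBlocks_apply₁₂, Matrix.fromBlocks_apply₂₂, Matrix.zero_apply, mul_zero, Finset.sum_const_zero,
    zero_add] at e
  rw [Matrix.mul_apply]
  exact e

theorem v2b_add (v : Matrix μ (ι ⊕ κ) R) : v.submatrix id Sum.inl * (v.submatrix id Sum.inl)ᴴ +
    v.submatrix id Sum.inr * (v.submatrix id Sum.inr)ᴴ = v * vᴴ := by
  ext i j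
  rw [Matrix.add_apply, Matrix.mul_apply, Matrix.mul_apply, Matrix.mul_apply, Fintype.sum_sum_type]
  rfl

end

/-- **Decompositions are realised by orthogonal projections.** Proof. `a = cl A`, `b = cl B`, `diag(A, B) ~ P` through a nice `w`
(`w* w = diag(A, B)`, `w w* = P`): `w = [u, v]` (block columns), `p1 = u u*`, `p2 = v v*`; `u* u = A`, `u* v = 0`, `v* v = B`, `u A = u`. -/
theorem cl_split (P : Proj R) (a b : V R) (h : cl P = a + b) : ∃ (p1 p2 : Matrix P.ι P.ι R) (h1 : IsPr p1) (h2 : IsPr p2),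
    p1 + p2 = P.p ∧ p1 * p2 = 0 ∧ cl ⟨P.ι, p1, h1⟩ = a ∧ cl ⟨P.ι, p2, h2⟩ = b := by
  obtain ⟨A, rfl⟩ := cl_surj a
  obtain ⟨B, rfl⟩ := cl_surj b
  rw [← cl_add, cl_eq] at h
  obtain ⟨v, hv1, hv2, hv3, hv4⟩ := v1_nice (A.pr.blocks B.pr) P.pr h.symm
  have h1 : IsPr (v.submatrix id Sum.inl * (v.submatrix id Sum.inl)ᴴ) := v2_pr A.pr (v2b_ll hv1) (v2b_l hv3)
  have h2 : IsPr (v.submatrix id Sum.inr * (v.submatrix id Sum.inr)ᴴ) := v2_pr B.pr (v2b_rr hv1) (v2b_r hv3)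
  refine ⟨_, _, h1, h2, ?_, ?_, ?_, ?_⟩
  · rw [v2b_add, hv2]
  · rw [Matrix.mul_assoc, ← Matrix.mul_assoc ((v.submatrix id Sum.inl)ᴴ), v2b_lr hv1, Matrix.zero_mul, Matrix.mul_zero]
  · exact ((cl_eq (P := A) (Q := ⟨P.ι, v.submatrix id Sum.inl * (v.submatrix id Sum.inl)ᴴ, h1⟩)).2
      ⟨v.submatrix id Sum.inl, v2b_ll hv1, rfl⟩).symm
  · exact ((cl_eq (P := B) (Q := ⟨P.ι, v.submatrix id Sum.inr * (v.submatrix id Sum.inr)ᴴ, h2⟩)).2
      ⟨v.submatrix id Sum.inr, v2b_rr hv1, rfl⟩).symm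

theorem cl_orth {ι : Type} [Fintype ι] {p1 p2 : Matrix ι ι R} (h1 : IsPr p1) (h2 : IsPr p2) (h : p1 * p2 = 0)
    (h' : IsPr (p1 + p2)) : cl ⟨ι, p1 + p2, h'⟩ = cl ⟨ι, p1, h1⟩ + cl ⟨ι, p2, h2⟩ := by
  rw [← cl_add]
  exact cl_eq.2 (Equi.orth h1 h2 h).symm

/-- Induction on `s`. -/
theorem cl_sum {ι κ : Type} [Fintype ι] (s : Finset κ) (p : κ → Matrix ι ι R) (hp : ∀ k, IsPr (p k))
    (ho : ∀ k l, k ≠ l → p k * p l = 0) : ∃ h : IsPr (∑ k ∈ s, p k), cl ⟨ι, ∑ k ∈ s, p k, h⟩ = ∑ k ∈ s, cl ⟨ι, p k, hp k⟩ := by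
  classical
  induction s using Finset.induction_on with
  | empty =>
    refine ⟨by rw [Finset.sum_empty]; exact IsPr.zero, ?_⟩
    exact (v2b_zero _ _ Finset.sum_empty).trans Finset.sum_empty.symm
  | insert a s ha ih =>
    obtain ⟨h, e⟩ := ih
    have h0 : p a * ∑ k ∈ s, p k = 0 := by
      rw [Finset.mul_sum]
      exact Finset.sum_eq_zero fun k hk => ho a k (fun hak => ha (hak ▸ hk))
    have h1 : IsPr (p a + ∑ k ∈ s, p k) := IsPr.add (hp a) h h0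
    have e1 : ∑ k ∈ insert a s, p k = p a + ∑ k ∈ s, p k := Finset.sum_insert ha
    have h2 : IsPr (∑ k ∈ insert a s, p k) := e1 ▸ h1
    refine ⟨h2, ?_⟩
    have e2 : cl ⟨ι, ∑ k ∈ insert a s, p k, h2⟩ = cl ⟨ι, p a + ∑ k ∈ s, p k, h1⟩ := by
      congr 1
      simp only [e1]
    rw [e2, cl_orth (hp a) h h0 h1, e, Finset.sum_insert ha]

/-- `V R` is conical: if `cl P ≤ 0` then `P = v* v` with a matrix `v` without rows (`cl_le`), so `P = 0`. -/
theorem cl_conical (x y : V R) (h : x + y = 0) : x = 0 := by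
  obtain ⟨P, rfl⟩ := cl_surj x
  have h1 : Le (cl P) (cl ⟨Empty, 0, IsPr.zero⟩ : V R) := ⟨y, h⟩
  obtain ⟨v, hv, -⟩ := cl_le.1 h1
  refine v2b_zero P.p P.pr ?_
  rw [← hv]
  ext i j
  rw [Matrix.mul_apply, Matrix.zero_apply]
  exact Finset.sum_eq_zero fun k _ => k.elim

end Pool.H71W
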