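import Pool.Agent.Lib.H71W.C4A
import Pool.Agent.Lib.H71W.C4B
import Pool.Agent.Lib.H71W.V2B

/-!
# Project H71W, C4C (M): refinement at one by one classes
-/

open scoped Matrix

namespace Pool.H71W

variable {R : Type} [CStarAlgebra R]

/-- Stars. -/
theorem c4C_star {ι : Type} [Fintype ι] {a b : Matrix ι ι R} (ha : IsPr a) (hb : IsPr b) (h : a * b = b) : b * a = b := by
  have h3 := congrArg Matrix.conjTranspose h
  rwa [Matrix.conjTranspose_mul, ha.2, hb.2] at h3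

/-- `cl_split` for explicit matrices. -/
theorem c4C_split {ι : Type} [Fintype ι] {P : Matrix ι ι R} (hP : IsPr P) (a b : V R) (h : cl ⟨ι, P, hP⟩ = a + b) :
    ∃ (p1 p2 : Matrix ι ι R) (h1 : IsPr p1) (h2 : IsPr p2), p1 + p2 = P ∧ p1 * p2 = 0 ∧ cl ⟨ι, p1, h1⟩ = a ∧
      cl ⟨ι, p2, h2⟩ = b :=
  cl_split ⟨ι, P, hP⟩ a b h

/-- Classes of equal projections. -/
theorem c4C_congr {ι : Type} [Fintype ι] {a b : Matrix ι ι R} (ha : IsPr a) (hb : IsPr b) (h : a = b) :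
    cl ⟨ι, a, ha⟩ = cl ⟨ι, b, hb⟩ := by
  subst h
  rfl

/-- Differences of projections. -/
theorem c4C_sub {ι : Type} [Fintype ι] {a b : Matrix ι ι R} (ha : IsPr a) (hb : IsPr b) (h : a * b = b) :
    ∃ hab : IsPr (a - b), cl ⟨ι, a, ha⟩ = cl ⟨ι, b, hb⟩ + cl ⟨ι, a - b, hab⟩ := by
  have h' : b * a = b := c4C_star ha hb h
  have hab : IsPr (a - b) := by
    refine ⟨?_, ?_⟩
    · rw [Matrix.sub_mul, Matrix.mul_sub, Matrix.mul_sub, ha.1, h, h', hb.1, sub_self, sub_zero]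
    · rw [Matrix.conjTranspose_sub, ha.2, hb.2]
  have ho : b * (a - b) = 0 := by rw [Matrix.mul_sub, h', hb.1, sub_self]
  have e : b + (a - b) = a := by abel
  have hs : IsPr (b + (a - b)) := by
    rw [e]
    exact ha
  refine ⟨hab, ?_⟩
  rw [← cl_orth hb hab ho hs]
  exact c4C_congr ha hs e.symm

/-- **C4c (M): refinement at `1 × 1` classes.** Proof. `c = cl C`, `d = cl D`; `Q = C.add D`, `cl Q = cl e + b`, `cl_split Q`: `Q.p = p' + b'`,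
`cl p' = cl e`, `cl b' = b`. `q1 = fromBlocks C 0 0 0`, `q2 = fromBlocks 0 0 0 D`, `q1 + q2 = Q.p`. `c4_exch`, `c4_proj`. With `cl_orth`:
`cl q1 = cl P1 + cl (q1 - P1)`, `cl q2 = cl P2 + cl (q2 - P2)`, `cl p' = cl P1 + cl P2`, `b = cl (Q - p') = cl (Q - P) = cl (q1 - P1) + cl (q2 - P2)`;
`cl q1 = c` (`Equi.zero`). -/
theorem c4_one (hR : RRU R) {e : Matrix Unit Unit R} (he : IsPr e) (b c d : V R) (h : cl ⟨Unit, e, he⟩ + b = c + d) :
    ∃ x y z w : V R, cl ⟨Unit, e, he⟩ = x + y ∧ b = z + w ∧ c = x + z ∧ d = y + w := by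
  obtain ⟨C, rfl⟩ := cl_surj c
  obtain ⟨D, rfl⟩ := cl_surj d
  have hQ : cl ⟨C.ι ⊕ D.ι, Matrix.fromBlocks C.p 0 0 D.p, C.pr.blocks D.pr⟩ = cl ⟨Unit, e, he⟩ + b :=
    (cl_add C D).trans h.symm
  obtain ⟨p', b', hp', hb', s1, s2, s3, s4⟩ := c4C_split (C.pr.blocks D.pr) _ _ hQ
  obtain ⟨q1, e1⟩ : ∃ q : Matrix (C.ι ⊕ D.ι) (C.ι ⊕ D.ι) R, q = Matrix.fromBlocks C.p 0 0 0 := ⟨_, rfl⟩
  obtain ⟨q2, e2⟩ : ∃ q : Matrix (C.ι ⊕ D.ι) (C.ι ⊕ D.ι) R, q = Matrix.fromBlocks 0 0 0 D.p := ⟨_, rfl⟩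
  have hq1 : IsPr q1 := by
    rw [e1]
    exact C.pr.blocks IsPr.zero
  have hq2 : IsPr q2 := by
    rw [e2]
    exact IsPr.zero.blocks D.pr
  have h12 : q1 * q2 = 0 := by
    rw [e1, e2, Matrix.fromBlocks_multiply]
    simp only [Matrix.mul_zero, Matrix.zero_mul, add_zero, Matrix.fromBlocks_zero]
  have hs : q1 + q2 = Matrix.fromBlocks C.p 0 0 D.p := by
    rw [e1, e2, Matrix.fromBlocks_add]
    simp only [add_zero, zero_add]
  have hb'p : b' * p' = 0 := by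
    have h3 := congrArg Matrix.conjTranspose s2
    rwa [Matrix.conjTranspose_mul, hp'.2, hb'.2, Matrix.conjTranspose_zero] at h3
  have hle : (q1 + q2) * p' = p' := by
    rw [hs, ← s1, Matrix.add_mul, hp'.1, hb'p, add_zero]
  have hep : Equi p' e := cl_eq.1 s3
  obtain ⟨G1, G2, g1, g2, g12, g21, k1, k2, k3, k4⟩ := c4_exch hR he hp' hq1 hq2 h12 hle hep
  obtain ⟨P1, P2, hP1, hP2, c1, c2, c3, c4⟩ := c4_proj hp' hq1 hq2 h12 hle g1 g2 g12 g21 k1 k2 k3 k4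
  have c1' : P1 * q1 = P1 := c4C_star hq1 hP1 c1
  have d12 : P1 * P2 = 0 := by
    calc P1 * P2 = (P1 * q1) * (q2 * P2) := by rw [c1', c2]
      _ = P1 * (q1 * q2) * P2 := by simp only [Matrix.mul_assoc]
      _ = 0 := by rw [h12, Matrix.mul_zero, Matrix.zero_mul]
  have n12 : q1 * P2 = 0 := by rw [← c2, ← Matrix.mul_assoc, h12, Matrix.zero_mul]
  have m12 : P1 * q2 = 0 := by rw [← c1', Matrix.mul_assoc, h12, Matrix.mul_zero]
  have hP : IsPr (P1 + P2) := hP1.add hP2 d12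
  obtain ⟨hz, z1⟩ := c4C_sub hq1 hP1 c1
  obtain ⟨hw, w1⟩ := c4C_sub hq2 hP2 c2
  have ho : (q1 - P1) * (q2 - P2) = 0 := by
    rw [Matrix.sub_mul, Matrix.mul_sub, Matrix.mul_sub, h12, n12, m12, d12]
    simp only [sub_self]
  have hzw : IsPr (q1 - P1 + (q2 - P2)) := hz.add hw ho
  have hbe : b' = q1 + q2 - p' := by rw [hs, ← s1, add_sub_cancel_left]
  have hre : q1 + q2 - (P1 + P2) = q1 - P1 + (q2 - P2) := by abel
  refine ⟨cl ⟨_, P1, hP1⟩, cl ⟨_, P2, hP2⟩, cl ⟨_, q1 - P1, hz⟩, cl ⟨_, q2 - P2, hw⟩, ?_, ?_, ?_, ?_⟩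
  · rw [← s3, ← cl_orth hP1 hP2 d12 hP]
    exact cl_eq.2 c3
  · rw [← s4, ← cl_orth hz hw ho hzw]
    refine cl_eq.2 ?_
    rw [← hbe, hre] at c4
    exact c4
  · rw [← z1]
    refine cl_eq.2 ?_
    have h5 : Equi q1 C.p := by
      rw [e1]
      exact Equi.zero C.pr
    exact h5.symm
  · rw [← w1]
    refine cl_eq.2 ?_
    have h5 : Equi q2 D.p := by
      rw [e2]
      exact (Equi.comm IsPr.zero D.pr).trans (IsPr.zero.blocks D.pr) (D.pr.blocks IsPr.zero) D.pr (Equi.zero D.pr)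
    exact h5.symm

end Pool.H71W
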