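import Pool.Agent.Lib.H71W.C4C

/-!
# Project H71W, C4D (M): the refinement property, unital case
-/

open scoped Matrix

namespace Pool.H71W

variable {R : Type} [CStarAlgebra R]

/-- Refinement at `a`. -/
def C4dGood (a : V R) : Prop :=
  ∀ b c d : V R, a + b = c + d → ∃ x y z w : V R, a = x + y ∧ b = z + w ∧ c = x + z ∧ d = y + w

theorem c4d_zero : C4dGood (0 : V R) := by
  intro b c d h
  rw [zero_add] at h
  exact ⟨0, 0, c, d, (add_zero _).symm, h, (zero_add _).symm, (zero_add _).symm⟩

theorem c4d_add {a a' : V R} (h : C4dGood a) (h' : C4dGood a') : C4dGood (a + a') := by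
  intro b c d hb
  rw [add_assoc] at hb
  obtain ⟨x, y, z, w, e1, e2, e3, e4⟩ := h _ _ _ hb
  obtain ⟨x', y', z', w', f1, f2, f3, f4⟩ := h' _ _ _ e2
  refine ⟨x + x', y + y', z', w', ?_, f2, ?_, ?_⟩
  · rw [e1, f1]
    abel
  · rw [e3, f3]
    abel
  · rw [e4, f4]
    abel

/-- The class of the `1 × 1` identity matrix. -/
theorem c4d_onepr {ι : Type} [Fintype ι] [DecidableEq ι] : IsPr (1 : Matrix ι ι R) :=
  ⟨by rw [Matrix.one_mul], Matrix.conjTranspose_one⟩

/-- Classes below the class of `1`. -/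
theorem c4d_below (hR : RRU R) {x z : V R} (h : cl ⟨Unit, (1 : Matrix Unit Unit R), c4d_onepr⟩ = x + z) : C4dGood x := by
  obtain ⟨p1, p2, h1, h2, -, -, h3, -⟩ := c4C_split c4d_onepr x z h
  intro b c d hb
  rw [← h3] at hb ⊢
  exact c4_one hR h1 b c d hb

theorem c4d_multiple (hR : RRU R) (n : ℕ) : ∀ c d : V R, n • cl ⟨Unit, (1 : Matrix Unit Unit R), c4d_onepr⟩ = c + d →
    C4dGood c := by
  induction n with
  | zero =>
    intro c d h
    rw [zero_nsmul] at h
    rw [cl_conical c d h.symm]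
    exact c4d_zero
  | succ n ih =>
    intro c d h
    rw [succ_nsmul'] at h
    obtain ⟨x, y, z, w, e1, e2, e3, e4⟩ := c4_one hR c4d_onepr _ _ _ h
    rw [e3]
    exact c4d_add (c4d_below hR e1) (ih z w e2)

theorem c4d_ct {ι κ : Type} [DecidableEq ι] [DecidableEq κ] (i : ι) (j : κ) :
    (Matrix.single i j (1 : R))ᴴ = Matrix.single j i 1 := by
  ext a b
  rw [Matrix.conjTranspose_apply, Matrix.single_apply, Matrix.single_apply]
  by_cases h1 : i = b <;> by_cases h2 : j = a <;> simp [h1, h2]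

/-- The class of the identity matrix. -/
theorem c4d_one {ι : Type} [Fintype ι] [DecidableEq ι] : cl ⟨ι, (1 : Matrix ι ι R), c4d_onepr⟩ =
    Fintype.card ι • cl ⟨Unit, (1 : Matrix Unit Unit R), c4d_onepr⟩ := by
  have hp : ∀ k : ι, IsPr (Matrix.single k k (1 : R)) := by
    intro k
    refine ⟨?_, ?_⟩
    · rw [Matrix.single_mul_single_same, one_mul]
    · rw [c4d_ct]
  obtain ⟨hs, e⟩ := cl_sum (Finset.univ : Finset ι) (fun k => Matrix.single k k (1 : R)) hp
    (fun k l hkl => Matrix.single_mul_single_of_ne 1 k k l hkl 1)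
  have h1 : (1 : Matrix ι ι R) = ∑ k : ι, Matrix.single k k (1 : R) := (Matrix.sum_single_one (m := ι)).symm
  rw [c4C_congr c4d_onepr hs h1, e]
  have h2 : ∀ k : ι, cl ⟨ι, Matrix.single k k (1 : R), hp k⟩ = cl ⟨Unit, (1 : Matrix Unit Unit R), c4d_onepr⟩ := by
    intro k
    refine cl_eq.2 ⟨Matrix.single () k (1 : R), ?_, ?_⟩
    · rw [c4d_ct, Matrix.single_mul_single_same, one_mul]
    · rw [c4d_ct, Matrix.single_mul_single_same, one_mul]
      ext i j
      simp [Matrix.single]
  rw [Finset.sum_congr rfl fun k _ => h2 k, Finset.sum_const, Finset.card_univ]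

theorem c4d_all (hR : RRU R) (a : V R) : C4dGood a := by
  classical
  obtain ⟨P, rfl⟩ := cl_surj a
  have hP : (1 : Matrix P.ι P.ι R) * P.p = P.p := Matrix.one_mul _
  obtain ⟨h, e⟩ := c4C_sub (c4d_onepr (ι := P.ι)) P.pr hP
  exact c4d_multiple hR (Fintype.card P.ι) _ _ (c4d_one.symm.trans e)

/-- **C4d (M): the refinement property of `V R`.** Proof. Say `a` is good if refinement holds for all `a + b = c + d`. Good elements are closed
under `+` (refine `a + (a' + b) = c + d` to `a = x + y`, `a' + b = e1 + e2`, then `a' + b = e1 + e2`), `0` is good. `u = cl 1` (`1 × 1`) is good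
(`c4_one`). If `n u = c + d` then `c` is a sum of elements `≤ u` (induction on `n`, goodness of `u`); every element `≤ u` is the class of a
`1 × 1` projection (`cl_split`), hence good (`c4_one`). For every `P`: `cl P + cl (1 - P) = cl 1 = card • u`
(`cl_orth`; `1 = ∑ i, Matrix.single i i 1`, `cl_sum`, `single i i 1 ~ 1`). So every class is good. Conical: `cl_conical`. -/
theorem c4_refine (hR : RRU R) : CR (V R) := by
  exact ⟨cl_conical, fun a b c d h => c4d_all hR a b c d h⟩

end Pool.H71W
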