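import Pool.Agent.Lib.H71W.V1

/-!
# Project H71W, C5 (S/M): matrices over a non-unital C*-algebra and over its unitization
-/

open scoped Matrix

namespace Pool.H71W

variable {A : Type} [NonUnitalCStarAlgebra A] {ι κ : Type} [Fintype ι] [Fintype κ]

/-- A matrix over `A` as a matrix over the unitization. -/
def up (p : Matrix ι κ A) : Matrix ι κ (Unitization ℂ A) := p.map fun a => (a : Unitization ℂ A)

theorem c5_sum {μ : Type} (s : Finset μ) (f : μ → A) :
    ((∑ i ∈ s, f i : A) : Unitization ℂ A) = ∑ i ∈ s, (f i : Unitization ℂ A) :=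
  map_sum (Unitization.inrNonUnitalStarAlgHom ℂ A) f s

theorem c5_fst {μ : Type} (s : Finset μ) (f : μ → Unitization ℂ A) (h : ∀ i ∈ s, (f i).fst = 0) :
    (∑ i ∈ s, f i).fst = 0 := by
  have h1 : (∑ i ∈ s, f i).fst = ∑ i ∈ s, (f i).fst := map_sum (Unitization.fstHom ℂ A) f s
  rw [h1]
  exact Finset.sum_eq_zero h

theorem c5_inr (z : Unitization ℂ A) (h : z.fst = 0) : z = ((z.snd : A) : Unitization ℂ A) := by
  apply Unitization.ext
  · rw [h, Unitization.fst_inr]
  · rw [Unitization.snd_inr]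

omit [Fintype ι] [Fintype κ] in
theorem c5_apply (p : Matrix ι κ A) (i : ι) (j : κ) : up p i j = (p i j : Unitization ℂ A) := rfl

omit [Fintype ι] in
theorem up_mul {μ : Type} (p : Matrix ι κ A) (q : Matrix κ μ A) : up (p * q) = up p * up q := by
  ext1 i j
  rw [c5_apply, Matrix.mul_apply, Matrix.mul_apply, c5_sum]
  refine Finset.sum_congr rfl fun k _ => ?_
  rw [c5_apply, c5_apply, Unitization.inr_mul]

omit [Fintype ι] [Fintype κ] in
theorem up_star (p : Matrix ι κ A) : up pᴴ = (up p)ᴴ := by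
  ext1 i j
  rw [c5_apply, Matrix.conjTranspose_apply, Matrix.conjTranspose_apply, c5_apply, Unitization.inr_star]

omit [Fintype ι] [Fintype κ] in
theorem up_inj {p q : Matrix ι κ A} (h : up p = up q) : p = q := by
  ext1 i j
  have h1 := congrFun (congrFun h i) j
  rw [c5_apply, c5_apply] at h1
  exact Unitization.inr_injective h1

omit [Fintype ι] [Fintype κ] in
theorem c5_lift (z : Matrix ι κ (Unitization ℂ A)) (h : ∀ i j, (z i j).fst = 0) : ∃ y : Matrix ι κ A, z = up y := by
  refine ⟨Matrix.of fun i j => (z i j).snd, ?_⟩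
  ext1 i j
  exact c5_inr _ (h i j)

omit [Fintype ι] in
/-- `A` is an ideal of the unitization. -/
theorem up_ideal_left {μ : Type} (p : Matrix ι κ A) (x : Matrix κ μ (Unitization ℂ A)) : ∃ y : Matrix ι μ A, up p * x = up y := by
  refine c5_lift _ fun i j => ?_
  rw [Matrix.mul_apply]
  refine c5_fst _ _ fun k _ => ?_
  rw [Unitization.fst_mul, c5_apply, Unitization.fst_inr, zero_mul]

omit [Fintype κ] in
theorem up_ideal_right {μ : Type} (p : Matrix ι κ A) (x : Matrix μ ι (Unitization ℂ A)) : ∃ y : Matrix μ κ A, x * up p = up y := by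
  refine c5_lift _ fun i j => ?_
  rw [Matrix.mul_apply]
  refine c5_fst _ _ fun k _ => ?_
  rw [Unitization.fst_mul, c5_apply, Unitization.fst_inr, mul_zero]

theorem IsPr.up {p : Matrix ι ι A} (hp : IsPr p) : IsPr (up p) := by
  refine ⟨?_, ?_⟩
  · rw [← up_mul, hp.1]
  · rw [← up_star, hp.2]

/-- Through a nice partial isometry `v = q v` (`v1_nice`), whose entries are in `A` (`up_ideal_left`). -/
theorem up_equi {p : Matrix ι ι A} {q : Matrix κ κ A} (hp : IsPr p) (hq : IsPr q) : Equi (up p) (up q) ↔ Equi p q := by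
  constructor
  · intro h
    obtain ⟨v, h1, h2, h3, h4⟩ := v1_nice hp.up hq.up h
    obtain ⟨y, hy⟩ := up_ideal_left q v
    rw [h4] at hy
    subst hy
    refine ⟨y, up_inj ?_, up_inj ?_⟩
    · rw [up_mul, up_star, h1]
    · rw [up_mul, up_star, h2]
  · rintro ⟨v, h1, h2⟩
    refine ⟨up v, ?_, ?_⟩
    · rw [← up_star, ← up_mul, h1]
    · rw [← up_star, ← up_mul, h2]

/-- The same for the order: replace `v` by `v`, `q v = v`. -/
theorem up_sub {p : Matrix ι ι A} {q : Matrix κ κ A} : SubEqui (up p) (up q) ↔ SubEqui p q := by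
  constructor
  · rintro ⟨v, h1, h2⟩
    obtain ⟨y, hy⟩ := up_ideal_left q v
    rw [h2] at hy
    subst hy
    refine ⟨y, up_inj ?_, up_inj ?_⟩
    · rw [up_mul, up_star, h1]
    · rw [up_mul, h2]
  · rintro ⟨v, h1, h2⟩
    refine ⟨up v, ?_, ?_⟩
    · rw [← up_star, ← up_mul, h1]
    · rw [← up_mul, h2]

end Pool.H71W
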