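import Pool.Agent.Lib.H71W.C1A
import Pool.Agent.Lib.H71W.C4D
import Pool.Agent.Lib.H71W.C5

/-!
# Project H71W, C5B (M): refinement, non-unital case
-/

open scoped Matrix

namespace Pool.H71W

variable {A : Type} [NonUnitalCStarAlgebra A]

/-- The projection over the unitization. -/
def c5bU (P : Proj A) : Proj (Unitization ℂ A) := ⟨P.ι, up P.p, IsPr.up P.pr⟩

theorem c5b_iff (P Q : Proj A) : cl (c5bU P) = cl (c5bU Q) ↔ cl P = cl Q := by
  rw [cl_eq, cl_eq]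
  exact up_equi P.pr Q.pr

theorem c5b_add (P Q : Proj A) : cl (c5bU (P.add Q)) = cl (c5bU P) + cl (c5bU Q) := by
  rw [← cl_add, cl_eq]
  have e : up (Matrix.fromBlocks P.p 0 0 Q.p) = Matrix.fromBlocks (up P.p) 0 0 (up Q.p) := by
    unfold up
    rw [Matrix.fromBlocks_map]
    have h1 : (0 : Matrix P.ι Q.ι A).map (fun a => (a : Unitization ℂ A)) = 0 := by
      ext1 i j
      exact Unitization.inr_zero ℂ
    have h2 : (0 : Matrix Q.ι P.ι A).map (fun a => (a : Unitization ℂ A)) = 0 := by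
      ext1 i j
      exact Unitization.inr_zero ℂ
    rw [h1, h2]
  change Equi (up (Matrix.fromBlocks P.p 0 0 Q.p)) (Matrix.fromBlocks (up P.p) 0 0 (up Q.p))
  rw [e]
  exact Equi.refl (IsPr.blocks (IsPr.up P.pr) (IsPr.up Q.pr))

theorem c5b_gen {ι : Type} [Fintype ι] (p : Matrix ι ι A) (p1 p2 : Matrix ι ι (Unitization ℂ A)) (h1 : IsPr p1)
    (h2 : IsPr p2) (hs : p1 + p2 = up p) (ho : p1 * p2 = 0) :
    ∃ y1 y2 : Matrix ι ι A, p1 = up y1 ∧ p2 = up y2 ∧ IsPr y1 ∧ IsPr y2 := by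
  have e1 : p1 * up p = p1 := by
    rw [← hs, Matrix.mul_add, h1.1, ho, add_zero]
  have e2 : up p * p2 = p2 := by
    rw [← hs, Matrix.add_mul, h2.1, ho, zero_add]
  obtain ⟨y1, hy1⟩ := up_ideal_right p p1
  obtain ⟨y2, hy2⟩ := up_ideal_left p p2
  have f1 : p1 = up y1 := e1.symm.trans hy1
  have f2 : p2 = up y2 := e2.symm.trans hy2
  subst f1
  subst f2
  refine ⟨y1, y2, rfl, rfl, ⟨up_inj ?_, up_inj ?_⟩, ⟨up_inj ?_, up_inj ?_⟩⟩
  · rw [up_mul]; exact h1.1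
  · rw [up_star]; exact h1.2
  · rw [up_mul]; exact h2.1
  · rw [up_star]; exact h2.2

theorem c5b_lift (P : Proj A) (x y : V (Unitization ℂ A)) (h : cl (c5bU P) = x + y) :
    ∃ X Y : Proj A, cl (c5bU X) = x ∧ cl (c5bU Y) = y := by
  obtain ⟨p1, p2, h1, h2, hs, ho, hx, hy⟩ := cl_split (c5bU P) x y h
  obtain ⟨y1, y2, f1, f2, g1, g2⟩ := c5b_gen P.p p1 p2 h1 h2 hs ho
  subst f1
  subst f2
  exact ⟨⟨P.ι, y1, g1⟩, ⟨P.ι, y2, g2⟩, hx, hy⟩

/-- **C5 (M): refinement for `V A`.** Proof. `a + b = c + d` in `V A` with representatives `P, B, C, D`; the same equation holds for the classes of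
`up` in `V (Unitization ℂ A)` (`up (fromBlocks ..) = fromBlocks (up ..) ..`); refine there (`c4_refine`, `c1_unitization`). By `cl_split` for `up P.p` the
parts are classes of `p1`, `p2` with `p1 + p2 = up P.p`, `p1 p2 = 0`, so `p1 = p1 (up P.p)` is `up` of a projection over `A` (`up_ideal_right`).
The four equations come back by `up_equi`. Conical: `cl_conical`. -/
theorem c5_refine (hA : RR0 A) : CR (V A) := by
  refine ⟨cl_conical, ?_⟩
  intro a b c d h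
  obtain ⟨P, rfl⟩ := cl_surj a
  obtain ⟨B, rfl⟩ := cl_surj b
  obtain ⟨C, rfl⟩ := cl_surj c
  obtain ⟨D, rfl⟩ := cl_surj d
  rw [← cl_add, ← cl_add, ← c5b_iff, c5b_add, c5b_add] at h
  obtain ⟨x, y, z, w, h1, h2, h3, h4⟩ := (c4_refine (c1_unitization hA)).ref _ _ _ _ h
  obtain ⟨X, Y, rfl, rfl⟩ := c5b_lift P x y h1
  obtain ⟨Z, W, rfl, rfl⟩ := c5b_lift B z w h2
  rw [← c5b_add, c5b_iff, cl_add] at h1 h2 h3 h4
  exact ⟨cl X, cl Y, cl Z, cl W, h1, h2, h3, h4⟩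

end Pool.H71W
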