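import Mathlib

/-!
# Project H71W (MP_92be06_an): separativity of C*-algebras of real rank zero with comparison. Definitions

* Commutative monoids with the algebraic order `Le`, the refinement property `Refine`, `m`-comparison `Comp`, the
  condition `Ev`, separativity `Sep`.
* The monoid `V R` of projections in matrix algebras over a star ring `R` (Murray-von Neumann equivalence).
* Real rank zero.

Paper proof: `PROOF.md`.
-/

open scoped Matrix

namespace Pool.H71W

/-! ## Commutative monoids -/

section Mon

variable {M : Type*} [AddCommMonoid M]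

/-- The algebraic preorder. -/
def Le (x y : M) : Prop := ∃ z, x + z = y

/-- `x` is below a multiple of `y`. -/
def Gen (x y : M) : Prop := ∃ l : ℕ, Le x (l • y)

/-- Stable domination: `(t + 1) x ≤ t y` for some `t`. -/
def SLe (x y : M) : Prop := ∃ t : ℕ, Le ((t + 1) • x) (t • y)

variable (M)

/-- The refinement property. -/
def Refine : Prop := ∀ a b c d : M, a + b = c + d → ∃ x y z w : M, a = x + y ∧ b = z + w ∧ c = x + z ∧ d = y + w

/-- Conical refinement monoids. -/
structure CR : Prop where
  con : ∀ x y : M, x + y = 0 → x = 0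
  ref : Refine M

/-- `m`-comparison (`m = 0`: almost unperforated). -/
def Comp (m : ℕ) : Prop := ∀ (x : M) (y : Fin (m + 1) → M), (∀ j, SLe x (y j)) → Le x (∑ j, y j)

/-- For every `n` there is `k` such that `k x ≤ n y` implies `x ≤ y`. -/
def Ev : Prop := ∀ n : ℕ, ∃ k : ℕ, ∀ x y : M, Le (k • x) (n • y) → Le x y

/-- Separativity (strong form). -/
def Sep : Prop := ∀ a b c : M, a + c = b + c → Gen c a → Gen c b → a = b

end Mon

/-! ## Projections in matrix algebras -/

section Proj

variable {R : Type} [NonUnitalRing R] [StarRing R]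

/-- A self-adjoint idempotent matrix. -/
def IsPr {ι : Type} [Fintype ι] (p : Matrix ι ι R) : Prop := p * p = p ∧ pᴴ = p

/-- Murray-von Neumann equivalence. -/
def Equi {ι κ : Type} [Fintype ι] [Fintype κ] (p : Matrix ι ι R) (q : Matrix κ κ R) : Prop :=
  ∃ v : Matrix κ ι R, vᴴ * v = p ∧ v * vᴴ = q

/-- Murray-von Neumann subequivalence. -/
def SubEqui {ι κ : Type} [Fintype ι] [Fintype κ] (p : Matrix ι ι R) (q : Matrix κ κ R) : Prop :=
  ∃ v : Matrix κ ι R, vᴴ * v = p ∧ q * v = v

variable (R)

/-- A projection in a matrix algebra over `R`. -/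
structure Proj : Type 1 where
  /-- the index type -/
  ι : Type
  [fin : Fintype ι]
  /-- the matrix -/
  p : Matrix ι ι R
  pr : IsPr p

end Proj

attribute [instance] Proj.fin

section Real

/-- Real rank zero: self-adjoint elements with finite (quasi)spectrum are dense in the self-adjoint elements. -/
def RR0 (A : Type) [NonUnitalCStarAlgebra A] : Prop := ∀ a : A, IsSelfAdjoint a → ∀ ε : ℝ, 0 < ε →
  ∃ b : A, IsSelfAdjoint b ∧ (quasispectrum ℂ b).Finite ∧ ‖a - b‖ < ε

/-- The form for unital algebras. -/
def RRU (R : Type) [CStarAlgebra R] : Prop := ∀ a : R, IsSelfAdjoint a → ∀ ε : ℝ, 0 < ε →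
  ∃ b : R, IsSelfAdjoint b ∧ (spectrum ℂ b).Finite ∧ ‖a - b‖ < ε

end Real

end Pool.H71W
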