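import Pool.Agent.Lib.H71W.M2

/-!
# Project H71W, M3: `Ev` implies separativity in conical refinement monoids
-/

open Finset

namespace Pool.H71W

variable {M : Type*} [AddCommMonoid M]

/-- One half of the reduction of Ara, Goodearl, O Meara, Pardo. -/
theorem chain_half (hM : CR M) {n : ℕ} {d a1 c1 : M} (h : Le c1 (n • (d + a1))) :
    ∃ d' e c' : M, d = d' + e ∧ c1 = c' + e ∧ Le c' (n • (a1 + e)) := by
  rw [nsmul_add] at h
  obtain ⟨u, v, h1, h2, h3⟩ := riesz hM.ref h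
  obtain ⟨E, h4, h5⟩ := riesz_nsmul hM n h2
  obtain ⟨e, d', h6, h7, h8⟩ := join hM d n E h5
  rw [← h4] at h8
  obtain ⟨u', hu⟩ := h8
  refine ⟨d', e, u' + v, by rw [← h6, add_comm], by rw [h1, ← hu]; abel, ?_⟩
  refine (show Le (u' + v) (u + v) from ⟨e, by rw [← hu]; abel⟩).trans ?_
  rw [nsmul_add, add_comm u v]
  refine Le.add h3 ?_
  rw [h4]
  refine (Le.sum univ fun l _ => h7 l).trans ?_
  rw [sum_const, card_univ, Fintype.card_fin]
  exact Le.refl _

/-- **The reduction** (Ara, Goodearl, O Meara, Pardo, Lemma 2.7). -/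
theorem chain (hM : CR M) {n : ℕ} {a b c : M} (h : a + c = b + c) (ha : Le c (n • a)) (hb : Le c (n • b)) :
    ∃ d a' b' c' : M, a = d + a' ∧ b = d + b' ∧ c = a' + c' ∧ c = b' + c' ∧ Le c' (n • a') ∧ Le c' (n • b') := by
  obtain ⟨d, a1, b1, c1, h1, h2, h3, h4⟩ := hM.ref a c b c h
  obtain ⟨d', e, c', k1, k2, k3⟩ := chain_half hM (n := n) (d := d) (a1 := a1) (c1 := c1) (by
    rw [← h1]; exact (show Le c1 c from ⟨a1, by rw [add_comm]; exact h4.symm⟩).trans ha)
  obtain ⟨d2, e2, c2, l1, l2, l3⟩ := chain_half hM (n := n) (d := d') (a1 := b1 + e) (c1 := c') (by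
    have h5 : d' + (b1 + e) = b := by rw [h3, k1]; abel
    rw [h5]
    refine (show Le c' c from ⟨a1 + e, by rw [h4, k2]; abel⟩).trans hb)
  refine ⟨d2, a1 + e + e2, b1 + e + e2, c2, ?_, ?_, ?_, ?_, ?_, ?_⟩
  · rw [h1, k1, l1]; abel
  · rw [h3, k1, l1]; abel
  · rw [h4, k2, l2]; abel
  · rw [h2, k2, l2]; abel
  · refine (show Le c2 c' from ⟨e2, l2.symm⟩).trans (k3.trans (Le.nsmul (Le.self_add _ _) n))
  · exact l3

/-- **The iterated reduction.** -/
theorem chain_iter (hM : CR M) {n : ℕ} {a b c : M} (h : a + c = b + c) (ha : Le c (n • a)) (hb : Le c (n • b)) (k : ℕ) :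
    ∃ D x y v : M, a = D + x ∧ b = D + y ∧ x + v = y + v ∧ Le v (n • x) ∧ Le v (n • y) ∧ Le (k • x + v) c ∧
      Le (k • y + v) c := by
  induction k with
  | zero => exact ⟨0, a, b, c, (zero_add a).symm, (zero_add b).symm, h, ha, hb, ⟨0, by simp⟩, ⟨0, by simp⟩⟩
  | succ k ih =>
    obtain ⟨D, x, y, v, h1, h2, h3, h4, h5, h6, h7⟩ := ih
    obtain ⟨d, x', y', v', k1, k2, k3, k4, k5, k6⟩ := chain hM h3 h4 h5
    refine ⟨D + d, x', y', v', ?_, ?_, ?_, k5, k6, ?_, ?_⟩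
    · rw [h1, k1]; abel
    · rw [h2, k2]; abel
    · rw [← k3, ← k4]
    · refine Le.trans ?_ h6
      rw [k3]
      refine ⟨k • d, ?_⟩
      rw [k1]; module
    · refine Le.trans ?_ h7
      rw [k4]
      refine ⟨k • d, ?_⟩
      rw [k2]; module

/-- **`LEv` implies separativity.** -/
theorem sep_of_ev (hM : CR M) (hE : LEv M) : Sep M := by
  intro a b c h ha hb
  obtain ⟨l1, hl1⟩ := ha
  obtain ⟨l2, hl2⟩ := hb
  obtain ⟨n, hn⟩ : ∃ n, n = l1 + l2 := ⟨_, rfl⟩
  have hna : Le c (n • a) := hl1.trans (Le.nsmul_mono a (by omega))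
  have hnb : Le c (n • b) := hl2.trans (Le.nsmul_mono b (by omega))
  obtain ⟨k1, hk1⟩ := lev_all hE (n + 1) (a + b)
  obtain ⟨k2, hk2⟩ := lev_all hE n a
  obtain ⟨D, x, y, v, e1, e2, e3, e4, e5, e6, e7⟩ := chain_iter hM h hna hnb (k2 * ((k1 + 2) * (n + 1)))
  obtain ⟨w, hw⟩ : ∃ w, w = x + v := ⟨_, rfl⟩
  have hw' : w = y + v := by rw [hw, e3]
  have hwx : Le w ((n + 1) • x) := by
    rw [hw, add_nsmul, one_nsmul, add_comm]
    exact Le.add e4 (Le.refl _)
  have hwy : Le w ((n + 1) • y) := by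
    rw [hw', add_nsmul, one_nsmul, add_comm]
    exact Le.add e5 (Le.refl _)
  have hxw : x + w = y + w := by
    have t1 : x + w = x + y + v := by rw [hw']; abel
    have t2 : y + w = x + y + v := by rw [hw]; abel
    rw [t1, t2]
  -- `N x ≤ D + x`
  have h1 : Le (((k1 + 2) * (n + 1)) • x) (D + x) := by
    rw [← e1]
    refine hk2 _ _ (Le.refl a) ?_
    rw [← mul_nsmul']
    refine (show Le _ c from ?_).trans hna
    exact (Le.self_add _ _).trans e6
  have h2 : Le ((k1 + 2) • w) (D + w) := by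
    refine (hwx.nsmul (k1 + 2)).trans ?_
    rw [← mul_nsmul']
    refine h1.trans (Le.add (Le.refl _) ?_)
    rw [hw]; exact Le.self_add _ _
  obtain ⟨z, hz⟩ := h2
  obtain ⟨u, om, dm, z', f1, f2, f3, f4⟩ := hM.ref ((2 : ℕ) • w) (k1 • w + z) D w (by rw [← hz]; module)
  have h3 : (2 : ℕ) • w + z' = u + w := by rw [f1, f4]; abel
  have key : ∀ t : M, Le (dm + t) (a + b) → Le w ((n + 1) • t) → Le w (dm + t) := by
    intro t hta ht
    refine hk1 _ _ hta ?_
    refine (Le.self_add (k1 • w) z).trans ?_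
    rw [f2]
    refine (Le.add (Le.refl dm) (show Le z' w from ⟨om, by rw [f4, add_comm]⟩)).trans ?_
    refine (Le.add (Le.refl dm) ht).trans ?_
    exact ⟨n • dm, by module⟩
  obtain ⟨v1, hv1⟩ := key x ⟨u + b, by rw [e1, f3]; abel⟩ hwx
  obtain ⟨v2, hv2⟩ := key y ⟨u + a, by rw [e2, f3]; abel⟩ hwy
  have g1 : D + x = z' + dm + (x + w) := by
    have : D + x = (u + w) + v1 := by rw [f3, add_assoc, ← hv1]; abel
    rw [this, ← h3]
    have : (2 : ℕ) • w + z' + v1 = w + z' + (w + v1) := by module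
    rw [this, hv1]; abel
  have g2 : D + y = z' + dm + (y + w) := by
    have : D + y = (u + w) + v2 := by rw [f3, add_assoc, ← hv2]; abel
    rw [this, ← h3]
    have : (2 : ℕ) • w + z' + v2 = w + z' + (w + v2) := by module
    rw [this, hv2]; abel
  rw [e1, e2, g1, g2, hxw]

end Pool.H71W
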