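import Pool.Agent.Lib.H71W.W1

/-!
# Project H71W, W1A (S/M): the closed ideal generated by a projection
-/

namespace Pool.H71W

/-- **W1a (S/M).** `TwoSidedIdeal.span_le`-type argument: the set of the sums `∑ a p b` is a two-sided ideal which contains `p = p p p`
(`n • p = (n • p) p p`), `TwoSidedIdeal.mem_span_iff` (intersection of the ideals), or induction (`TwoSidedIdeal.span_induction`). -/
theorem w1_span {A : Type} [NonUnitalCStarAlgebra A] {p : A} (hp : p * p = p) :
    closure ((TwoSidedIdeal.span {p} : TwoSidedIdeal A) : Set A) ⊆ Jp p := by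
  refine closure_mono ?_
  intro x hx
  have hx' : x ∈ (TwoSidedIdeal.span {p} : TwoSidedIdeal A) := hx
  rw [TwoSidedIdeal.mem_span_iff] at hx'
  have h := hx' (TwoSidedIdeal.mk' (w1_S p) (w1_S_zero p) w1_S_add w1_S_neg (fun {a y} hy => w1_S_left a hy)
    (fun {y a} hy => w1_S_right a hy)) ?_
  · rw [TwoSidedIdeal.mem_mk'] at h
    exact h
  · intro y hy
    rw [Set.mem_singleton_iff] at hy
    subst hy
    rw [SetLike.mem_coe, TwoSidedIdeal.mem_mk']
    refine ⟨1, fun _ => y, fun _ => y, ?_⟩
    simp [hp]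

end Pool.H71W
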