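import Pool.Agent.Lib.H71W.W1

/-!
# Project H71W, W1B (S/M): closed ideals
-/

namespace Pool.H71W

/-- `Jp p` is a closed two-sided ideal (for `c • x`: `c • (a p b) = (c • a) p b`; sums: `Fin.addCases`/`Fin.append`; closure: `map_mem_closure`,
`map_mem_closure₂`). -/
theorem w1_ideal {A : Type} [NonUnitalCStarAlgebra A] (p : A) : (0 : A) ∈ Jp p ∧ (∀ x ∈ Jp p, ∀ y ∈ Jp p, x + y ∈ Jp p) ∧
    (∀ a, ∀ x ∈ Jp p, a * x ∈ Jp p) ∧ (∀ a, ∀ x ∈ Jp p, x * a ∈ Jp p) ∧ (∀ (c : ℂ), ∀ x ∈ Jp p, c • x ∈ Jp p) ∧ IsClosed (Jp p) := by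
  refine ⟨subset_closure (w1_S_zero p), ?_, ?_, ?_, ?_, isClosed_closure⟩
  · intro x hx y hy
    exact map_mem_closure₂ continuous_add hx hy fun a ha b hb => w1_S_add ha hb
  · intro a x hx
    exact map_mem_closure (continuous_const_mul a) hx fun y hy => w1_S_left a hy
  · intro a x hx
    exact map_mem_closure (f := fun y : A => y * a) (t := w1_S p) (continuous_mul_const a) hx fun y hy => w1_S_right a hy
  · intro c x hx
    exact map_mem_closure (continuous_const_smul c) hx fun y hy => w1_S_smul c hy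

/-- **W1b (S/M).** `Jp p` is a closed two-sided ideal; if `q ∈ Jp p` then `Jp q ⊆ Jp p`. -/
theorem w1_mono {A : Type} [NonUnitalCStarAlgebra A] {p q : A} (h : q ∈ Jp p) : Jp q ⊆ Jp p := by
  obtain ⟨h0, hadd, hl, hr, _, hc⟩ := w1_ideal p
  refine closure_minimal ?_ hc
  rintro x ⟨N, a, b, rfl⟩
  have key : ∀ s : Finset (Fin N), ∑ i ∈ s, a i * q * b i ∈ Jp p := by
    intro s
    induction s using Finset.induction_on with
    | empty => simpa using h0
    | insert j s hj ih =>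
      rw [Finset.sum_insert hj]
      exact hadd _ (hr _ _ (hl _ _ h)) _ ih
  exact key Finset.univ

end Pool.H71W
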