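import Pool.Agent.Lib.H71W.V3

/-!
# Project H71W, V3B (S/M): repeated block diagonal matrices
-/

open scoped Matrix

namespace Pool.H71W

variable {R : Type} [NonUnitalRing R] [StarRing R]

theorem IsPr.diag {o κ : Type} [Fintype o] [DecidableEq o] [Fintype κ] {q : Matrix κ κ R}
    (hq : IsPr q) : IsPr (Matrix.blockDiagonal fun _ : o => q) := by
  constructor
  · rw [← Matrix.blockDiagonal_mul]
    exact congrArg Matrix.blockDiagonal (funext fun _ => hq.1)
  · rw [Matrix.blockDiagonal_conjTranspose]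
    exact congrArg Matrix.blockDiagonal (funext fun _ => hq.2)

/-- From `cl_diag'` and reindexing (`κ × o ≃ Σ _ : o, κ`, `Equi.reindex`) or in the same way. -/
theorem cl_diag {κ : Type} [Fintype κ] {q : Matrix κ κ R} (hq : IsPr q) (n : ℕ) :
    cl ⟨κ × Fin n, Matrix.blockDiagonal fun _ : Fin n => q, IsPr.diag hq⟩ = n • cl ⟨κ, q, hq⟩ := by
  have h1 := cl_diag' (o := Fin n) (κ := fun _ => κ) (q := fun _ => q) (fun _ => hq)
  rw [Finset.sum_const, Finset.card_univ, Fintype.card_fin] at h1
  rw [← h1, eq_comm]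
  refine cl_eq.2 ?_
  have h2 := Equi.reindex (IsPr.diag' (o := Fin n) (κ := fun _ => κ) (q := fun _ => q) (fun _ => hq))
    ((Equiv.sigmaEquivProd (Fin n) κ).trans (Equiv.prodComm (Fin n) κ))
  have h3 : (Matrix.blockDiagonal' fun _ : Fin n => q).submatrix
      ((Equiv.sigmaEquivProd (Fin n) κ).trans (Equiv.prodComm (Fin n) κ)).symm
      ((Equiv.sigmaEquivProd (Fin n) κ).trans (Equiv.prodComm (Fin n) κ)).symm = Matrix.blockDiagonal fun _ : Fin n => q := by
    funext x y
    obtain ⟨a, k⟩ := x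
    obtain ⟨b, l⟩ := y
    exact (Matrix.blockDiagonal'_eq_blockDiagonal (fun _ : Fin n => q) a b).symm
  rw [h3] at h2
  exact h2

end Pool.H71W
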