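import Pool.Agent.Lib.H71W.W1
import Pool.Agent.Lib.H71W.C3
import Pool.Agent.Lib.H71W.V2
import Pool.Agent.Lib.H71W.V3B

/-!
# Project H71W, W1C (M): projections in the closed ideal are below a multiple
-/

open scoped Matrix

namespace Pool.H71W

/-- The norm of a projection is at most one. -/
theorem w1c_norm {A : Type} [NonUnitalCStarAlgebra A] {e : A} (he : e * e = e) (hes : star e = e) : ‖e‖ ≤ 1 := by
  have h1 : ‖e‖ * ‖e‖ = ‖e‖ := by
    have h := CStarRing.norm_star_mul_self (x := e)
    rw [hes, he] at h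
    exact h.symm
  nlinarith [norm_nonneg e]

/-- An element near to `e` and below `e` is right invertible in the corner. -/
theorem w1c_inv {A : Type} [NonUnitalCStarAlgebra A] {e t : A} (ht : e * t = t) (he : e * e = e)
    (hn : ‖e - t‖ < 1) : ∃ k : Unitization ℂ A, (t : Unitization ℂ A) * k = (e : Unitization ℂ A) := by
  have hn' : ‖((e - t : A) : Unitization ℂ A)‖ < 1 := by
    rw [Unitization.norm_inr]
    exact hn
  refine ⟨((Units.oneSub _ hn')⁻¹ : (Unitization ℂ A)ˣ), ?_⟩
  have h1 : (e : Unitization ℂ A) * ((Units.oneSub _ hn' : (Unitization ℂ A)ˣ) : Unitization ℂ A) = (t : Unitization ℂ A) := by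
    rw [Units.val_oneSub, mul_sub, mul_one, ← Unitization.inr_mul, ← Unitization.inr_sub, mul_sub, he, ht, sub_sub_cancel]
  rw [← h1, mul_assoc, Units.mul_inv, mul_one]

/-- The matrix statement. -/
theorem w1c_sub {A : Type} [NonUnitalCStarAlgebra A] {p e x : A} (hp : p * p = p) (hps : star p = p) (he : e * e = e)
    (hes : star e = e) {N : ℕ} {a b : Fin N → A} (hx : x = ∑ i, a i * p * b i) {k : Unitization ℂ A}
    (hk : ((e * x * e : A) : Unitization ℂ A) * k = (e : Unitization ℂ A)) :
    SubEqui (m1 e) (Matrix.blockDiagonal fun _ : Fin N => m1 p) := by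
  rw [← up_sub]
  refine c3_sub (m1_pr he hes).up
    (Matrix.of fun (_ : Unit) (z : Unit × Fin N) => ((e * a z.2 * p : A) : Unitization ℂ A))
    (Matrix.of fun (z : Unit × Fin N) (_ : Unit) => ((p * b z.2 * e : A) : Unitization ℂ A) * k) ?_ ?_
  · ext1 i j
    rw [Matrix.mul_apply, Fintype.sum_prod_type, Fintype.sum_unique, c5_apply]
    simp only [Matrix.of_apply, m1]
    rw [← hk, hx, Finset.mul_sum, Finset.sum_mul, c5_sum, Finset.sum_mul]
    refine Finset.sum_congr rfl fun l _ => ?_
    rw [← mul_assoc, ← Unitization.inr_mul]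
    have h1 : e * a l * p * (p * b l * e) = e * (a l * p * b l) * e := by
      calc e * a l * p * (p * b l * e) = e * a l * (p * p) * b l * e := by simp only [mul_assoc]
        _ = e * (a l * p * b l) * e := by rw [hp]; simp only [mul_assoc]
    rw [h1]
  · ext1 z j
    obtain ⟨_, l⟩ := z
    rw [Matrix.mul_apply, Fintype.sum_prod_type, Fintype.sum_unique, Finset.sum_eq_single l]
    · rw [c5_apply, Matrix.blockDiagonal_apply_eq]
      simp only [Matrix.of_apply, m1]
      rw [← mul_assoc, ← Unitization.inr_mul]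
      have h1 : p * (p * b l * e) = p * b l * e := by
        calc p * (p * b l * e) = (p * p) * b l * e := by simp only [mul_assoc]
          _ = p * b l * e := by rw [hp]
      rw [h1]
    · intro l' _ hl'
      rw [c5_apply, Matrix.blockDiagonal_apply_ne _ _ _ (fun hc => hl' hc.symm), Unitization.inr_zero, zero_mul]
    · intro hc
      exact absurd (Finset.mem_univ l) hc

/-- **W1c (M).** Proof. Choose `‖e - ∑ a i p b i‖ < 1/2`. Over `R = Unitization ℂ A`: `X : Unit × Fin N`, `X i = e a i p`, `Y i = p b i e`: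
`X Y = e (∑ a i p b i) e = t`, `‖t - e‖ < 1/2`; `t + (1 - e)` is invertible in `R`, its inverse `k` commutes with `e`: `t (k e) = e`.
`x = X`, `y = Y (k e)`: `x y = e`, `(blockDiagonal p) y = y`. `c3_sub` (index `Unit × Fin N` or the index of `cl_diag`), `up_sub`, `cl_le`, `cl_diag`. -/
theorem w1_gen {A : Type} [NonUnitalCStarAlgebra A] {p e : A} (hp : p * p = p) (hps : star p = p) (he : e * e = e)
    (hes : star e = e) (h : e ∈ Jp p) : Gen (cl ⟨Unit, m1 e, m1_pr he hes⟩ : V A) (cl ⟨Unit, m1 p, m1_pr hp hps⟩) := by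
  obtain ⟨x, ⟨N, a, b, hx⟩, hd⟩ := Metric.mem_closure_iff.1 h 1 one_pos
  have hne := w1c_norm he hes
  have hn : ‖e - e * x * e‖ < 1 := by
    have h1 : e - e * x * e = e * (e - x) * e := by
      rw [mul_sub, sub_mul, he, he]
    rw [h1]
    have h2 : ‖e * (e - x) * e‖ ≤ ‖e * (e - x)‖ * 1 :=
      (norm_mul_le _ _).trans (mul_le_mul_of_nonneg_left hne (norm_nonneg _))
    have h3 : ‖e * (e - x)‖ ≤ 1 * ‖e - x‖ :=
      (norm_mul_le _ _).trans (mul_le_mul_of_nonneg_right hne (norm_nonneg _))
    rw [dist_eq_norm] at hd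
    linarith
  obtain ⟨k, hk⟩ := w1c_inv (e := e) (t := e * x * e) (by rw [← mul_assoc, ← mul_assoc, he]) he hn
  refine ⟨N, ?_⟩
  rw [← cl_diag (m1_pr hp hps) N, cl_le]
  exact w1c_sub hp hps he hes hx hk

end Pool.H71W
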