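import Pool.Agent.Lib.H71W.W2B

/-!
# Project H71W, W2C (M): approximate units of projections, a finite family
-/

namespace Pool.H71W

/-- The norm of a projection is at most one. -/
theorem w2c_norm {R : Type} [CStarAlgebra R] {p : R} (hp : p * p = p) (hs : star p = p) : ‖p‖ ≤ 1 := by
  have h1 : ‖p‖ * ‖p‖ = ‖p‖ := by
    have h := CStarRing.norm_star_mul_self (x := p)
    rw [hs, hp] at h
    exact h.symm
  nlinarith [norm_nonneg p]

/-- The estimate for one element `y` with `y y* ≤ h`. -/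
theorem w2c_one {R : Type} [CStarAlgebra R] [PartialOrder R] [StarOrderedRing R] {e y h : R} (he : e * e = e)
    (hes : star e = e) (hy : y * star y ≤ h) {ε : ℝ} (hε : 0 < ε) (hh : ‖(1 - e) * h‖ < ε ^ 2) :
    ‖(1 - e) * y‖ < ε := by
  have hq : (1 - e) * (1 - e) = 1 - e := by
    rw [sub_mul, one_mul, mul_sub, mul_one, he, sub_self, sub_zero]
  have hqs : star (1 - e) = 1 - e := by rw [star_sub, star_one, hes]
  have h1 : ‖(1 - e) * y‖ * ‖(1 - e) * y‖ = ‖(1 - e) * (y * star y) * star (1 - e)‖ := by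
    rw [← CStarRing.norm_self_mul_star (x := (1 - e) * y), star_mul]
    simp only [mul_assoc]
  have h2 : ‖(1 - e) * (y * star y) * star (1 - e)‖ ≤ ‖(1 - e) * h * star (1 - e)‖ := by
    refine CStarAlgebra.norm_le_norm_of_nonneg_of_le ?_ (star_right_conjugate_le_conjugate hy _)
    have := star_right_conjugate_nonneg (mul_star_self_nonneg y) (1 - e)
    exact this
  have h3 : ‖(1 - e) * h * star (1 - e)‖ ≤ ‖(1 - e) * h‖ := by
    refine (norm_mul_le _ _).trans ?_
    rw [hqs]
    exact mul_le_of_le_one_right (norm_nonneg _) (w2c_norm hq hqs)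
  nlinarith [norm_nonneg ((1 - e) * y)]

theorem w2c_sum {R : Type} [CStarAlgebra R] {J : Set R} (hJ : ClId J) {N : Type} (s : Finset N) (x : N → R)
    (hx : ∀ k, x k ∈ J) : ∑ k ∈ s, x k ∈ J := by
  classical
  induction s using Finset.induction_on with
  | empty => simpa using hJ.zero
  | insert a s ha ih =>
    rw [Finset.sum_insert ha]
    exact hJ.add _ (hx a) _ ih

/-- **W2c (M).** Proof. `h = ∑ (x k x k* + x k* x k) ∈ J` and `w2_unit` for `ε²`: `‖(1 - e) x k‖² = ‖(1 - e) x k x k* (1 - e)‖ ≤ ‖(1 - e) h (1 - e)‖ < ε²`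
(order: `x k x k* ≤ h`, `CStarAlgebra.norm_le_norm_of_nonneg_of_le`, conjugation `star_right_conjugate_le_conjugate`), `‖x k (1 - e)‖ = ‖(1 - e) x k*‖`.
(`x k x k*, x k* x k ∈ J` because `x k ∈ J`.) -/
theorem w2_family {R : Type} [CStarAlgebra R] (hR : RRU R) {J : Set R} (hJ : ClId J) {N : Type} [Fintype N] (x : N → R)
    (hx : ∀ k, x k ∈ J) {ε : ℝ} (hε : 0 < ε) :
    ∃ e ∈ J, e * e = e ∧ star e = e ∧ ∀ k, ‖(1 - e) * x k‖ < ε ∧ ‖x k * (1 - e)‖ < ε := by
  let _ := CStarAlgebra.spectralOrder R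
  let _ := CStarAlgebra.spectralOrderedRing R
  have hJh : ∑ k, (x k * star (x k) + star (x k) * x k) ∈ J :=
    w2c_sum hJ _ _ fun k => hJ.add _ (hJ.mul_right _ _ (hx k)) _ (hJ.mul_left _ _ (hx k))
  have hs : IsSelfAdjoint (∑ k, (x k * star (x k) + star (x k) * x k)) := by
    show star (∑ k, (x k * star (x k) + star (x k) * x k)) = _
    rw [star_sum]
    refine Finset.sum_congr rfl fun k _ => ?_
    rw [star_add, star_mul, star_mul, star_star]
  obtain ⟨e, heJ, he, hes, hn⟩ := w2_unit hR hJ hJh hs (pow_pos hε 2)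
  have hle : ∀ k, x k * star (x k) + star (x k) * x k ≤ ∑ k, (x k * star (x k) + star (x k) * x k) :=
    fun k => Finset.single_le_sum (f := fun k => x k * star (x k) + star (x k) * x k)
      (fun i _ => add_nonneg (mul_star_self_nonneg _) (star_mul_self_nonneg _)) (Finset.mem_univ k)
  refine ⟨e, heJ, he, hes, fun k => ⟨?_, ?_⟩⟩
  · exact w2c_one he hes ((le_add_of_nonneg_right (star_mul_self_nonneg _)).trans (hle k)) hε hn
  · have h1 : ‖(1 - e) * star (x k)‖ < ε := by
      refine w2c_one he hes ?_ hε hn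
      rw [star_star]
      exact (le_add_of_nonneg_left (mul_star_self_nonneg _)).trans (hle k)
    have h2 : ‖x k * (1 - e)‖ = ‖(1 - e) * star (x k)‖ := by
      rw [← norm_star (x k * (1 - e)), star_mul, star_sub, star_one, hes]
    rw [h2]
    exact h1

end Pool.H71W
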