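import Pool.Agent.Lib.H71W.C2B

/-!
# Project H71W, W3A (M): cutting down a partial isometry
-/

namespace Pool.H71W

/-- Projections have norm at most one. -/
theorem w3a_norm {B : Type} [CStarAlgebra B] {e : B} (he : e * e = e) (hes : star e = e) : ‖e‖ ≤ 1 := by
  have h1 : ‖star e * e‖ = ‖e‖ * ‖e‖ := CStarRing.norm_star_mul_self
  rw [hes, he] at h1
  by_contra hc
  push Not at hc
  nlinarith [norm_nonneg e]

/-- If `v* v = P` is a projection then `v P = v`. -/
theorem w3a_right {B : Type} [CStarAlgebra B] {P v : B} (hP : P * P = P) (hPs : star P = P) (h1 : star v * v = P) :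
    v * P = v := by
  have h0 : star (v - v * P) * (v - v * P) = 0 := by
    rw [star_sub, star_mul, hPs]
    have : (star v - P * star v) * (v - v * P) = star v * v - (star v * v) * P - P * (star v * v) + P * (star v * v) * P := by
      noncomm_ring
    rw [this, h1, hP, hP]; simp
  have h2 : v - v * P = 0 := by
    rwa [CStarRing.star_mul_self_eq_zero_iff] at h0
  exact (sub_eq_zero.mp h2).symm

/-- **W3a (M): cutting down** (one C*-algebra). Proof. `y = (Q - F) v (P - F)`. `y* y = (P - F) - (P - F) v* F v (P - F)` and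
`F v (P - F) = (F v - v F)(P - F)` (`F (P - F) = 0`), so `‖y* y - (P - F)‖ ≤ 1/4`; `y y* = (Q - F) - (Q - F) v F v* (Q - F)`, `‖(Q - F) v F‖ = ‖(Q - F)(v F - F v)‖`.
So `k = y* y + (1 - (P - F))` is invertible and commutes with `P - F`; `x = k⁻¹ (P - F) y*`, `x y = P - F`; `y x` is an idempotent with
`(y x)(y y*) = y y*` and `l = y y* + (1 - (Q - F))` is invertible, so `y x = Q - F`. `c2_ae`. (`v P = v = Q v`.) -/
theorem w3_cut {B : Type} [CStarAlgebra B] (P Q F v : B) (hP : P * P = P) (hPs : star P = P) (hQ : Q * Q = Q) (hQs : star Q = Q)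
    (hF : F * F = F) (hFs : star F = F) (hPF : P * F = F) (hQF : Q * F = F) (h1 : star v * v = P) (h2 : v * star v = Q)
    (hv : ‖F * v - v * F‖ ≤ 1 / 2) : ∃ w : B, star w * w = P - F ∧ w * star w = Q - F := by
  have hvP : v * P = v := w3a_right hP hPs h1
  have hFP : F * P = F := by
    have := congrArg star hPF
    rwa [star_mul, hPs, hFs] at this
  have hFQ : F * Q = F := by
    have := congrArg star hQF
    rwa [star_mul, hQs, hFs] at this
  obtain ⟨a, ha⟩ : ∃ a, a = P - F := ⟨_, rfl⟩
  obtain ⟨b, hb⟩ : ∃ b, b = Q - F := ⟨_, rfl⟩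
  have haa : a * a = a := by
    rw [ha, sub_mul, mul_sub, mul_sub, hP, hPF, hFP, hF]; simp
  have hbb : b * b = b := by
    rw [hb, sub_mul, mul_sub, mul_sub, hQ, hQF, hFQ, hF]; simp
  have has : star a = a := by rw [ha, star_sub, hPs, hFs]
  have hbs : star b = b := by rw [hb, star_sub, hQs, hFs]
  have hFa : F * a = 0 := by rw [ha, mul_sub, hFP, hF, sub_self]
  have hbF : b * F = 0 := by rw [hb, sub_mul, hQF, hF, sub_self]
  have han : ‖a‖ ≤ 1 := w3a_norm haa has
  have hbn : ‖b‖ ≤ 1 := w3a_norm hbb hbs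
  have haP : a * P = a := by rw [ha, sub_mul, hP, hFP]
  have hbQ : b * Q = b := by rw [hb, sub_mul, hQ, hFQ]
  obtain ⟨y, hy⟩ : ∃ y, y = b * v * a := ⟨_, rfl⟩
  have hys : star y = a * star v * b := by
    rw [hy, star_mul, star_mul, has, hbs, mul_assoc]
  have hya : y * a = y := by rw [hy, mul_assoc, haa]
  have hby : b * y = y := by rw [hy, ← mul_assoc, ← mul_assoc, hbb]
  have hays : a * star y = star y := by rw [hys, ← mul_assoc, ← mul_assoc, haa]
  have hysb : star y * b = star y := by rw [hys, mul_assoc, hbb]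
  -- `y* y`
  have m1 : star y * y = a - star (F * v * a) * (F * v * a) := by
    have e1 : star (F * v * a) = a * star v * F := by
      rw [star_mul, star_mul, has, hFs, mul_assoc]
    rw [hys, hy, e1]
    have e2 : a * star v * b * (b * v * a) = a * star v * (b * b) * v * a := by noncomm_ring
    have e3 : a * star v * F * (F * v * a) = a * star v * (F * F) * v * a := by noncomm_ring
    rw [e2, e3, hbb, hF, hb]
    have e4 : a * star v * (Q - F) * v * a = a * (star v * (Q * v)) * a - a * star v * F * v * a := by noncomm_ring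
    have e5 : Q * v = v := by rw [← h2, mul_assoc, h1, hvP]
    rw [e4, e5, h1, haP, haa]
  have m2 : F * v * a = (F * v - v * F) * a := by
    rw [sub_mul, mul_assoc v F a, hFa, mul_zero, sub_zero]
  have m3 : ‖F * v * a‖ ≤ 1 / 2 := by
    rw [m2]
    calc ‖(F * v - v * F) * a‖ ≤ ‖F * v - v * F‖ * ‖a‖ := norm_mul_le _ _
      _ ≤ (1 / 2) * 1 := by gcongr
      _ = 1 / 2 := by norm_num
  have m4 : ‖a - star y * y‖ < 1 := by
    rw [m1, sub_sub_cancel, CStarRing.norm_star_mul_self]
    nlinarith [norm_nonneg (F * v * a)]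
  -- `y y*`
  have n1 : y * star y = b - (b * v * F) * star (b * v * F) := by
    have e1 : star (b * v * F) = F * star v * b := by
      rw [star_mul, star_mul, hbs, hFs, mul_assoc]
    rw [hys, hy, e1]
    have e2 : b * v * a * (a * star v * b) = b * v * (a * a) * star v * b := by noncomm_ring
    have e3 : b * v * F * (F * star v * b) = b * v * (F * F) * star v * b := by noncomm_ring
    rw [e2, e3, haa, hF, ha]
    have e4 : b * v * (P - F) * star v * b = b * ((v * P) * star v) * b - b * v * F * star v * b := by noncomm_ring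
    rw [e4, hvP, h2, hbQ, hbb]
  have n2 : b * v * F = b * (v * F - F * v) := by
    rw [mul_sub, ← mul_assoc b F v, hbF, zero_mul, sub_zero, mul_assoc]
  have n3 : ‖b * v * F‖ ≤ 1 / 2 := by
    rw [n2]
    have hv' : ‖v * F - F * v‖ ≤ 1 / 2 := by rw [norm_sub_rev]; exact hv
    calc ‖b * (v * F - F * v)‖ ≤ ‖b‖ * ‖v * F - F * v‖ := norm_mul_le _ _
      _ ≤ 1 * (1 / 2) := by gcongr
      _ = 1 / 2 := by norm_num
  have n4 : ‖b - y * star y‖ < 1 := by
    rw [n1, sub_sub_cancel, CStarRing.norm_self_mul_star]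
    nlinarith [norm_nonneg (b * v * F)]
  -- the units
  obtain ⟨k, hk⟩ : ∃ k : Bˣ, (k : B) = 1 - (a - star y * y) := ⟨Units.oneSub _ m4, Units.val_oneSub _ _⟩
  obtain ⟨l, hl⟩ : ∃ l : Bˣ, (l : B) = 1 - (b - y * star y) := ⟨Units.oneSub _ n4, Units.val_oneSub _ _⟩
  have k1 : (k : B) * a = star y * y := by
    rw [hk, sub_mul, sub_mul, one_mul, haa, mul_assoc, hya]; simp
  have l1 : b * (l : B) = y * star y := by
    rw [hl, mul_sub, mul_sub, mul_one, hbb, ← mul_assoc, hby]; simp
  have xy : ((k⁻¹ : Bˣ) : B) * star y * y = a := by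
    rw [mul_assoc, ← k1, ← mul_assoc, Units.inv_mul, one_mul]
  have yx : y * (((k⁻¹ : Bˣ) : B) * star y) = b := by
    have e1 : y * (((k⁻¹ : Bˣ) : B) * star y) * (l : B) = b * (l : B) := by
      rw [l1, hl]
      have e2 : y * (((k⁻¹ : Bˣ) : B) * star y) * (1 - (b - y * star y))
          = y * (((k⁻¹ : Bˣ) : B) * (star y - star y * b)) + y * ((((k⁻¹ : Bˣ) : B) * star y * y) * star y) := by
        noncomm_ring
      rw [e2, hysb, xy, hays]; simp
    exact (Units.mul_left_inj l).mp e1
  exact c2_ae a b (((k⁻¹ : Bˣ) : B) * star y) y haa has hbb hbs xy yx |>.imp fun w hw => by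
    rw [← ha, ← hb]; exact hw

end Pool.H71W
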