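import Pool.Agent.Lib.H71W.Defs

/-!
# Project H71W, W3N (M): the norm of a matrix over a C*-algebra is at most the sum of the norms of its entries
-/

namespace Pool.H71W

open scoped InnerProductSpace in
open WithCStarModule CStarMatrix in
/-- **W3N (M).** Proof. `M = ∑ i j, M i j E i j`, so it is enough that a matrix with one nonzero entry `a` (at `i, j`) has norm `≤ ‖a‖`: its `x* x` has the
only entry `a* a` at `(j, j)`; the map `b ↦ E j j b` is a non-unital *-homomorphism from `R`, so it is contractive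
(`NonUnitalStarAlgHom.norm_apply_le`), `‖x‖² = ‖x* x‖ ≤ ‖a* a‖ = ‖a‖²`. (Or use the norm of `CStarMatrix` as an operator norm, see
`CStarMatrix.norm_def`.) -/
theorem w3_norm {R : Type} [CStarAlgebra R] [PartialOrder R] [StarOrderedRing R] {ι : Type} [Fintype ι] [DecidableEq ι]
    (M : CStarMatrix ι ι R) : ‖M‖ ≤ ∑ i, ∑ j, ‖M i j‖ := by
  obtain ⟨C, hC⟩ : ∃ C : NNReal, (C : ℝ) = ∑ i, ∑ j, ‖M i j‖ :=
    ⟨⟨∑ i, ∑ j, ‖M i j‖, Finset.sum_nonneg fun _ _ => Finset.sum_nonneg fun _ _ => norm_nonneg _⟩, rfl⟩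
  rw [← hC]
  refine CStarMatrix.norm_le_of_forall_inner_le fun v w => ?_
  have e1 : ⟪w, toCLM M v⟫_R = ∑ j, (∑ i, v i * M i j) * star (w j) := by
    rw [toCLM_apply_eq_sum, pi_inner]
    rfl
  rw [e1, hC]
  calc ‖∑ j, (∑ i, v i * M i j) * star (w j)‖ ≤ ∑ j, ‖(∑ i, v i * M i j) * star (w j)‖ := norm_sum_le _ _
    _ ≤ ∑ j, ∑ i, ‖v‖ * ‖M i j‖ * ‖w‖ := by
        refine Finset.sum_le_sum fun j _ => ?_
        refine (norm_mul_le _ _).trans ?_
        rw [← Finset.sum_mul, norm_star]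
        refine mul_le_mul ?_ (norm_apply_le_norm w j) (norm_nonneg _) (Finset.sum_nonneg fun _ _ => by positivity)
        refine (norm_sum_le _ _).trans (Finset.sum_le_sum fun i _ => (norm_mul_le _ _).trans ?_)
        exact mul_le_mul_of_nonneg_right (norm_apply_le_norm v i) (norm_nonneg _)
    _ = (∑ i, ∑ j, ‖M i j‖) * ‖v‖ * ‖w‖ := by
        rw [Finset.sum_comm]
        rw [Finset.sum_mul, Finset.sum_mul]
        refine Finset.sum_congr rfl fun i _ => ?_
        rw [Finset.sum_mul, Finset.sum_mul]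
        refine Finset.sum_congr rfl fun j _ => ?_
        ring

end Pool.H71W
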