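import Pool.Agent.Lib.H71W.Defs

/-!
# Project H71W, W3S (S/M): the scalar parts of the first row and the first column vanish
-/

open scoped Matrix

namespace Pool.H71W

theorem w3s_zero {n : ℕ} (f : Fin n → ℂ) (h : ∑ k, star (f k) * f k = 0) (k : Fin n) : f k = 0 := by
  have h1 : ∑ k, Complex.normSq (f k) = 0 := by
    have h2 : ((∑ k, Complex.normSq (f k) : ℝ) : ℂ) = 0 := by
      rw [Complex.ofReal_sum, ← h]
      exact Finset.sum_congr rfl fun k _ => Complex.normSq_eq_conj_mul_self
    exact_mod_cast h2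
  exact Complex.normSq_eq_zero.1 ((Finset.sum_eq_zero_iff_of_nonneg fun k _ => Complex.normSq_nonneg _).1 h1 k (Finset.mem_univ k))

theorem w3s_sum {A : Type} [NonUnitalCStarAlgebra A] {n : ℕ} (f : Fin n → Unitization ℂ A) :
    (∑ k, f k).fst = ∑ k, (f k).fst := map_sum (Unitization.fstHom ℂ A) f Finset.univ

/-- **W3S (S/M).** Proof. `s i j = (v i j).fst`. The `(0, 0)` entry of `v* v = diag(p, 1, …, 1)` has the scalar part `∑ i, |s i 0|² = 0`, the one of
`v v*` has `∑ j, |s 0 j|² = 0` (`Unitization.fst_mul`, `Unitization.fst_star`, `Unitization.fst_inr`, `Unitization.fstHom`). -/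
theorem w3_scalar {A : Type} [NonUnitalCStarAlgebra A] (p q : A) (n : ℕ)
    (v : Matrix (Fin (n + 1)) (Fin (n + 1)) (Unitization ℂ A))
    (h1 : vᴴ * v = Matrix.diagonal (fun i => if i = 0 then (Unitization.inr p : Unitization ℂ A) else 1))
    (h2 : v * vᴴ = Matrix.diagonal (fun i => if i = 0 then (Unitization.inr q : Unitization ℂ A) else 1)) (i : Fin (n + 1)) :
    (v i 0).fst = 0 ∧ (v 0 i).fst = 0 := by
  constructor
  · have h3 := congrArg (fun m => (m 0 0).fst) h1
    simp only [Matrix.mul_apply, Matrix.conjTranspose_apply, Matrix.diagonal_apply_eq, if_true, Unitization.fst_inr] at h3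
    rw [w3s_sum] at h3
    exact w3s_zero (fun k => (v k 0).fst) h3 i
  · have h3 := congrArg (fun m => (m 0 0).fst) h2
    simp only [Matrix.mul_apply, Matrix.conjTranspose_apply, Matrix.diagonal_apply_eq, if_true, Unitization.fst_inr] at h3
    rw [w3s_sum] at h3
    refine w3s_zero (fun k => (v 0 k).fst) ?_ i
    rw [← h3]
    exact Finset.sum_congr rfl fun k _ => mul_comm _ _

end Pool.H71W
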