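import Pool.Agent.Lib.H71W.C3
import Pool.Agent.Lib.H71W.C5
import Pool.Agent.Lib.H71W.C1A
import Pool.Agent.Lib.H71W.W2C
import Pool.Agent.Lib.H71W.W3A
import Pool.Agent.Lib.H71W.W3S
import Pool.Agent.Lib.H71W.W3N

/-!
# Project H71W, W3B (M): the matrix form
-/

open scoped Matrix

namespace Pool.H71W

/-- The ideal of the unitization. -/
theorem w3b_ideal {A : Type} [NonUnitalCStarAlgebra A] {J : Set A} (h0 : (0 : A) ∈ J)
    (hadd : ∀ x ∈ J, ∀ y ∈ J, x + y ∈ J) (hl : ∀ a, ∀ x ∈ J, a * x ∈ J) (hr : ∀ a, ∀ x ∈ J, x * a ∈ J)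
    (hsm : ∀ (c : ℂ), ∀ x ∈ J, c • x ∈ J) (hc : IsClosed J) :
    ClId {x : Unitization ℂ A | x.fst = 0 ∧ x.snd ∈ J} where
  zero := ⟨Unitization.fst_zero, by rw [Unitization.snd_zero]; exact h0⟩
  add := by
    rintro x ⟨hx1, hx2⟩ y ⟨hy1, hy2⟩
    refine ⟨?_, ?_⟩
    · rw [Unitization.fst_add, hx1, hy1, add_zero]
    · rw [Unitization.snd_add]
      exact hadd _ hx2 _ hy2
  mul_left := by
    rintro a x ⟨hx1, hx2⟩
    refine ⟨?_, ?_⟩
    · rw [Unitization.fst_mul, hx1, mul_zero]
    · rw [Unitization.snd_mul, hx1, zero_smul, add_zero]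
      exact hadd _ (hsm _ _ hx2) _ (hl _ _ hx2)
  mul_right := by
    rintro a x ⟨hx1, hx2⟩
    refine ⟨?_, ?_⟩
    · rw [Unitization.fst_mul, hx1, zero_mul]
    · rw [Unitization.snd_mul, hx1, zero_smul, zero_add]
      exact hadd _ (hsm _ _ hx2) _ (hr _ _ hx2)
  closed := by
    have h1 : IsClosed {x : Unitization ℂ A | x.fst = 0} := isClosed_eq Unitization.continuous_fst continuous_const
    have h2 : IsClosed {x : Unitization ℂ A | x.snd ∈ J} := hc.preimage Unitization.continuous_snd
    exact h1.inter h2

theorem w3b_entry {A : Type} [NonUnitalCStarAlgebra A] (e0 v f g : Unitization ℂ A) {ε : ℝ} (hε : 0 ≤ ε)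
    (h1 : ‖(1 - e0) * (Unitization.inr v.snd : Unitization ℂ A)‖ ≤ ε)
    (h2 : ‖(Unitization.inr v.snd : Unitization ℂ A) * (1 - e0)‖ ≤ ε)
    (hf : f = 0 ∨ f = 1 - e0) (hg : g = 0 ∨ g = 1 - e0) (hs : f = g ∨ v.fst = 0) :
    ‖f * v - v * g‖ ≤ 2 * ε := by
  have e1 : f * v - v * g = f * (Unitization.inr v.snd : Unitization ℂ A) - (Unitization.inr v.snd : Unitization ℂ A) * g := by
    have h3 : f * (Unitization.inl v.fst : Unitization ℂ A) - (Unitization.inl v.fst : Unitization ℂ A) * g = 0 := by
      rcases hs with h | h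
      · rw [h, sub_eq_zero]
        have h4 : (Unitization.inl v.fst : Unitization ℂ A) = algebraMap ℂ (Unitization ℂ A) v.fst := rfl
        rw [h4]
        exact (Algebra.commutes v.fst g).symm
      · rw [h, Unitization.inl_zero, mul_zero, zero_mul, sub_zero]
    calc f * v - v * g = f * ((Unitization.inl v.fst : Unitization ℂ A) + Unitization.inr v.snd) -
          ((Unitization.inl v.fst : Unitization ℂ A) + Unitization.inr v.snd) * g := by
          rw [Unitization.inl_fst_add_inr_snd_eq]
      _ = (f * (Unitization.inl v.fst : Unitization ℂ A) - (Unitization.inl v.fst : Unitization ℂ A) * g) +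
          (f * (Unitization.inr v.snd : Unitization ℂ A) - (Unitization.inr v.snd : Unitization ℂ A) * g) := by
          noncomm_ring
      _ = _ := by rw [h3, zero_add]
  rw [e1]
  refine (norm_sub_le _ _).trans ?_
  have a1 : ‖f * (Unitization.inr v.snd : Unitization ℂ A)‖ ≤ ε := by
    rcases hf with h | h
    · rw [h, zero_mul, norm_zero]
      exact hε
    · rw [h]
      exact h1
  have a2 : ‖(Unitization.inr v.snd : Unitization ℂ A) * g‖ ≤ ε := by
    rcases hg with h | h
    · rw [h, mul_zero, norm_zero]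
      exact hε
    · rw [h]
      exact h2
  linarith

/-- **W3b (M): the matrix form.** `v` over `R = Unitization ℂ A` with `v* v = diag(p, 1, …, 1)`, `v v* = diag(q, 1, …, 1)`, entries of `v` have their `A`-part in
`J`. Proof. The scalar parts `s i j = (v i j).fst`: `s i 0 = s 0 j = 0` (`w3_scalar`). `w2_family` for the ideal
`{x : R | x.fst = 0 ∧ x.snd ∈ J}` of `R` and the elements `inr (v i j).snd`, with `ε` small with respect to `n`: a projection `e ∈ J`
(`e = inr e'`). `F = diag(0, 1 - e, …, 1 - e)`: `F v - v F` has the entries `(1 - e) x i j - x i j (1 - e)` (up to zeros in the row and the column `0`,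
`x i j = inr (v i j).snd`, scalars commute with `1 - e`), so its norm in `CStarMatrix` is `≤ ∑ ‖entries‖ ≤ 1/2` (`w3_norm`). `w3_cut` in `CStarMatrix (Fin (n + 1)) (Fin (n + 1)) R`: `diag(p, e, …, e) ~ diag(q, e, …, e)`. -/
theorem w3_mat {A : Type} [NonUnitalCStarAlgebra A] (hA : RR0 A) {J : Set A} (h0 : (0 : A) ∈ J)
    (hadd : ∀ x ∈ J, ∀ y ∈ J, x + y ∈ J) (hl : ∀ a, ∀ x ∈ J, a * x ∈ J) (hr : ∀ a, ∀ x ∈ J, x * a ∈ J)
    (hsm : ∀ (c : ℂ), ∀ x ∈ J, c • x ∈ J) (hc : IsClosed J)
    (p q : A) (hp : p * p = p) (hps : star p = p) (hq : q * q = q) (hqs : star q = q) (n : ℕ)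
    (v : Matrix (Fin (n + 1)) (Fin (n + 1)) (Unitization ℂ A)) (hv : ∀ i j, (v i j).snd ∈ J)
    (h1 : vᴴ * v = Matrix.diagonal (fun i => if i = 0 then (Unitization.inr p : Unitization ℂ A) else 1))
    (h2 : v * vᴴ = Matrix.diagonal (fun i => if i = 0 then (Unitization.inr q : Unitization ℂ A) else 1)) :
    ∃ e : A, e * e = e ∧ star e = e ∧ e ∈ J ∧
      Equi (Matrix.diagonal (fun i : Fin (n + 1) => if i = 0 then (Unitization.inr p : Unitization ℂ A) else Unitization.inr e))
        (Matrix.diagonal (fun i : Fin (n + 1) => if i = 0 then (Unitization.inr q : Unitization ℂ A) else Unitization.inr e)) := by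
  let _ := CStarAlgebra.spectralOrder (Unitization ℂ A)
  have _ := CStarAlgebra.spectralOrderedRing (Unitization ℂ A)
  have hN : (0 : ℝ) < (n + 1 : ℕ) := by positivity
  obtain ⟨ε, hε⟩ : ∃ ε : ℝ, ε = 1 / (4 * ((n + 1 : ℕ) : ℝ) ^ 2) := ⟨_, rfl⟩
  have hε0 : 0 < ε := by rw [hε]; positivity
  obtain ⟨e0, ⟨he1, he2⟩, he3, he4, he5⟩ := w2_family (c1_unitization hA) (w3b_ideal h0 hadd hl hr hsm hc)
    (fun k : Fin (n + 1) × Fin (n + 1) => (Unitization.inr (v k.1 k.2).snd : Unitization ℂ A))
    (fun k => ⟨Unitization.fst_inr ℂ _, by rw [Unitization.snd_inr]; exact hv _ _⟩) hε0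
  have he0 : (Unitization.inr e0.snd : Unitization ℂ A) = e0 := by
    conv_rhs => rw [← Unitization.inl_fst_add_inr_snd_eq e0, he1, Unitization.inl_zero, zero_add]
  have hF2 : (1 - e0) * (1 - e0) = 1 - e0 := by
    have : (1 - e0) * (1 - e0) = 1 - e0 - e0 + e0 * e0 := by noncomm_ring
    rw [this, he3]
    noncomm_ring
  refine ⟨e0.snd, ?_, ?_, he2, ?_⟩
  · have := congrArg (fun x : Unitization ℂ A => x.snd) he3
    simp only [Unitization.snd_mul, he1, zero_smul, zero_add] at this
    exact this
  · have := congrArg (fun x : Unitization ℂ A => x.snd) he4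
    simp only [Unitization.snd_star] at this
    exact this
  · rw [he0]
    have hdd : ∀ (x y : Fin (n + 1) → Unitization ℂ A), Matrix.diagonal x * Matrix.diagonal y = Matrix.diagonal (fun i => x i * y i) :=
      fun x y => Matrix.diagonal_mul_diagonal x y
    have hipp : (Unitization.inr p : Unitization ℂ A) * Unitization.inr p = Unitization.inr p := by
      rw [← Unitization.inr_mul, hp]
    have hiqq : (Unitization.inr q : Unitization ℂ A) * Unitization.inr q = Unitization.inr q := by
      rw [← Unitization.inr_mul, hq]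
    have hips : star (Unitization.inr p : Unitization ℂ A) = Unitization.inr p := by
      rw [← Unitization.inr_star, hps]
    have hiqs : star (Unitization.inr q : Unitization ℂ A) = Unitization.inr q := by
      rw [← Unitization.inr_star, hqs]
    have hFs : star (1 - e0) = 1 - e0 := by rw [star_sub, star_one, he4]
    -- the four matrices
    obtain ⟨PM, hPM⟩ : ∃ PM : Matrix (Fin (n + 1)) (Fin (n + 1)) (Unitization ℂ A),
      PM = Matrix.diagonal (fun i => if i = 0 then (Unitization.inr p : Unitization ℂ A) else 1) := ⟨_, rfl⟩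
    obtain ⟨QM, hQM⟩ : ∃ QM : Matrix (Fin (n + 1)) (Fin (n + 1)) (Unitization ℂ A),
      QM = Matrix.diagonal (fun i => if i = 0 then (Unitization.inr q : Unitization ℂ A) else 1) := ⟨_, rfl⟩
    obtain ⟨FM, hFM⟩ : ∃ FM : Matrix (Fin (n + 1)) (Fin (n + 1)) (Unitization ℂ A),
      FM = Matrix.diagonal (fun i => if i = 0 then (0 : Unitization ℂ A) else 1 - e0) := ⟨_, rfl⟩
    have pPP : PM * PM = PM := by
      rw [hPM, hdd]
      congr 1
      funext i
      split_ifs
      · exact hipp
      · exact one_mul _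
    have pQQ : QM * QM = QM := by
      rw [hQM, hdd]
      congr 1
      funext i
      split_ifs
      · exact hiqq
      · exact one_mul _
    have pFF : FM * FM = FM := by
      rw [hFM, hdd]
      congr 1
      funext i
      split_ifs
      · exact zero_mul _
      · exact hF2
    have pPF : PM * FM = FM := by
      rw [hPM, hFM, hdd]
      congr 1
      funext i
      split_ifs
      · exact mul_zero _
      · exact one_mul _
    have pQF : QM * FM = FM := by
      rw [hQM, hFM, hdd]
      congr 1
      funext i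
      split_ifs
      · exact mul_zero _
      · exact one_mul _
    have sP : PMᴴ = PM := by
      rw [hPM, Matrix.diagonal_conjTranspose]
      congr 1
      funext i
      rw [Pi.star_apply]
      split_ifs
      · exact hips
      · exact star_one _
    have sQ : QMᴴ = QM := by
      rw [hQM, Matrix.diagonal_conjTranspose]
      congr 1
      funext i
      rw [Pi.star_apply]
      split_ifs
      · exact hiqs
      · exact star_one _
    have sF : FMᴴ = FM := by
      rw [hFM, Matrix.diagonal_conjTranspose]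
      congr 1
      funext i
      rw [Pi.star_apply]
      split_ifs
      · exact star_zero _
      · exact hFs
    have dP : PM - FM = Matrix.diagonal (fun i : Fin (n + 1) => if i = 0 then (Unitization.inr p : Unitization ℂ A) else e0) := by
      rw [hPM, hFM, Matrix.diagonal_sub]
      congr 1
      funext i
      split_ifs
      · exact sub_zero _
      · exact sub_sub_cancel _ _
    have dQ : QM - FM = Matrix.diagonal (fun i : Fin (n + 1) => if i = 0 then (Unitization.inr q : Unitization ℂ A) else e0) := by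
      rw [hQM, hFM, Matrix.diagonal_sub]
      congr 1
      funext i
      split_ifs
      · exact sub_zero _
      · exact sub_sub_cancel _ _
    have hnorm : ‖(CStarMatrix.ofMatrix (FM * v - v * FM) : CStarMatrix (Fin (n + 1)) (Fin (n + 1)) (Unitization ℂ A))‖ ≤ 1 / 2 := by
      refine (w3_norm _).trans ?_
      have hent : ∀ i j, ‖(FM * v - v * FM) i j‖ ≤ 2 * ε := by
        intro i j
        have e2 : (FM * v - v * FM) i j = (if i = 0 then (0 : Unitization ℂ A) else 1 - e0) * v i j -
            v i j * (if j = 0 then (0 : Unitization ℂ A) else 1 - e0) := by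
          rw [Matrix.sub_apply, hFM, Matrix.diagonal_mul, Matrix.mul_diagonal]
        rw [e2]
        refine w3b_entry e0 (v i j) _ _ hε0.le (he5 (i, j)).1.le (he5 (i, j)).2.le ?_ ?_ ?_
        · split_ifs
          · exact Or.inl rfl
          · exact Or.inr rfl
        · split_ifs
          · exact Or.inl rfl
          · exact Or.inr rfl
        · by_cases hi : i = 0
          · right
            rw [hi]
            exact (w3_scalar p q n v h1 h2 j).2
          · by_cases hj : j = 0
            · right
              rw [hj]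
              exact (w3_scalar p q n v h1 h2 i).1
            · left
              rw [if_neg hi, if_neg hj]
      calc ∑ i, ∑ j, ‖(CStarMatrix.ofMatrix (FM * v - v * FM) : CStarMatrix (Fin (n + 1)) (Fin (n + 1)) (Unitization ℂ A)) i j‖
          ≤ ∑ _i : Fin (n + 1), ∑ _j : Fin (n + 1), 2 * ε :=
            Finset.sum_le_sum fun i _ => Finset.sum_le_sum fun j _ => hent i j
        _ = 1 / 2 := by
            simp only [Finset.sum_const, Finset.card_univ, Fintype.card_fin, nsmul_eq_mul]
            rw [hε]
            field_simp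
            norm_num
    obtain ⟨w, hw1, hw2⟩ := w3_cut (B := CStarMatrix (Fin (n + 1)) (Fin (n + 1)) (Unitization ℂ A))
      (CStarMatrix.ofMatrix PM) (CStarMatrix.ofMatrix QM) (CStarMatrix.ofMatrix FM) (CStarMatrix.ofMatrix v)
      pPP sP pQQ sQ pFF sF pPF pQF (by rw [hPM]; exact h1) (by rw [hQM]; exact h2) hnorm
    rw [← dP, ← dQ]
    exact ⟨CStarMatrix.ofMatrix.symm w, hw1, hw2⟩

end Pool.H71W
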