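import Pool.Agent.Lib.H71W.W1
import Pool.Agent.Lib.H71W.V3B

/-!
# Project H71W, W3C (S/M): the class of a diagonal matrix of projections
-/

open scoped Matrix

namespace Pool.H71W

/-- The index bijection. -/
def w3c_e (o : Type) : ((_ : o) × Unit) ≃ o where
  toFun x := x.1
  invFun j := ⟨j, ()⟩
  left_inv := by
    rintro ⟨i, ⟨⟩⟩
    rfl
  right_inv := fun _ => rfl

/-- **W3c (S/M): the class of `diag(p, e, …, e)`** is `cl p + n • cl e` (`up` and `cl_sum`, or reindexing of `fromBlocks` and `cl_diag`). -/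
theorem w3_class {A : Type} [NonUnitalCStarAlgebra A] (p e : A) (hp : p * p = p) (hps : star p = p) (he : e * e = e)
    (hes : star e = e) (n : ℕ) : ∃ h : IsPr (Matrix.diagonal (fun i : Fin (n + 1) => if i = 0 then p else e)),
      cl ⟨Fin (n + 1), Matrix.diagonal (fun i : Fin (n + 1) => if i = 0 then p else e), h⟩ =
        (cl ⟨Unit, m1 p, m1_pr hp hps⟩ : V A) + n • cl ⟨Unit, m1 e, m1_pr he hes⟩ := by
  set d : Fin (n + 1) → A := fun i => if i = 0 then p else e with hd
  have hd1 : ∀ i, d i * d i = d i := by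
    intro i
    simp only [hd]
    split_ifs <;> assumption
  have hd2 : ∀ i, star (d i) = d i := by
    intro i
    simp only [hd]
    split_ifs <;> assumption
  have h : IsPr (Matrix.diagonal d) := by
    refine ⟨?_, ?_⟩
    · rw [Matrix.diagonal_mul_diagonal]
      exact congrArg Matrix.diagonal (funext fun i => hd1 i)
    · rw [Matrix.diagonal_conjTranspose]
      exact congrArg Matrix.diagonal (funext fun i => hd2 i)
  refine ⟨h, ?_⟩
  have hq : ∀ j, IsPr (m1 (d j)) := fun j => m1_pr (hd1 j) (hd2 j)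
  have h1 := cl_diag' (o := Fin (n + 1)) (κ := fun _ => Unit) (q := fun j => m1 (d j)) hq
  have h2 : cl ⟨Unit, m1 (d 0), hq 0⟩ = (cl ⟨Unit, m1 p, m1_pr hp hps⟩ : V A) := v3_cl (by simp [hd]) _ _
  have h3 : ∀ i : Fin n, cl ⟨Unit, m1 (d i.succ), hq i.succ⟩ = (cl ⟨Unit, m1 e, m1_pr he hes⟩ : V A) :=
    fun i => v3_cl (by simp [hd, Fin.succ_ne_zero]) _ _
  rw [Fin.sum_univ_succ, h2, Finset.sum_congr rfl (fun i _ => h3 i), Finset.sum_const, Finset.card_univ, Fintype.card_fin] at h1
  rw [← h1]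
  refine (cl_eq.2 ?_).symm
  have h4 := Equi.reindex (IsPr.diag' (o := Fin (n + 1)) (κ := fun _ => Unit) (q := fun j => m1 (d j)) hq) (w3c_e (Fin (n + 1)))
  have h5 : (Matrix.blockDiagonal' fun j : Fin (n + 1) => m1 (d j)).submatrix (w3c_e (Fin (n + 1))).symm (w3c_e (Fin (n + 1))).symm =
      Matrix.diagonal d := by
    ext i j
    by_cases hij : i = j
    · subst hij
      rw [Matrix.diagonal_apply_eq]
      exact Matrix.blockDiagonal'_apply_eq (fun j : Fin (n + 1) => m1 (d j)) i () ()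
    · rw [Matrix.diagonal_apply_ne _ hij]
      exact Matrix.blockDiagonal'_apply_ne (fun j : Fin (n + 1) => m1 (d j)) () () hij
  rw [h5] at h4
  exact h4

end Pool.H71W
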