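import Pool.Agent.Lib.H71W.UDefs
import Pool.Agent.Lib.H71W.M3
import Pool.Agent.Lib.H71W.C5B
import Pool.Agent.Lib.H71W.W1A
import Pool.Agent.Lib.H71W.W1B
import Pool.Agent.Lib.H71W.W1C
import Pool.Agent.Lib.H71W.W3B
import Pool.Agent.Lib.H71W.W3C

/-!
# Project H71W, FIN: the theorem for C*-algebras
-/

open scoped Matrix

namespace Pool.H71W

section

variable {A : Type} [NonUnitalCStarAlgebra A]

theorem fin_nsmul_le {ι κ : Type} [Fintype ι] [Fintype κ] {p : Matrix ι ι A} {q : Matrix κ κ A} (hp : IsPr p) (hq : IsPr q)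
    (k n : ℕ) : Le (k • cl ⟨ι, p, hp⟩) (n • cl ⟨κ, q, hq⟩) ↔
      SubEqui (Matrix.blockDiagonal fun _ : Fin k => p) (Matrix.blockDiagonal fun _ : Fin n => q) := by
  rw [← cl_diag hp k, ← cl_diag hq n]
  exact cl_le

theorem fin_comp (h : LocalComparison A) : LComp (V A) := by
  intro a
  obtain ⟨E, rfl⟩ := cl_surj a
  obtain ⟨m, hm⟩ := h E.ι E.p E.pr
  refine ⟨m, fun x y hy hxy => ?_⟩
  obtain ⟨P, rfl⟩ := cl_surj x
  choose Q hQ using fun j => cl_surj (y j)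
  obtain rfl : y = fun j => cl (Q j) := funext hQ
  have h1 : ∑ j, cl (Q j) = cl ⟨(j : Fin (m + 1)) × (Q j).ι, Matrix.blockDiagonal' fun j => (Q j).p, IsPr.diag' fun j => (Q j).pr⟩ :=
    (cl_diag' fun j => (Q j).pr).symm
  show Le (cl P) (∑ j, cl (Q j))
  rw [h1]
  refine cl_le.2 (hm P.ι P.p (fun j => (Q j).ι) (fun j => (Q j).p) P.pr (fun j => (Q j).pr) (fun j => cl_le.1 (hy j)) fun j => ?_)
  obtain ⟨t, ht⟩ := hxy j
  exact ⟨t, (fin_nsmul_le P.pr (Q j).pr (t + 1) t).1 ht⟩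

theorem fin_ev : LocallyUnperforated A ↔ LEv (V A) := by
  constructor
  · intro h a
    obtain ⟨E, rfl⟩ := cl_surj a
    obtain ⟨k, hk⟩ := h E.ι E.p E.pr
    refine ⟨k, fun x y hy hxy => ?_⟩
    obtain ⟨P, rfl⟩ := cl_surj x
    obtain ⟨Q, rfl⟩ := cl_surj y
    exact cl_le.2 (hk P.ι Q.ι P.p Q.p P.pr Q.pr (cl_le.1 hy) ((fin_nsmul_le P.pr Q.pr k 2).1 hxy))
  · intro h μ _ e he
    obtain ⟨k, hk⟩ := h (cl ⟨μ, e, he⟩)
    refine ⟨k, fun ι κ _ _ p q hp hq hqe hpq => ?_⟩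
    exact cl_le.1 (hk (cl ⟨ι, p, hp⟩) (cl ⟨κ, q, hq⟩) (cl_le.2 hqe) ((fin_nsmul_le hp hq k 2).2 hpq))

theorem fin_gen {ι κ : Type} [Fintype ι] [Fintype κ] {p : Matrix ι ι A} {q : Matrix κ κ A} (hp : IsPr p) (hq : IsPr q) :
    (∃ n : ℕ, SubEqui p (Matrix.blockDiagonal fun _ : Fin n => q)) ↔ Gen (cl ⟨ι, p, hp⟩) (cl ⟨κ, q, hq⟩) := by
  constructor
  · rintro ⟨n, hn⟩
    refine ⟨n, ?_⟩
    rw [← cl_diag hq n]
    exact cl_le.2 hn
  · rintro ⟨n, hn⟩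
    refine ⟨n, ?_⟩
    rw [← cl_diag hq n] at hn
    exact cl_le.1 hn

theorem fin_sep (h : Sep (V A)) : Separative A := by
  intro ι κ μ _ _ _ p q r hp hq hr hpq h1 h2
  refine cl_eq.1 (h (cl ⟨ι, p, hp⟩) (cl ⟨κ, q, hq⟩) (cl ⟨μ, r, hr⟩) ?_ ((fin_gen hr hp).1 h1) ((fin_gen hr hq).1 h2))
  rw [← cl_add, ← cl_add]
  exact cl_eq.2 hpq

theorem up_diag {n : ℕ} (p e : A) : up (Matrix.diagonal (fun i : Fin (n + 1) => if i = 0 then p else e)) =
    Matrix.diagonal (fun i : Fin (n + 1) => if i = 0 then (Unitization.inr p : Unitization ℂ A) else Unitization.inr e) := by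
  ext1 i j
  by_cases h : i = j
  · subst h
    by_cases h0 : i = 0 <;> simp [up, h0]
  · simp [up, Matrix.diagonal_apply_ne _ h]

theorem fin_wc (hA : RR0 A) (h : Sep (V A)) : WeakCancellation A := by
  intro p q hp hq hpq hqp hk
  obtain ⟨n, v, hv, h1, h2⟩ := hk
  have hp1 : p * p = p := hp.isIdempotentElem
  have hp2 : star p = p := hp.isSelfAdjoint
  have hq1 : q * q = q := hq.isIdempotentElem
  have hq2 : star q = q := hq.isSelfAdjoint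
  obtain ⟨i0, i1, i2, i3, i4, i5⟩ := w1_ideal p
  obtain ⟨e, he, hes, heJ, hE⟩ := w3_mat hA i0 i1 i2 i3 i4 i5 p q hp1 hp2 hq1 hq2 n v
    (fun i j => w1_span hp1 (hv i j)) h1 h2
  have heq : e ∈ Jp q := w1_mono (w1_span hq1 hpq) heJ
  obtain ⟨hd1, hc1⟩ := w3_class p e hp1 hp2 he hes n
  obtain ⟨hd2, hc2⟩ := w3_class q e hq1 hq2 he hes n
  rw [← up_diag, ← up_diag] at hE
  have h3 := (up_equi hd1 hd2).1 hE
  have h4 : (cl ⟨Unit, m1 p, m1_pr hp1 hp2⟩ : V A) + n • cl ⟨Unit, m1 e, m1_pr he hes⟩ =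
      cl ⟨Unit, m1 q, m1_pr hq1 hq2⟩ + n • cl ⟨Unit, m1 e, m1_pr he hes⟩ := by
    rw [← hc1, ← hc2]
    exact cl_eq.2 h3
  have gen_nsmul : ∀ x y : V A, Gen x y → Gen (n • x) y := by
    rintro x y ⟨l, hl⟩
    refine ⟨n * l, ?_⟩
    rw [mul_nsmul']
    exact hl.nsmul n
  have h5 := h _ _ _ h4 (gen_nsmul _ _ (w1_gen hp1 hp2 he hes heJ)) (gen_nsmul _ _ (w1_gen hq1 hq2 he hes heq))
  obtain ⟨w, hw1, hw2⟩ := cl_eq.1 h5
  refine ⟨w () (), ?_, ?_⟩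
  · have := congrFun (congrFun hw1 ()) ()
    simpa [Matrix.mul_apply, m1] using this
  · have := congrFun (congrFun hw2 ()) ()
    simpa [Matrix.mul_apply, m1] using this

end

/-- **The theorem.** -/
theorem final (A : Type) [NonUnitalCStarAlgebra A] (hA : RR0 A) :
    (LocalComparison A → LocallyUnperforated A) ∧
      (LocallyUnperforated A → Separative A ∧ WeakCancellation A) := by
  have hM : CR (V A) := c5_refine hA
  refine ⟨fun h => fin_ev.2 (comp_ev hM (fin_comp h)), fun h => ?_⟩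
  have h1 : Sep (V A) := sep_of_ev hM (fin_ev.1 h)
  exact ⟨fin_sep h1, fin_wc hA h1⟩

end Pool.H71W
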