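import Pool.Agent.Lib.H71W.Defs

/-!
# Project H71W, M1: order and refinement lemmas in commutative monoids
-/

open Finset

namespace Pool.H71W

variable {M : Type*} [AddCommMonoid M]

theorem Le.refl (x : M) : Le x x := ⟨0, add_zero x⟩

theorem Le.of_eq {x y : M} (h : x = y) : Le x y := h ▸ Le.refl x

theorem Le.trans {x y z : M} (h : Le x y) (h' : Le y z) : Le x z := by
  obtain ⟨u, rfl⟩ := h
  obtain ⟨w, rfl⟩ := h'
  exact ⟨u + w, (add_assoc x u w).symm⟩

theorem Le.add {x y z w : M} (h : Le x y) (h' : Le z w) : Le (x + z) (y + w) := by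
  obtain ⟨u, rfl⟩ := h
  obtain ⟨v, rfl⟩ := h'
  exact ⟨u + v, by abel⟩

theorem Le.zero (x : M) : Le 0 x := ⟨x, zero_add x⟩

theorem Le.self_add (x y : M) : Le x (x + y) := ⟨y, rfl⟩

theorem Le.add_self (x y : M) : Le y (x + y) := ⟨x, add_comm y x⟩

theorem Le.nsmul {x y : M} (h : Le x y) (n : ℕ) : Le (n • x) (n • y) := by
  obtain ⟨u, rfl⟩ := h
  exact ⟨n • u, (nsmul_add x u n).symm⟩

theorem Le.nsmul_mono (x : M) {k l : ℕ} (h : k ≤ l) : Le (k • x) (l • x) := by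
  obtain ⟨j, rfl⟩ := Nat.exists_eq_add_of_le h
  exact ⟨j • x, (add_nsmul x k j).symm⟩

theorem Le.sum {ι : Type*} (s : Finset ι) {x y : ι → M} (h : ∀ i ∈ s, Le (x i) (y i)) : Le (∑ i ∈ s, x i) (∑ i ∈ s, y i) := by
  classical
  induction s using Finset.induction_on with
  | empty => exact Le.refl _
  | insert a s ha ih =>
    rw [sum_insert ha, sum_insert ha]
    exact (h a (mem_insert_self a s)).add (ih fun i hi => h i (mem_insert_of_mem hi))

theorem Le.single {ι : Type*} [Fintype ι] (x : ι → M) (i : ι) : Le (x i) (∑ j, x j) := by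
  classical
  exact ⟨∑ j ∈ univ.erase i, x j, add_sum_erase univ x (mem_univ i)⟩

theorem Gen.of_le {x y : M} (h : Le x y) : Gen x y := ⟨1, by rwa [one_nsmul]⟩

theorem Gen.trans {x y z : M} (h : Gen x y) (h' : Gen y z) : Gen x z := by
  obtain ⟨k, hk⟩ := h
  obtain ⟨l, hl⟩ := h'
  refine ⟨k * l, hk.trans ?_⟩
  rw [mul_nsmul']
  exact hl.nsmul k

theorem Gen.add {x y z : M} (h : Gen x z) (h' : Gen y z) : Gen (x + y) z := by
  obtain ⟨k, hk⟩ := h
  obtain ⟨l, hl⟩ := h'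
  exact ⟨k + l, by rw [add_nsmul]; exact hk.add hl⟩

theorem Gen.refl (x : M) : Gen x x := Gen.of_le (Le.refl x)

/-- Riesz decomposition. -/
theorem riesz (hR : Refine M) {x a b : M} (h : Le x (a + b)) : ∃ x1 x2, x = x1 + x2 ∧ Le x1 a ∧ Le x2 b := by
  obtain ⟨z, hz⟩ := h
  obtain ⟨p, q, r, s, h1, h2, h3, h4⟩ := hR x z a b hz
  exact ⟨p, q, h1, ⟨r, h3.symm⟩, ⟨s, h4.symm⟩⟩

theorem split_sum (hM : CR M) : ∀ (n : ℕ) (y : Fin n → M) (a b : M), a + b = ∑ l, y l →
    ∃ P Q : Fin n → M, (∀ l, P l + Q l = y l) ∧ a = ∑ l, P l ∧ b = ∑ l, Q l := by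
  intro n
  induction n with
  | zero =>
    intro y a b h
    rw [univ_eq_empty, sum_empty] at h
    refine ⟨fun _ => 0, fun _ => 0, fun l => l.elim0, ?_, ?_⟩
    · rw [univ_eq_empty, sum_empty]; exact hM.con a b h
    · rw [univ_eq_empty, sum_empty]; exact hM.con b a (by rw [add_comm]; exact h)
  | succ n ih =>
    intro y a b h
    rw [Fin.sum_univ_succ] at h
    obtain ⟨p, q, r, s, h1, h2, h3, h4⟩ := hM.ref a b _ _ h
    obtain ⟨P, Q, h5, h6, h7⟩ := ih (fun l => y l.succ) q s h4.symm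
    refine ⟨Fin.cons p P, Fin.cons r Q, ?_, ?_, ?_⟩
    · intro l
      refine Fin.cases ?_ (fun l => ?_) l
      · simp only [Fin.cons_zero]; exact h3.symm
      · simp only [Fin.cons_succ]; exact h5 l
    · rw [Fin.sum_univ_succ]
      simp only [Fin.cons_zero, Fin.cons_succ]
      rw [← h6]; exact h1
    · rw [Fin.sum_univ_succ]
      simp only [Fin.cons_zero, Fin.cons_succ]
      rw [← h7]; exact h2

/-- Riesz decomposition for a multiple. -/
theorem riesz_nsmul (hM : CR M) {x y : M} (n : ℕ) (h : Le x (n • y)) :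
    ∃ P : Fin n → M, x = ∑ l, P l ∧ ∀ l, Le (P l) y := by
  obtain ⟨z, hz⟩ := h
  obtain ⟨P, Q, h1, h2, h3⟩ := split_sum hM n (fun _ => y) x z (by rw [hz]; simp)
  exact ⟨P, h2, fun l => ⟨Q l, h1 l⟩⟩

theorem split_nsmul (hM : CR M) {a b y : M} (n : ℕ) (h : a + b = n • y) :
    ∃ P Q : Fin n → M, (∀ l, P l + Q l = y) ∧ a = ∑ l, P l ∧ b = ∑ l, Q l :=
  split_sum hM n (fun _ => y) a b (by rw [h]; simp)

/-- A common majorant inside `y` of finitely many elements below `y`. -/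
theorem join (hM : CR M) (y : M) : ∀ (n : ℕ) (P : Fin n → M), (∀ l, Le (P l) y) →
    ∃ Y Z : M, Y + Z = y ∧ (∀ l, Le (P l) Y) ∧ Le Y (∑ l, P l) := by
  intro n
  induction n with
  | zero =>
    intro P _
    exact ⟨0, y, zero_add y, fun l => l.elim0, Le.zero _⟩
  | succ n ih =>
    intro P hP
    obtain ⟨Y, Z, h1, h2, h3⟩ := ih (fun l => P l.succ) fun l => hP l.succ
    obtain ⟨p1, p2, h4, h5, ⟨Z', h6⟩⟩ := riesz hM.ref (x := P 0) (a := Y) (b := Z) (by rw [h1]; exact hP 0)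
    refine ⟨Y + p2, Z', by rw [add_assoc, h6, h1], ?_, ?_⟩
    · intro l
      refine Fin.cases ?_ (fun l => ?_) l
      · rw [h4]; exact h5.add (Le.refl _)
      · exact (h2 l).trans (Le.self_add _ _)
    · rw [Fin.sum_univ_succ, add_comm Y p2]
      exact Le.add (by rw [h4]; exact Le.add_self _ _) h3

/-- The cut of `n + 1` decompositions of `y`. -/
theorem cut (hM : CR M) (y : M) : ∀ (n : ℕ) (P Q : Fin (n + 1) → M), (∀ l, P l + Q l = y) →
    ∃ Y W : M, Y + W = y ∧ Le Y (∑ l, P l) ∧ (∀ l, Le (P l) Y) ∧ Le (∑ l, Q l) (n • Y + (n + 1) • W) := by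
  intro n
  induction n with
  | zero =>
    intro P Q h
    refine ⟨P 0, Q 0, h 0, ?_, ?_, ?_⟩
    · rw [Fin.sum_univ_one]; exact Le.refl _
    · intro l
      rw [Fin.fin_one_eq_zero l]; exact Le.refl _
    · exact ⟨0, by simp⟩
  | succ n ih =>
    intro P Q h
    obtain ⟨Y, W, h1, h2, h3, h4⟩ := ih (fun l => P l.succ) (fun l => Q l.succ) fun l => h l.succ
    obtain ⟨Y1, Y2, Z1, Z2, e1, e2, e3, e4⟩ := hM.ref Y W (P 0) (Q 0) (by rw [h1, h 0])
    refine ⟨Y + Z1, Z2, by rw [add_assoc, ← e2, h1], ?_, ?_, ?_⟩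
    · rw [Fin.sum_univ_succ, add_comm Y Z1]
      exact Le.add (by rw [e3]; exact Le.add_self _ _) h2
    · intro l
      refine Fin.cases ?_ (fun l => ?_) l
      · rw [e3]; exact Le.add (by rw [e1]; exact Le.self_add _ _) (Le.refl _)
      · exact (h3 l).trans (Le.self_add _ _)
    · rw [Fin.sum_univ_succ, e4]
      refine (Le.add (Le.refl (Y2 + Z2)) h4).trans ?_
      refine ⟨Y1, ?_⟩
      rw [e1, e2]
      module

end Pool.H71W
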