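import Pool.Agent.Lib.H71W.M1

/-!
# Project H71W, M2: comparison implies `Ev` in conical refinement monoids
-/

open Finset

namespace Pool.H71W

variable {M : Type*} [AddCommMonoid M]

theorem Le.le_nsmul (x : M) {k : ℕ} (hk : 1 ≤ k) : Le x (k • x) := by
  have h := Le.nsmul_mono x hk
  rwa [one_nsmul] at h

theorem Gen.of_le_trans {x y z : M} (h : Le x y) (h' : Gen y z) : Gen x z := (Gen.of_le h).trans h'

theorem Gen.le_trans {x y z : M} (h : Gen x y) (h' : Le y z) : Gen x z := h.trans (Gen.of_le h')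

theorem Gen.of_nsmul {x y : M} {l : ℕ} (h : Le x (l • y)) : Gen x y := ⟨l, h⟩

/-- **The full splitting.** -/
theorem full_split (hM : CR M) (n : ℕ) : ∀ (k l : ℕ) (x y Z : M), n < k → Le (k • x) (n • y + l • Z) →
    ∃ z1 z2 : M, z1 + z2 = y ∧ Le z2 x ∧ Gen x (z1 + Z) ∧ Gen x (z2 + Z) := by
  induction n with
  | zero =>
    intro k l x y Z hk h
    rw [zero_nsmul, zero_add] at h
    have h1 : Gen x Z := ⟨l, (Le.le_nsmul x hk).trans h⟩
    exact ⟨y, 0, add_zero y, Le.zero x, h1.le_trans (Le.add_self y Z), h1.le_trans (Le.add_self 0 Z)⟩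
  | succ n ih =>
    intro k l x y Z hk h
    obtain ⟨k, rfl⟩ : ∃ k', k = k' + 1 := ⟨k - 1, by omega⟩
    obtain ⟨z, hz⟩ := h
    obtain ⟨x1, x2, b1, b2, e1, e2, e3, e4⟩ := hM.ref x (k • x + z) ((n + 1) • y) (l • Z) (by rw [← hz]; module)
    obtain ⟨P, Q, f1, f2, f3⟩ := split_nsmul hM (n + 1) e3.symm
    obtain ⟨Y, W, g1, g2, g3, g4⟩ := cut hM y n P Q f1
    have hYx : Le Y x := by
      refine g2.trans ?_
      rw [← f2, e1]; exact Le.self_add _ _
    have h5 : Le (k • x) (n • Y + (n + 1 + l) • (W + Z)) := by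
      refine (Le.self_add (k • x) z).trans ?_
      rw [e2]
      refine (Le.add (by rw [f3]; exact g4) (show Le b2 (l • Z) from ⟨x2, by rw [e4, add_comm]⟩)).trans ?_
      exact ⟨l • W + (n + 1) • Z, by module⟩
    obtain ⟨Y1, Y2, h6, h7, h8, h9⟩ := ih k (n + 1 + l) x Y (W + Z) (by omega) h5
    obtain ⟨l2, h9⟩ := h9
    obtain ⟨s1, s2, h10, h11, h12⟩ := riesz hM.ref (x := Y1) (a := l2 • Y2) (b := l2 • (W + Z)) (by
      refine (show Le Y1 Y from ⟨Y2, h6⟩).trans (hYx.trans ?_)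
      rw [← nsmul_add]; exact h9)
    refine ⟨W + s1, Y2 + s2, ?_, ?_, ?_, ?_⟩
    · rw [← g1, ← h6, h10]; abel
    · refine (show Le (Y2 + s2) Y from ⟨s1, ?_⟩).trans hYx
      rw [← h6, h10]; abel
    · refine h8.trans ?_
      rw [h10]
      refine Gen.add (Gen.add ?_ ?_) ?_
      · exact Gen.of_le ⟨W + Z, by abel⟩
      · exact ⟨l2, h12.trans (Le.nsmul ⟨s1, by abel⟩ l2)⟩
      · exact Gen.of_le ⟨s1, by abel⟩
    · have hx : Gen x (Y + Z) := by
        rw [e1]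
        refine Gen.add ⟨n + 1, ?_⟩ ?_
        · rw [f2]
          refine (Le.sum univ fun l _ => g3 l).trans ?_
          rw [sum_const, card_univ, Fintype.card_fin]
          exact Le.nsmul (Le.self_add _ _) _
        · refine ⟨l, (show Le x2 (l • Z) from ⟨b2, e4.symm⟩).trans (Le.nsmul (Le.add_self _ _) _)⟩
      refine hx.trans ?_
      rw [← h6, h10]
      refine Gen.add (Gen.add (Gen.add ?_ ?_) ?_) ?_
      · exact ⟨l2, h11.trans (Le.nsmul ⟨s2 + Z, by abel⟩ l2)⟩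
      · exact Gen.of_le ⟨Y2 + Z, by abel⟩
      · exact Gen.of_le ⟨s2 + Z, by abel⟩
      · exact Gen.of_le ⟨Y2 + s2, by abel⟩

theorem fin_split (hM : CR M) {a n m : ℕ} {x y : M} (h : Le (a • x) (n • y + m • x)) :
    ∃ Y1 Y2 : M, Y1 + Y2 = y ∧ Le (a • x) (n • Y1 + m • x) ∧ Le Y1 (a • x) := by
  obtain ⟨u, v, h1, h2, h3⟩ := riesz hM.ref h
  obtain ⟨P, h4, h5⟩ := riesz_nsmul hM n h2
  obtain ⟨Y1, Y2, h6, h7, h8⟩ := join hM y n P h5
  refine ⟨Y1, Y2, h6, ?_, ?_⟩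
  · rw [h1]
    refine Le.add ?_ h3
    rw [h4]
    refine (Le.sum univ fun l _ => h7 l).trans ?_
    rw [sum_const, card_univ, Fintype.card_fin]
    exact Le.refl _
  · refine h8.trans ?_
    rw [← h4, h1]; exact Le.self_add _ _

/-- Iterating `N x ≤ n y + m x`. -/
theorem iterate_le {N n m : ℕ} {x y : M} (hN : m ≤ N) (h : Le (N • x) (n • y + m • x)) (j : ℕ) :
    Le ((m + j * (N - m)) • x) ((j * n) • y + m • x) := by
  induction j with
  | zero => exact ⟨0, by simp⟩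
  | succ j ih =>
    obtain ⟨d, rfl⟩ := Nat.exists_eq_add_of_le hN
    rw [Nat.add_sub_cancel_left] at ih ⊢
    have h1 : (m + (j + 1) * d) • x = d • x + (m + j * d) • x := by module
    rw [h1]
    refine (Le.add (Le.refl _) ih).trans ?_
    have h2 : d • x + ((j * n) • y + m • x) = (j * n) • y + (m + d) • x := by module
    rw [h2]
    refine (Le.add (Le.refl _) h).trans ?_
    exact Le.of_eq (by module)

/-- **The mixed splitting.** -/
theorem mixed_split (hM : CR M) {N n m a : ℕ} {x y : M} (h : Le (N • x) (n • y + m • x)) (hg : Gen x y) (hN : m + n < N)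
    (ha : a ≤ N) : ∃ y1 y2 : M, y1 + y2 = y ∧ Le (a • x) (n • y1 + (n + m) • x) ∧
      Le (N • x) (n • y2 + (n * a + n + m) • x) ∧ Gen x y1 ∧ Gen x y2 := by
  obtain ⟨Y1, Y2, h1, h2, h3⟩ := fin_split hM ((Le.nsmul_mono x ha).trans h)
  obtain ⟨l, hl⟩ := hg
  have h4 := iterate_le (by omega) h (m * l + 1)
  have h5 : Le ((m + (m * l + 1) * (N - m)) • x) (((m * l + 1) * n + m * l) • y + 0 • (0 : M)) := by
    refine h4.trans ((Le.add (Le.refl _) (hl.nsmul m)).trans ?_)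
    exact Le.of_eq (by module)
  obtain ⟨z1, z2, h6, h7, h8, h9⟩ := full_split hM ((m * l + 1) * n + m * l) _ 0 x y 0 (by
    have : (m * l + 1) * (n + 1) ≤ (m * l + 1) * (N - m) := Nat.mul_le_mul_left _ (by omega)
    have h' : (m * l + 1) * (n + 1) = (m * l + 1) * n + m * l + 1 := by ring
    omega) h5
  rw [add_zero] at h8 h9
  obtain ⟨c11, c12, c21, c22, k1, k2, k3, k4⟩ := hM.ref Y1 Y2 z1 z2 (by rw [h1, h6])
  obtain ⟨l1, hl1⟩ := h8
  have hz2 : Le c12 (l1 • c11 + l1 • c21) := by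
    refine (show Le c12 z2 from ⟨c22, k4.symm⟩).trans (h7.trans (hl1.trans ?_))
    rw [k3]; exact Le.of_eq (nsmul_add _ _ _)
  have hz3 : Le c22 (l1 • c21 + l1 • c11) := by
    refine (show Le c22 z2 from ⟨c12, by rw [k4, add_comm]⟩).trans (h7.trans (hl1.trans ?_))
    rw [k3, nsmul_add, add_comm]; exact Le.refl _
  obtain ⟨la, ka, p1, p2, p3⟩ := riesz hM.ref hz2
  obtain ⟨mu, nu, p4, p5, p6⟩ := riesz hM.ref hz3
  have hla : Le la x := (show Le la z2 from ⟨ka + c22, by rw [k4, p1]; abel⟩).trans h7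
  have hmu : Le mu x := (show Le mu z2 from ⟨c12 + nu, by rw [k4, p4]; abel⟩).trans h7
  refine ⟨c11 + ka + mu, c21 + la + nu, ?_, ?_, ?_, ?_, ?_⟩
  · rw [← h1, k1, k2, p1, p4]; abel
  · refine h2.trans ?_
    rw [k1, p1]
    refine (show Le (n • (c11 + (la + ka)) + m • x) (n • la + (n • (c11 + ka + mu) + m • x)) from ⟨n • mu, by module⟩).trans ?_
    refine (Le.add (hla.nsmul n) (Le.refl _)).trans ?_
    exact Le.of_eq (by module)
  · refine h.trans ?_
    rw [← h1]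
    refine (show Le (n • (Y1 + Y2) + m • x) (n • Y1 + (n • Y2 + m • x)) from Le.of_eq (by module)).trans ?_
    refine (Le.add (h3.nsmul n) (Le.refl _)).trans ?_
    rw [k2, p4]
    refine (show Le (n • a • x + (n • (c21 + (mu + nu)) + m • x))
      (n • mu + ((n * a) • x + (n • (c21 + la + nu) + m • x))) from ⟨n • la, by module⟩).trans ?_
    refine (Le.add (hmu.nsmul n) (Le.refl _)).trans ?_
    exact Le.of_eq (by module)
  · refine h9.trans ?_
    rw [k4, p1, p4]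
    refine Gen.add (Gen.add ?_ ?_) (Gen.add ?_ ?_)
    · exact ⟨l1, p2.trans (Le.nsmul ⟨ka + mu, by abel⟩ l1)⟩
    · exact Gen.of_le ⟨c11 + mu, by abel⟩
    · exact Gen.of_le ⟨c11 + ka, by abel⟩
    · exact ⟨l1, p6.trans (Le.nsmul ⟨ka + mu, by abel⟩ l1)⟩
  · refine h9.trans ?_
    rw [k4, p1, p4]
    refine Gen.add (Gen.add ?_ ?_) (Gen.add ?_ ?_)
    · exact Gen.of_le ⟨c21 + nu, by abel⟩
    · exact ⟨l1, p3.trans (Le.nsmul ⟨la + nu, by abel⟩ l1)⟩
    · exact ⟨l1, p5.trans (Le.nsmul ⟨la + nu, by abel⟩ l1)⟩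
    · exact Gen.of_le ⟨c21 + la, by abel⟩

/-- **Pieces.** -/
theorem pieces (hM : CR M) (n T : ℕ) : ∀ (m M0 : ℕ), ∃ K : ℕ, ∀ (N : ℕ) (x y : M), K ≤ N → Gen x y →
    Le (N • x) (n • y + M0 • x) → ∃ z : Fin (m + 1) → M, ∑ j, z j = y ∧
      ∀ j, Gen x (z j) ∧ ∃ Nj Mj : ℕ, Mj + T ≤ Nj ∧ Le (Nj • x) (n • z j + Mj • x) := by
  intro m
  induction m with
  | zero =>
    intro M0
    refine ⟨M0 + T, fun N x y hN hg h => ⟨fun _ => y, by simp, fun j => ⟨hg, N, M0, hN, h⟩⟩⟩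
  | succ m ih =>
    intro M0
    obtain ⟨K, hK⟩ := ih (n * (n + M0 + T) + n + M0)
    refine ⟨K + (n + M0 + T) + 1, fun N x y hN hg h => ?_⟩
    obtain ⟨y1, y2, h1, h2, h3, h4, h5⟩ := mixed_split hM (a := n + M0 + T) h hg (by omega) (by omega)
    obtain ⟨z, hz, hz'⟩ := hK N x y2 (by omega) h5 h3
    refine ⟨Fin.cons y1 z, ?_, fun j => ?_⟩
    · rw [Fin.sum_univ_succ]
      simp only [Fin.cons_zero, Fin.cons_succ]
      rw [hz, h1]
    · refine Fin.cases ?_ (fun j => ?_) j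
      · simp only [Fin.cons_zero]
        exact ⟨h4, n + M0 + T, n + M0, le_refl _, h2⟩
      · simp only [Fin.cons_succ]
        exact hz' j

variable (M) in
/-- Local comparison: for every `a` there is `m` with `m`-comparison below `a`. -/
def LComp : Prop := ∀ a : M, ∃ m : ℕ, ∀ (x : M) (y : Fin (m + 1) → M), (∀ j, Le (y j) a) → (∀ j, SLe x (y j)) →
  Le x (∑ j, y j)

variable (M) in
/-- For every `a` there is `k` such that `k x ≤ 2 y` implies `x ≤ y` for all `y ≤ a`. -/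
def LEv : Prop := ∀ a : M, ∃ k : ℕ, ∀ x y : M, Le y a → Le (k • x) (2 • y) → Le x y

/-- **Comparison implies `LEv`.** -/
theorem comp_ev (hM : CR M) (h : LComp M) : LEv M := by
  intro a
  obtain ⟨m, h⟩ := h a
  obtain ⟨n, hn⟩ : ∃ n : ℕ, n = 2 := ⟨2, rfl⟩
  rw [← hn]
  obtain ⟨K, hK⟩ := pieces (M := M) hM n (n + 1) m 0
  refine ⟨K + 1, fun x y hya hxy => ?_⟩
  have hg : Gen x y := ⟨n, (Le.le_nsmul x (by omega)).trans hxy⟩
  obtain ⟨z, hz, hz'⟩ := hK (K + 1) x y (by omega) hg (hxy.trans ⟨0, by module⟩)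
  rw [← hz]
  refine h x z (fun j => (Le.single z j).trans (by rw [hz]; exact hya)) fun j => ?_
  obtain ⟨⟨l, hl⟩, N, m0, hN, hj⟩ := hz' j
  refine ⟨(m0 * l + 1) * n + m0 * l, ?_⟩
  have h1 := iterate_le (by omega) hj (m0 * l + 1)
  have h2 : (m0 * l + 1) * n + m0 * l + 1 ≤ m0 + (m0 * l + 1) * (N - m0) := by
    have h3 : (m0 * l + 1) * (n + 1) ≤ (m0 * l + 1) * (N - m0) := Nat.mul_le_mul_left _ (by omega)
    have h4 : (m0 * l + 1) * (n + 1) = (m0 * l + 1) * n + m0 * l + 1 := by ring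
    omega
  refine (Le.nsmul_mono x h2).trans (h1.trans ((Le.add (Le.refl _) (hl.nsmul m0)).trans ?_))
  exact Le.of_eq (by module)

/-- From `2` to `2 ^ j`. -/
theorem lev_pow (h : LEv M) (j : ℕ) : ∀ a : M, ∃ k : ℕ, ∀ x y : M, Le y a → Le (k • x) ((2 ^ j) • y) → Le x y := by
  induction j with
  | zero => exact fun a => ⟨1, fun x y _ hxy => by rwa [pow_zero, one_nsmul, one_nsmul] at hxy⟩
  | succ j ih =>
    intro a
    obtain ⟨k1, hk1⟩ := ih a
    obtain ⟨k2, hk2⟩ := h ((2 ^ j) • a)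
    refine ⟨k2 * k1, fun x y hya hxy => hk1 x y hya (hk2 _ _ (hya.nsmul _) ?_)⟩
    rw [← mul_nsmul', ← mul_nsmul', mul_comm 2, ← pow_succ]
    exact hxy

/-- All multiples. -/
theorem lev_all (h : LEv M) (n : ℕ) (a : M) : ∃ k : ℕ, ∀ x y : M, Le y a → Le (k • x) (n • y) → Le x y := by
  obtain ⟨k, hk⟩ := lev_pow h n a
  exact ⟨k, fun x y hya hxy => hk x y hya (hxy.trans (Le.nsmul_mono y Nat.lt_two_pow_self.le))⟩

end Pool.H71W
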