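import Pool.Agent.Lib.H71W.Defs

/-!
# Project H71W: the definitions of the final statement

`A` is a C*-algebra, not necessarily unital. `IsPr p`: the square matrix `p` over `A` is a projection; `Equi p q`:
`v* v = p`, `v v* = q` for a rectangular matrix `v` over `A` (Murray-von Neumann equivalence); `SubEqui p q`:
`v* v = p`, `q v = v` (`p` is equivalent to a projection below `q`); `RR0 A`: real rank zero. These are in `Defs.lean`.
-/

open scoped Matrix

namespace Pool.H71W

/-- `t + 1` copies of `p` are Murray-von Neumann below `t` copies of `q`, for some `t`. -/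
def StablyBelow {A : Type} [NonUnitalCStarAlgebra A] {ι κ : Type} [Fintype ι] [Fintype κ] (p : Matrix ι ι A)
    (q : Matrix κ κ A) : Prop :=
  ∃ t : ℕ, SubEqui (Matrix.blockDiagonal fun _ : Fin (t + 1) => p) (Matrix.blockDiagonal fun _ : Fin t => q)

/-- Local comparison: for every projection `e` (in a matrix algebra over `A`) there is `m` such that `m`-comparison holds
below `e`: if the projections `q 0, ..., q m` are below `e` and `p` is stably below each of them, then `p` is below
`q 0 ⊕ ... ⊕ q m`. -/
def LocalComparison (A : Type) [NonUnitalCStarAlgebra A] : Prop :=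
  ∀ (μ : Type) [Fintype μ] (e : Matrix μ μ A), IsPr e → ∃ m : ℕ,
    ∀ (ι : Type) [Fintype ι] (p : Matrix ι ι A) (κ : Fin (m + 1) → Type) [∀ j, Fintype (κ j)]
      (q : ∀ j, Matrix (κ j) (κ j) A), IsPr p → (∀ j, IsPr (q j)) → (∀ j, SubEqui (q j) e) → (∀ j, StablyBelow p (q j)) →
        SubEqui p (Matrix.blockDiagonal' q)

/-- For every projection `e` there is `k` such that, for all projections `q` below `e` and all `p`: if `k` copies of `p`
are below `q ⊕ q` then `p` is below `q`. -/
def LocallyUnperforated (A : Type) [NonUnitalCStarAlgebra A] : Prop :=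
  ∀ (μ : Type) [Fintype μ] (e : Matrix μ μ A), IsPr e → ∃ k : ℕ,
    ∀ (ι κ : Type) [Fintype ι] [Fintype κ] (p : Matrix ι ι A) (q : Matrix κ κ A), IsPr p → IsPr q → SubEqui q e →
      SubEqui (Matrix.blockDiagonal fun _ : Fin k => p) (Matrix.blockDiagonal fun _ : Fin 2 => q) → SubEqui p q

/-- Separativity: `p ⊕ r ~ q ⊕ r`, with `r` below multiples of `p` and of `q`, implies `p ~ q`. -/
def Separative (A : Type) [NonUnitalCStarAlgebra A] : Prop :=
  ∀ (ι κ μ : Type) [Fintype ι] [Fintype κ] [Fintype μ] (p : Matrix ι ι A) (q : Matrix κ κ A) (r : Matrix μ μ A),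
    IsPr p → IsPr q → IsPr r → Equi (Matrix.fromBlocks p 0 0 r) (Matrix.fromBlocks q 0 0 r) →
    (∃ n : ℕ, SubEqui r (Matrix.blockDiagonal fun _ : Fin n => p)) →
    (∃ n : ℕ, SubEqui r (Matrix.blockDiagonal fun _ : Fin n => q)) → Equi p q

/-- `p` and `q` have the same class in `K_0(I)`, `I` the closed two-sided ideal generated by `p`:
`diag(p, 1, ..., 1) ~ diag(q, 1, ..., 1)` through a matrix over `I + ℂ 1`. -/
def SameK0 {A : Type} [NonUnitalCStarAlgebra A] (p q : A) : Prop :=
  ∃ (n : ℕ) (v : Matrix (Fin (n + 1)) (Fin (n + 1)) (Unitization ℂ A)),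
    (∀ i j, (v i j).snd ∈ closure ((TwoSidedIdeal.span {p} : TwoSidedIdeal A) : Set A)) ∧
    vᴴ * v = Matrix.diagonal (fun i => if i = 0 then (Unitization.inr p : Unitization ℂ A) else 1) ∧
    v * vᴴ = Matrix.diagonal (fun i => if i = 0 then (Unitization.inr q : Unitization ℂ A) else 1)

/-- Weak cancellation (the form with `K_0` of the ideal). -/
def WeakCancellation (A : Type) [NonUnitalCStarAlgebra A] : Prop :=
  ∀ p q : A, IsStarProjection p → IsStarProjection q →
    p ∈ closure ((TwoSidedIdeal.span {q} : TwoSidedIdeal A) : Set A) →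
    q ∈ closure ((TwoSidedIdeal.span {p} : TwoSidedIdeal A) : Set A) →
    SameK0 p q → ∃ v : A, star v * v = p ∧ v * star v = q

end Pool.H71W
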