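import Pool.Agent.Lib.H71W.V1

/-!
# Project H71W, V1M (S/M): the monoid of the classes of projections
-/

open scoped Matrix

namespace Pool.H71W

section

variable (R : Type) [NonUnitalRing R] [StarRing R]

instance projSetoid : Setoid (Proj R) where
  r P Q := Equi P.p Q.p
  iseqv := ⟨fun P => Equi.refl P.pr, fun h => h.symm, fun {P Q S} h h' => h.trans P.pr Q.pr S.pr h'⟩

/-- The monoid of the equivalence classes of projections. -/
def V : Type 1 := Quotient (projSetoid R)

variable {R}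

/-- The class of a projection. -/
def cl (P : Proj R) : V R := Quotient.mk _ P

theorem cl_eq {P Q : Proj R} : cl P = cl Q ↔ Equi P.p Q.p := by
  exact Quotient.eq (r := projSetoid R)

theorem cl_surj (a : V R) : ∃ P : Proj R, a = cl P := by
  obtain ⟨P, hP⟩ := Quotient.exists_rep (s := projSetoid R) a
  exact ⟨P, hP.symm⟩

/-- The direct sum. -/
def Proj.add (P Q : Proj R) : Proj R := ⟨P.ι ⊕ Q.ι, Matrix.fromBlocks P.p 0 0 Q.p, P.pr.blocks Q.pr⟩

instance vAdd : Add (V R) := ⟨Quotient.map₂ Proj.add fun _ _ h _ _ h' => h.blocks h'⟩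

instance vZero : Zero (V R) := ⟨cl ⟨Empty, 0, IsPr.zero⟩⟩

/-- `Equi.comm`, `Equi.assoc`, `Equi.zero`. -/
instance vMonoid : AddCommMonoid (V R) where
  add_assoc := by
    intro a b c
    obtain ⟨P, rfl⟩ := cl_surj a
    obtain ⟨Q, rfl⟩ := cl_surj b
    obtain ⟨S, rfl⟩ := cl_surj c
    exact Quotient.sound (s := projSetoid R) (a := (P.add Q).add S) (b := P.add (Q.add S)) (Equi.assoc P.pr Q.pr S.pr)
  zero_add := by
    intro a
    obtain ⟨P, rfl⟩ := cl_surj a
    exact Quotient.sound (s := projSetoid R) (a := Proj.add ⟨Empty, 0, IsPr.zero⟩ P) (b := P)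
      ((Equi.comm IsPr.zero P.pr).trans (IsPr.zero.blocks P.pr) (P.pr.blocks IsPr.zero) P.pr (Equi.zero P.pr))
  add_zero := by
    intro a
    obtain ⟨P, rfl⟩ := cl_surj a
    exact Quotient.sound (s := projSetoid R) (a := Proj.add P ⟨Empty, 0, IsPr.zero⟩) (b := P) (Equi.zero P.pr)
  add_comm := by
    intro a b
    obtain ⟨P, rfl⟩ := cl_surj a
    obtain ⟨Q, rfl⟩ := cl_surj b
    exact Quotient.sound (s := projSetoid R) (a := P.add Q) (b := Q.add P) (Equi.comm P.pr Q.pr)
  nsmul := nsmulRec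

theorem cl_add (P Q : Proj R) : cl (P.add Q) = cl P + cl Q := by
  rfl

theorem cl_zero {ι : Type} [Fintype ι] : cl ⟨ι, 0, IsPr.zero⟩ = (0 : V R) := by
  refine Quotient.sound (s := projSetoid R) (a := ⟨ι, 0, IsPr.zero⟩) (b := ⟨Empty, 0, IsPr.zero⟩) ?_
  exact ⟨0, Matrix.mul_zero _, Matrix.zero_mul _⟩

end

end Pool.H71W
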