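import Pool.Agent.Lib.H71W.V2B

/-!
# Project H71W, V3 (M): block diagonal matrices
-/

open scoped Matrix

namespace Pool.H71W

variable {R : Type} [NonUnitalRing R] [StarRing R]

/-- `Matrix.blockDiagonal'_mul`, `Matrix.blockDiagonal'_conjTranspose`. -/
theorem IsPr.diag' {o : Type} [Fintype o] [DecidableEq o] {κ : o → Type} [∀ j, Fintype (κ j)] {q : ∀ j, Matrix (κ j) (κ j) R}
    (hq : ∀ j, IsPr (q j)) : IsPr (Matrix.blockDiagonal' q) := by
  constructor
  · rw [← Matrix.blockDiagonal'_mul]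
    exact congrArg Matrix.blockDiagonal' (funext fun j => (hq j).1)
  · rw [Matrix.blockDiagonal'_conjTranspose]
    exact congrArg Matrix.blockDiagonal' (funext fun j => (hq j).2)

/-- The partial isometry from the block `j`. -/
def v3v {o : Type} [DecidableEq o] {κ : o → Type} (q : ∀ j, Matrix (κ j) (κ j) R) (j : o) :
    Matrix (κ j) ((i : o) × κ i) R :=
  fun a x => if h : x.1 = j then q j a (h ▸ x.2) else 0

theorem v3_same {o : Type} [DecidableEq o] {κ : o → Type} (q : ∀ j, Matrix (κ j) (κ j) R) (j : o) (a b : κ j) :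
    v3v q j a ⟨j, b⟩ = q j a b := dif_pos rfl

theorem v3_ne {o : Type} [DecidableEq o] {κ : o → Type} (q : ∀ j, Matrix (κ j) (κ j) R) {i j : o} (h : i ≠ j) (a : κ j)
    (b : κ i) : v3v q j a ⟨i, b⟩ = 0 := dif_neg h

theorem v3_equi {o : Type} [Fintype o] [DecidableEq o] {κ : o → Type} [∀ j, Fintype (κ j)]
    {q : ∀ j, Matrix (κ j) (κ j) R} (hq : ∀ j, IsPr (q j)) (j : o) :
    Equi (Matrix.blockDiagonal' (Pi.single j (q j))) (q j) := by
  refine ⟨v3v q j, ?_, ?_⟩
  · funext x y
    obtain ⟨i, b⟩ := x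
    obtain ⟨i', b'⟩ := y
    rw [Matrix.mul_apply]
    by_cases h : i = j
    · subst h
      by_cases h' : i' = i
      · subst h'
        rw [Matrix.blockDiagonal'_apply_eq, Pi.single_eq_same]
        have e : ((q i')ᴴ * q i') b b' = q i' b b' := by rw [(hq i').2, (hq i').1]
        rw [← e, Matrix.mul_apply]
        refine Finset.sum_congr rfl fun a _ => ?_
        rw [Matrix.conjTranspose_apply, Matrix.conjTranspose_apply, v3_same, v3_same]
      · rw [Matrix.blockDiagonal'_apply_ne _ _ _ (fun hc => h' hc.symm)]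
        refine Finset.sum_eq_zero fun a _ => ?_
        rw [v3_ne q h', mul_zero]
    · have e1 : (Pi.single j (q j) : ∀ i, Matrix (κ i) (κ i) R) i = 0 := Pi.single_eq_of_ne h _
      have e2 : Matrix.blockDiagonal' (Pi.single j (q j)) (⟨i, b⟩ : (i : o) × κ i) ⟨i', b'⟩ = 0 := by
        by_cases h' : i = i'
        · subst h'
          rw [Matrix.blockDiagonal'_apply_eq, e1]
          rfl
        · exact Matrix.blockDiagonal'_apply_ne _ _ _ h'
      rw [e2]
      refine Finset.sum_eq_zero fun a _ => ?_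
      rw [Matrix.conjTranspose_apply, v3_ne q h, star_zero, zero_mul]
  · funext a c
    have e : (q j * (q j)ᴴ) a c = q j a c := by rw [(hq j).2, (hq j).1]
    rw [Matrix.mul_apply, ← e, Matrix.mul_apply, Fintype.sum_sigma]
    rw [Finset.sum_eq_single j]
    · refine Finset.sum_congr rfl fun b _ => ?_
      rw [Matrix.conjTranspose_apply, Matrix.conjTranspose_apply, v3_same, v3_same]
    · intro i _ hi
      refine Finset.sum_eq_zero fun b _ => ?_
      rw [v3_ne q hi, zero_mul]
    · intro h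
      exact absurd (Finset.mem_univ j) h

theorem v3_cl {ι : Type} [Fintype ι] {p p' : Matrix ι ι R} (h : p = p') (hp : IsPr p) (hp' : IsPr p') :
    cl ⟨ι, p, hp⟩ = cl ⟨ι, p', hp'⟩ := by
  subst h
  rfl

theorem v3_single {o : Type} [Fintype o] [DecidableEq o] {κ : o → Type} [∀ j, Fintype (κ j)]
    {q : ∀ j, Matrix (κ j) (κ j) R} (hq : ∀ j, IsPr (q j)) (j i : o) :
    IsPr ((Pi.single j (q j) : ∀ i, Matrix (κ i) (κ i) R) i) := by
  by_cases h : i = j
  · subst h
    rw [Pi.single_eq_same]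
    exact hq i
  · rw [Pi.single_eq_of_ne h]
    exact IsPr.zero

/-- Proof. `blockDiagonal' q = ∑ j, E j` with `E j = blockDiagonal' (Pi.single j (q j))` (orthogonal projections), `cl_sum`, and
`E j ~ q j` through `v : κ j × Σ`, `v a ⟨i, b⟩ = if h : i = j then q j a (h ▸ b) else 0` (or through `Matrix.submatrix`). -/
theorem cl_diag' {o : Type} [Fintype o] [DecidableEq o] {κ : o → Type} [∀ j, Fintype (κ j)] {q : ∀ j, Matrix (κ j) (κ j) R}
    (hq : ∀ j, IsPr (q j)) : cl ⟨(j : o) × κ j, Matrix.blockDiagonal' q, IsPr.diag' hq⟩ = ∑ j, cl ⟨κ j, q j, hq j⟩ := by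
  obtain ⟨h, e⟩ := cl_sum (Finset.univ : Finset o) (fun j => Matrix.blockDiagonal' (Pi.single j (q j)))
    (fun j => IsPr.diag' (v3_single hq j)) (fun k l hkl => by
      rw [← Matrix.blockDiagonal'_mul]
      refine Eq.trans (congrArg Matrix.blockDiagonal' (funext fun i => ?_)) Matrix.blockDiagonal'_zero
      by_cases h : i = k
      · have h2 : i ≠ l := fun hc => hkl (h.symm.trans hc)
        rw [Pi.single_eq_of_ne h2, Matrix.mul_zero]
        rfl
      · rw [Pi.single_eq_of_ne h, Matrix.zero_mul]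
        rfl)
  have e1 : ∑ j ∈ (Finset.univ : Finset o), Matrix.blockDiagonal' (Pi.single j (q j)) = Matrix.blockDiagonal' q := by
    have e2 := map_sum (Matrix.blockDiagonal'AddMonoidHom κ κ R) (fun j => Pi.single j (q j)) Finset.univ
    rw [Finset.univ_sum_single] at e2
    exact e2.symm
  rw [v3_cl e1.symm (IsPr.diag' hq) h, e]
  exact Finset.sum_congr rfl fun j _ => cl_eq.2 (v3_equi hq j)

end Pool.H71W
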