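import Pool.Agent.Lib.H71W.C5

/-!
# Project H71W, W1 (S): one by one matrices and the closed ideal of a projection
-/

open scoped Matrix

namespace Pool.H71W

/-- The `1 × 1` matrix. -/
def m1 {A : Type} (a : A) : Matrix Unit Unit A := Matrix.of fun _ _ => a

theorem m1_pr {A : Type} [NonUnitalCStarAlgebra A] {p : A} (hp : p * p = p) (hps : star p = p) : IsPr (m1 p) := by
  constructor
  · ext i j
    simp [m1, Matrix.mul_apply, hp]
  · ext i j
    simp [m1, hps]

/-- The closed ideal generated by `p`: limits of sums `∑ a p b`. -/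
def Jp {A : Type} [NonUnitalCStarAlgebra A] (p : A) : Set A :=
  closure {x | ∃ (N : ℕ) (a b : Fin N → A), x = ∑ i, a i * p * b i}

/-- The sums `∑ a p b`. -/
def w1_S {A : Type} [NonUnitalCStarAlgebra A] (p : A) : Set A :=
  {x | ∃ (N : ℕ) (a b : Fin N → A), x = ∑ i, a i * p * b i}

theorem w1_S_zero {A : Type} [NonUnitalCStarAlgebra A] (p : A) : (0 : A) ∈ w1_S p :=
  ⟨0, fun _ => 0, fun _ => 0, by simp⟩

theorem w1_S_add {A : Type} [NonUnitalCStarAlgebra A] {p x y : A} (hx : x ∈ w1_S p) (hy : y ∈ w1_S p) :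
    x + y ∈ w1_S p := by
  obtain ⟨N, a, b, rfl⟩ := hx
  obtain ⟨M, c, d, rfl⟩ := hy
  refine ⟨N + M, Fin.append a c, Fin.append b d, ?_⟩
  rw [Fin.sum_univ_add]
  simp

theorem w1_S_left {A : Type} [NonUnitalCStarAlgebra A] {p x : A} (a : A) (hx : x ∈ w1_S p) :
    a * x ∈ w1_S p := by
  obtain ⟨N, c, d, rfl⟩ := hx
  refine ⟨N, fun i => a * c i, d, ?_⟩
  rw [Finset.mul_sum]
  exact Finset.sum_congr rfl fun i _ => by simp only [mul_assoc]

theorem w1_S_right {A : Type} [NonUnitalCStarAlgebra A] {p x : A} (a : A) (hx : x ∈ w1_S p) :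
    x * a ∈ w1_S p := by
  obtain ⟨N, c, d, rfl⟩ := hx
  refine ⟨N, c, fun i => d i * a, ?_⟩
  rw [Finset.sum_mul]
  exact Finset.sum_congr rfl fun i _ => by simp only [mul_assoc]

theorem w1_S_smul {A : Type} [NonUnitalCStarAlgebra A] {p x : A} (z : ℂ) (hx : x ∈ w1_S p) :
    z • x ∈ w1_S p := by
  obtain ⟨N, c, d, rfl⟩ := hx
  refine ⟨N, fun i => z • c i, d, ?_⟩
  rw [Finset.smul_sum]
  exact Finset.sum_congr rfl fun i _ => by simp only [smul_mul_assoc]

theorem w1_S_neg {A : Type} [NonUnitalCStarAlgebra A] {p x : A} (hx : x ∈ w1_S p) :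
    -x ∈ w1_S p := by
  have h := w1_S_smul (-1 : ℂ) hx
  simpa using h

end Pool.H71W
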