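import Pool.Agent.Lib.H71W.Defs

/-!
# Project H71W, W2A (S/M): projections close to a closed ideal
-/

namespace Pool.H71W

/-- Closed two-sided ideals of a unital algebra. -/
structure ClId {R : Type} [CStarAlgebra R] (J : Set R) : Prop where
  zero : (0 : R) ∈ J
  add : ∀ x ∈ J, ∀ y ∈ J, x + y ∈ J
  mul_left : ∀ a, ∀ x ∈ J, a * x ∈ J
  mul_right : ∀ a, ∀ x ∈ J, x * a ∈ J
  closed : IsClosed J

/-- **W2a (S/M).** A projection at distance `< 1` from a closed ideal lies in it. Proof. `‖e - y‖ < 1`, `y ∈ J`; `z = e y e ∈ J`, `‖e - z‖ < 1`;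
`k = 1 - (e - z)` is invertible, `e k = z`, so `e = z k⁻¹ ∈ J`. -/
theorem w2_mem {R : Type} [CStarAlgebra R] {J : Set R} (hJ : ClId J) {e y : R} (he : e * e = e) (hes : star e = e) (hy : y ∈ J)
    (h : ‖e - y‖ < 1) : e ∈ J := by
  have hn : ‖e‖ ≤ 1 := by
    have h1 : ‖star e * e‖ = ‖e‖ * ‖e‖ := CStarRing.norm_star_mul_self
    rw [hes, he] at h1
    by_contra hc
    push Not at hc
    nlinarith [norm_nonneg e]
  have hz : ‖e - e * y * e‖ < 1 := by
    have e1 : e - e * y * e = e * (e - y) * e := by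
      rw [mul_sub, sub_mul, he, he]
    rw [e1]
    calc ‖e * (e - y) * e‖ ≤ ‖e * (e - y)‖ * ‖e‖ := norm_mul_le _ _
      _ ≤ (‖e‖ * ‖e - y‖) * ‖e‖ := by gcongr; exact norm_mul_le _ _
      _ ≤ (1 * ‖e - y‖) * 1 := by gcongr
      _ = ‖e - y‖ := by ring
      _ < 1 := h
  have hzJ : e * y * e ∈ J := hJ.mul_right _ _ (hJ.mul_left _ _ hy)
  obtain ⟨u, hu⟩ : ∃ u : Rˣ, (u : R) = 1 - (e - e * y * e) := ⟨Units.oneSub _ hz, Units.val_oneSub _ _⟩
  have hk : e * (u : R) = e * y * e := by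
    rw [hu]
    have : e * (1 - (e - e * y * e)) = e - e * e + (e * e) * y * e := by noncomm_ring
    rw [this, he, sub_self, zero_add]
  have he2 : e = (e * y * e) * ((u⁻¹ : Rˣ) : R) := by
    rw [← hk, mul_assoc, Units.mul_inv, mul_one]
  rw [he2]
  exact hJ.mul_right _ _ hzJ

end Pool.H71W
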