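import Pool.Agent.Lib.H71W.W2A

/-!
# Project H71W, W2B (M): approximate units of projections, one element
-/

namespace Pool.H71W

/-- **W2b (M).** Proof. Let `0 < ε < 1` (wlog), `b` self-adjoint with finite spectrum, `‖h - b‖ < ε / 4`. `e = cfc f b` with `f t = 1` for
`ε / 2 ≤ |t|`, `0` otherwise: `‖(1 - e) b‖ ≤ ε / 2` (`norm_cfc_le`), so `‖(1 - e) h‖ < ε`. `e = b (cfc k b)`, `k t = 1 / t` for `ε / 2 ≤ |t|`, `0` otherwise,
`‖cfc k b‖ ≤ 2 / ε`: `‖e - h (cfc k b)‖ ≤ (ε / 4)(2 / ε) < 1` and `h (cfc k b) ∈ J`, `w2_mem`. -/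
theorem w2_unit {R : Type} [CStarAlgebra R] (hR : RRU R) {J : Set R} (hJ : ClId J) {h : R} (hh : h ∈ J) (hs : IsSelfAdjoint h)
    {ε : ℝ} (hε : 0 < ε) : ∃ e ∈ J, e * e = e ∧ star e = e ∧ ‖(1 - e) * h‖ < ε := by
  obtain ⟨b, hb, hfin, hhb⟩ := hR h hs (ε / 4) (by linarith)
  have hfinR : (spectrum ℝ b).Finite := by
    rw [← spectrum.preimage_algebraMap ℂ]
    exact hfin.preimage (FaithfulSMul.algebraMap_injective ℝ ℂ).injOn
  have hc : ∀ f : ℝ → ℝ, ContinuousOn f (spectrum ℝ b) := fun f => hfinR.continuousOn f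
  set f : ℝ → ℝ := fun t => if ε / 2 ≤ |t| then 1 else 0 with hf
  set k : ℝ → ℝ := fun t => if ε / 2 ≤ |t| then 1 / t else 0 with hk
  set e : R := cfc f b with he
  have he1 : e * e = e := by
    rw [he, ← cfc_mul f f b (hc _) (hc _)]
    congr 1
    funext t
    simp only [hf]
    split_ifs <;> norm_num
  have he2 : star e = e := cfc_predicate f b
  have hid : cfc (fun t : ℝ => t) b = b := cfc_id' ℝ b hb
  have hone : cfc (fun _ : ℝ => (1 : ℝ)) b = 1 := by
    have := cfc_one ℝ b hb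
    exact this
  have h1 : 1 - e = cfc (fun t => 1 - f t) b := by
    rw [cfc_sub (fun _ => 1) f b (hc _) (hc _), hone]
  have h2 : ‖1 - e‖ ≤ 1 := by
    rw [h1]
    refine norm_cfc_le zero_le_one fun x _ => ?_
    simp only [hf]
    split_ifs <;> norm_num
  have h3 : ‖(1 - e) * b‖ ≤ ε / 2 := by
    have h4 : (1 - e) * b = cfc (fun t => (1 - f t) * t) b := by
      rw [cfc_mul (fun t => 1 - f t) (fun t => t) b (hc _) (hc _), hid, ← h1]
    rw [h4]
    refine norm_cfc_le (by linarith) fun x _ => ?_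
    simp only [hf]
    split_ifs with hx
    · norm_num
      linarith
    · rw [sub_zero, one_mul, Real.norm_eq_abs]
      exact (not_le.1 hx).le
  have h5 : ‖(1 - e) * h‖ < ε := by
    have h6 : (1 - e) * h = (1 - e) * b + (1 - e) * (h - b) := by
      rw [← mul_add]
      congr 1
      abel
    rw [h6]
    have h7 : ‖(1 - e) * (h - b)‖ ≤ 1 * (ε / 4) := (norm_mul_le _ _).trans (mul_le_mul h2 hhb.le (norm_nonneg _) zero_le_one)
    have h8 := norm_add_le ((1 - e) * b) ((1 - e) * (h - b))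
    linarith
  have h9 : e = b * cfc k b := by
    have h10 : e = cfc (fun t => t * k t) b := by
      rw [he]
      congr 1
      funext t
      simp only [hf, hk]
      split_ifs with hx
      · have : t ≠ 0 := by
          intro h0
          rw [h0, abs_zero] at hx
          linarith
        field_simp
      · rw [mul_zero]
    rw [h10, cfc_mul (fun t => t) k b (hc _) (hc _), hid]
  have h11 : ‖cfc k b‖ ≤ 2 / ε := by
    refine norm_cfc_le (by positivity) fun x _ => ?_
    simp only [hk]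
    split_ifs with hx
    · rw [Real.norm_eq_abs, abs_div, abs_one, div_le_div_iff₀ (by linarith) hε]
      linarith
    · rw [norm_zero]
      positivity
  refine ⟨e, ?_, he1, he2, h5⟩
  refine w2_mem hJ he1 he2 (hJ.mul_right (cfc k b) h hh) ?_
  have h12 : e - h * cfc k b = (b - h) * cfc k b := by
    rw [h9, sub_mul]
  rw [h12]
  have h13 : ‖(b - h) * cfc k b‖ ≤ (ε / 4) * (2 / ε) :=
    (norm_mul_le _ _).trans (mul_le_mul (by rw [norm_sub_rev]; exact hhb.le) h11 (norm_nonneg _) (by linarith))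
  have h14 : (ε / 4) * (2 / ε) = 1 / 2 := by
    field_simp
    norm_num
  linarith

end Pool.H71W
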